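import Pool.Agent.MP_3ee8cb_gt.D3RK.RSpec
import Pool.Agent.MP_3ee8cb_gt.D3WI.Base

/-! A regular geodesic bounds no flat strip. -/

namespace Pool.Agent.MP_3ee8cb_gt.D3RK

open Set Filter Topology D3 D3WI
open scoped RealInnerProductSpace

namespace RSTR

variable {m : MF} {lg : V × V → V}

theorem cst {f : ℝ → ℝ} (hf : ConvexOn ℝ univ f) {D : ℝ} (hD : ∀ t, f t ≤ D) (s t : ℝ) :
    f s ≤ f t := by
  by_contra h
  rw [not_le] at h
  have hK : 0 < D - f t := by linarith [hD s]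
  obtain ⟨l, hl⟩ : ∃ l, l = (f s - f t) / (2 * (D - f t)) := ⟨_, rfl⟩
  have l0 : 0 < l := hl ▸ div_pos (by linarith) (by linarith)
  have l2 : l * (2 * (D - f t)) = f s - f t := hl ▸ div_mul_cancel₀ _ (by positivity)
  have l1 : l ≤ 1 := by nlinarith [hD s]
  have h1 := hf.2 (mem_univ t) (mem_univ (t + (s - t) / l)) (sub_nonneg.2 l1) l0.le (by ring)
  have e : (1 - l) • t + l • (t + (s - t) / l) = s := by
    simp only [smul_eq_mul]
    field_simp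
    ring
  rw [e, smul_eq_mul, smul_eq_mul] at h1
  nlinarith [mul_le_mul_of_nonneg_left (hD (t + (s - t) / l)) l0.le]

theorem foot (H : Hd m lg) {x y : V} (h : ‖lg (x, y)‖ = 0) : y = x := by
  have h1 := H.had.ex x y
  have h2 := H.had.ex x x
  rw [norm_eq_zero.1 h] at h1
  rw [lg_self H.ok H.jac H.had] at h2
  rw [← h1, h2]

theorem vel (H : Hd m lg) (z : V × V) : z.2 = lg (z.1, (m.Z 1 z).1) := by
  rw [lg_ray H.jac H.had, one_smul]

theorem same (h1 : SCV) (H : Hd m lg) {z w : V × V} (h : w.1 = z.1) {D : ℝ}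
    (hD : ∀ t, ds m lg t z t w ≤ D) : w = z := by
  have h2 := cst (h1 m lg H z w) hD 1 0
  simp only [ds, H.ok.zero, h, lg_self H.ok H.jac H.had, norm_zero] at h2
  have h3 := foot H (le_antisymm h2 (norm_nonneg _))
  refine Prod.ext h ?_
  rw [vel H w, vel H z, h, h3]

theorem mid (h1 : SCV) (h2 : SGEO) (H : Hd m lg) {u w : V × V} (hu : u ∈ U) {r q : ℝ}
    (hr : ∀ t, ds m lg t u t w = r) (q0 : 0 ≤ q) (q1 : q ≤ 1) :
    ∃ z ∈ U, (∀ t, ds m lg t u t z = q * r) ∧ lg (u.1, z.1) = q • lg (u.1, w.1) := by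
  obtain ⟨σ, hσ⟩ : ∃ σ : ℝ → V, ∀ t,
    σ t = (m.Z q ((m.Z t u).1, lg ((m.Z t u).1, (m.Z t w).1))).1 := ⟨_, fun _ => rfl⟩
  have a0 : ∀ t, lg ((m.Z t u).1, σ t) = q • lg ((m.Z t u).1, (m.Z t w).1) := fun t => by
    rw [hσ]
    exact lg_ray H.jac H.had q ((m.Z t u).1, lg ((m.Z t u).1, (m.Z t w).1))
  have a1 : ∀ t, ‖lg ((m.Z t u).1, σ t)‖ = q * r := fun t => by
    rw [a0, norm_smul, Real.norm_of_nonneg q0, ← hr t, ds]
  have a2 : ∀ t, ‖lg (σ t, (m.Z t w).1)‖ = (1 - q) * r := fun t => by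
    have e := dist_geo H.ok H.jac H.had ((m.Z t u).1, lg ((m.Z t u).1, (m.Z t w).1)) q 1
    rw [H.had.ex, ← hσ, abs_of_nonneg (sub_nonneg.2 q1)] at e
    rw [e, ← hr t, ds]
  have key : ∀ T : ℝ, 0 < T → ∃ z : V × V, ∀ t ∈ Icc (-T) T, (m.Z t z).1 = σ t := fun T hT => by
    obtain ⟨z, hz⟩ : ∃ z, z = m.Z T (σ (-T), (2 * T)⁻¹ • lg (σ (-T), σ T)) := ⟨_, rfl⟩
    have b1 : (m.Z (-T) z).1 = σ (-T) := by
      rw [hz, ← H.ok.add, neg_add_cancel, H.ok.zero]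
    have b2 : (m.Z T z).1 = σ T := by
      rw [hz, ← H.ok.add, H.jac.scale, ← two_mul, inv_mul_cancel₀ (by positivity)]
      exact H.had.ex _ _
    refine ⟨z, fun t ht => ?_⟩
    have c1 := (h1 m lg H u z).le_max_of_mem_Icc (mem_univ (-T)) (mem_univ T) ht
    have c2 := (h1 m lg H z w).le_max_of_mem_Icc (mem_univ (-T)) (mem_univ T) ht
    simp only [ds, b1, b2, a1, a2, max_self] at c1 c2
    rw [hσ]
    refine (h2 m lg H).2 _ _ _ q q0 q1 ?_ ?_
    · rw [← hr t, ds] at c1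
      exact c1
    · rw [← hr t, ds] at c2
      exact c2
  obtain ⟨z, hz⟩ : ∃ z : V × V, z = (σ 0, lg (σ 0, σ 1)) := ⟨_, rfl⟩
  have all : ∀ t, (m.Z t z).1 = σ t := fun t => by
    have t0 := abs_nonneg t
    obtain ⟨y, hy⟩ := key (|t| + 1) (by linarith)
    have y0 := hy 0 ⟨by linarith, by linarith⟩
    have y1 := hy 1 ⟨by linarith, by linarith⟩
    rw [H.ok.zero] at y0
    have e : y = z := by
      rw [hz]
      exact Prod.ext y0 (by rw [vel H y, y0, y1])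
    rw [← e]
    exact hy t ⟨by linarith [neg_abs_le t], by linarith [le_abs_self t]⟩
  have hu' : ‖u.2‖ = 1 := hu
  have bd : ∀ T : ℝ, 0 < T → T * |‖z.2‖ - 1| ≤ 2 * (q * r) := fun T hT => by
    have d1 := dist_geo H.ok H.jac H.had z 0 T
    have d2 := dist_geo H.ok H.jac H.had u 0 T
    rw [all, all, sub_zero, abs_of_pos hT] at d1
    rw [sub_zero, abs_of_pos hT, hu'] at d2
    have t1 := H.had.tri (σ 0) (m.Z 0 u).1 (σ T)
    have t2 := H.had.tri (m.Z 0 u).1 (m.Z T u).1 (σ T)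
    have t3 := H.had.tri (m.Z 0 u).1 (σ 0) (m.Z T u).1
    have t4 := H.had.tri (σ 0) (σ T) (m.Z T u).1
    have s1 := lg_symm H.jac H.had (m.Z 0 u).1 (σ 0)
    have s2 := lg_symm H.jac H.had (m.Z T u).1 (σ T)
    have e1 := a1 0
    have e2 := a1 T
    rw [← abs_of_pos hT, ← abs_mul, abs_le]
    constructor <;> linarith
  refine ⟨z, ?_, fun t => by rw [ds, all, a1], ?_⟩
  · by_contra h
    have h0 : 0 < |‖z.2‖ - 1| := abs_pos.2 (sub_ne_zero.2 h)
    have h3 := bd ((|2 * (q * r)| + 1) / |‖z.2‖ - 1|) (by positivity)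
    rw [div_mul_cancel₀ _ h0.ne'] at h3
    linarith [le_abs_self (2 * (q * r))]
  · have e := a0 0
    rw [H.ok.zero, H.ok.zero] at e
    rw [hz]
    exact e

end RSTR

open RSTR

theorem rSTR : R_STR := by
  intro h1 h2 h3 m lg H u hu hR w _ ⟨D, hD⟩
  have hu' : ‖u.2‖ = 1 := hu
  obtain ⟨b, hb⟩ : ∃ b, b = lg (u.1, w.1) := ⟨_, rfl⟩
  have hr : ∀ t, ds m lg t u t w = ‖b‖ := fun t => by
    have e : ds m lg 0 u 0 w = ‖b‖ := by rw [ds, H.ok.zero, H.ok.zero, hb]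
    rw [← e]
    exact le_antisymm (cst (h1 m lg H u w) hD t 0) (cst (h1 m lg H u w) hD 0 t)
  by_cases h : |⟪b, u.2⟫| < ‖b‖
  · have r0 : 0 < ‖b‖ := (abs_nonneg _).trans_lt h
    have q0 : ∀ k : ℕ, 0 < 1 / ((k : ℝ) + 1) := fun k => by positivity
    have q1 : ∀ k : ℕ, 1 / ((k : ℝ) + 1) ≤ 1 := fun k =>
      (div_le_one (by positivity)).2 (by linarith [Nat.cast_nonneg (α := ℝ) k])
    choose z z1 z2 z3 using fun k : ℕ => mid h1 h2 H hu hr (q0 k).le (q1 k)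
    refine absurd hR (h3 m lg H u hu z (fun k => 1 / ((k : ℝ) + 1) * ‖b‖) (|⟪b, u.2⟫| / ‖b‖)
      ((div_lt_one r0).2 h) (fun k => ⟨z1 k, mul_pos (q0 k) r0, z2 k, ?_⟩) ?_)
    · rw [z3, ← hb, real_inner_smul_left, abs_mul, abs_of_pos (q0 k)]
      apply le_of_eq
      field_simp
    · simpa using (tendsto_one_div_add_atTop_nhds_zero_nat (𝕜 := ℝ)).mul_const ‖b‖
  · rw [not_lt] at h
    obtain ⟨e, he⟩ : ∃ e, e = ⟪b, u.2⟫ := ⟨_, rfl⟩
    have e1 : ‖b - e • u.2‖ ^ 2 ≤ 0 := by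
      have := pow_le_pow_left₀ (norm_nonneg _) h 2
      rw [norm_sub_sq_real, real_inner_smul_right, norm_smul, hu', mul_one, Real.norm_eq_abs,
        sq_abs, ← he]
      rw [sq_abs, ← he] at this
      nlinarith
    have e2 : b = e • u.2 :=
      sub_eq_zero.1 (norm_eq_zero.1 (pow_eq_zero_iff two_ne_zero |>.1
        (le_antisymm e1 (sq_nonneg _))))
    have e3 := H.had.ex u.1 w.1
    rw [← hb, e2, one_smul' H.jac] at e3
    refine ⟨e, same h1 H e3.symm (D := |e| + D) fun t => ?_⟩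
    have t1 := H.had.tri (m.Z (t + e) u).1 (m.Z t u).1 (m.Z t w).1
    rw [dist_geo H.ok H.jac H.had, hu', mul_one, show t - (t + e) = -e by ring, abs_neg] at t1
    have t2 := hD t
    rw [ds] at t2
    rw [ds, ← H.ok.add]
    linarith

end Pool.Agent.MP_3ee8cb_gt.D3RK
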