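import Pool.Agent.MP_3ee8cb_gt.D3RK.RSpec
import Pool.Agent.MP_3ee8cb_gt.D3WI.Base

/-! Parallel geodesics that accumulate transversally give a parallel field. -/

namespace Pool.Agent.MP_3ee8cb_gt.D3RK

open Set Filter Topology D3 D3WI
open scoped RealInnerProductSpace

namespace RPAR

variable {m : MF} {lg : V × V → V}

theorem d_lg (H : Hd m lg) (y : V) : HasFDerivAt (fun z => lg (y, z)) (m.S y) y := by
  have d : DifferentiableAt ℝ (fun z => lg (y, z)) y :=
    (H.had.c1.differentiable one_ne_zero _).comp y (by fun_prop)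
  refine d.hasFDerivAt.congr_fderiv (ContinuousLinearMap.ext fun x => ?_)
  have h1 := (H.ok.ode (y, m.S y x) 0).fst
  have h2 := d.hasFDerivAt.comp_hasDerivAt_of_eq 0 h1 (by rw [H.ok.zero])
  have h3 : HasDerivAt (fun r : ℝ => r • m.S y x) (m.S y x) 0 := by
    simpa using (hasDerivAt_id (0 : ℝ)).smul_const (m.S y x)
  have h4 := h2.unique (h3.congr_of_eventuallyEq (.of_forall fun r =>
    lg_ray H.jac H.had r (y, m.S y x)))
  rw [H.ok.zero] at h4
  simpa [MF.vf, H.ok.RS] using h4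

theorem par (H : Hd m lg) {u ξ : V × V} (h : ∀ t, ‖m.J u ξ t‖ = 1) (t : ℝ) : m.J' u ξ t = 0 := by
  have h1 : ∀ s, ⟪m.J u ξ s, m.J' u ξ s⟫ = 0 := fun s => by
    have a := ((H.jac.d1 u ξ s).inner ℝ (H.jac.d1 u ξ s)).unique
      ((hasDerivAt_const s (1 : ℝ)).congr_of_eventuallyEq (.of_forall fun r => by
        simp only [real_inner_self_eq_norm_sq, h, one_pow]))
    have b := skew_self H.ok (m.Z s u).1 (m.R (m.Z s u).1 (m.Z s u).2) (m.J u ξ s)
    rw [inner_sub_left, inner_sub_right, MF.w, real_inner_comm (m.om _ _ _), b,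
      real_inner_comm (m.J u ξ s)] at a
    linarith
  have a := ((H.jac.d1 u ξ t).inner ℝ (H.jac.d2 u ξ t)).unique
    ((hasDerivAt_const t (0 : ℝ)).congr_of_eventuallyEq (.of_forall h1))
  have b := H.up (m.Z t u).1 (m.J u ξ t) (m.Z t u).2
  rw [inner_sub_left, inner_sub_right, inner_neg_right, MF.w, H.ok.skew,
    real_inner_self_eq_norm_sq, real_inner_comm] at a
  exact norm_eq_zero.1 (pow_eq_zero_iff two_ne_zero |>.1 (by nlinarith [sq_nonneg ‖m.J' u ξ t‖]))

theorem lim {E F : Type} [NormedAddCommGroup E] [NormedSpace ℝ E] [NormedAddCommGroup F]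
    [NormedSpace ℝ F] {f : E → F} {D : E →L[ℝ] F} {x v : E} (hf : HasFDerivAt f D x)
    {w : ℕ → E} {r : ℕ → ℝ} (h0 : ∀ k, 0 < r k) (hr : Tendsto r atTop (𝓝 0))
    (hw : Tendsto (fun k => (r k)⁻¹ • (w k - x)) atTop (𝓝 v)) :
    Tendsto (fun k => (r k)⁻¹ • (f (w k) - f x)) atTop (𝓝 (D v)) := by
  have d : Tendsto (fun k => w k - x) atTop (𝓝 0) := by
    simpa [smul_smul, mul_inv_cancel₀ (h0 _).ne'] using hr.smul hw
  simpa using (hf.hasFDerivWithinAt (s := univ)).lim d (by simp) hw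

end RPAR

open RPAR

theorem rPAR : SPAR := by
  intro m lg H u _ w r θ hθ hw hr rg
  let B : ℝ → V × V → V := fun t z => lg ((m.Z t u).1, (m.Z t z).1)
  let G : V × V → V × V := fun b => ((m.Z 1 ((m.Z 0 u).1, b.1)).1,
    lg ((m.Z 1 ((m.Z 0 u).1, b.1)).1, (m.Z 1 ((m.Z 1 u).1, b.2)).1))
  have GB : ∀ z, G (B 0 z, B 1 z) = z := fun z => by
    simp only [G, B, H.had.ex]
    rw [H.ok.zero z, lg_ray H.jac H.had, one_smul]
  have B0 : ∀ t, B t u = 0 := fun t => lg_self H.ok H.jac H.had _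
  have dG : Differentiable ℝ G := by
    have a := (Z_c1 H.ok 1).differentiable one_ne_zero
    have b := H.had.c1.differentiable one_ne_zero
    fun_prop
  have nB : ∀ t k, ‖(r k)⁻¹ • B t (w k)‖ = 1 := fun t k => by
    rw [norm_smul, norm_inv, Real.norm_of_nonneg (hw k).2.1.le]
    exact inv_mul_eq_one₀ (hw k).2.1.ne' |>.2 ((hw k).2.2.1 t).symm
  obtain ⟨β, -, φ, hφ, hβ⟩ := (isCompact_closedBall (0 : V × V) 1).tendsto_subseq
    (x := fun k => (r k)⁻¹ • ((B 0 (w k), B 1 (w k)) - 0)) fun k => by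
      rw [mem_closedBall_zero_iff, sub_zero, Prod.smul_mk, Prod.norm_mk, nB, nB, max_self]
  have p : ∀ k, 0 < r (φ k) := fun k => (hw _).2.1
  have hr' := hr.comp hφ.tendsto_atTop
  have h1 := lim (dG 0).hasFDerivAt p hr' hβ
  have G0 : G 0 = u := by rw [← GB u, B0, B0]; rfl
  simp only [GB, G0] at h1
  set ξ := fderiv ℝ G 0 β
  have h2 : ∀ t, Tendsto (fun k => (r (φ k))⁻¹ • B t (w (φ k))) atTop (𝓝 (m.J u ξ t)) := fun t => by
    have := lim ((d_lg H (m.Z t u).1).comp u (Z_diff H.ok t u).hasFDerivAt.fst) p hr' h1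
    simp only [Function.comp_apply, lg_self H.ok H.jac H.had, sub_zero] at this
    exact this
  have h3 : ∀ t, ‖m.J u ξ t‖ = 1 := fun t => tendsto_nhds_unique (h2 t).norm (by
    simp only [nB]
    exact tendsto_const_nhds)
  have h4 : |⟪m.J u ξ 0, u.2⟫| ≤ θ := le_of_tendsto' ((h2 0).inner tendsto_const_nhds).abs
    fun k => by
      simp only [B, H.ok.zero]
      rw [real_inner_smul_left, abs_mul, abs_inv, abs_of_pos (p k), inv_mul_le_iff₀' (p k)]
      exact (hw _).2.2.2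
  have h5 := congrArg norm (rg ξ (par H h3))
  rw [← J_zero H.ok, h3, norm_smul, show ‖u.2‖ = 1 by assumption, mul_one, Real.norm_eq_abs,
    real_inner_comm] at h5
  linarith

end Pool.Agent.MP_3ee8cb_gt.D3RK
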