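import Pool.Agent.MP_3ee8cb_gt.D3WI.Base

/-! Convexity of the distance between geodesics, and asymptotes, in nonpositive curvature. -/

namespace Pool.Agent.MP_3ee8cb_gt.D3RK.H77

open D3 D3WI Set Filter Topology
open scoped RealInnerProductSpace

variable {m : MF} {lg : V × V → V}

/-- The comparison inequality for a point and a segment. -/
theorem cn (ho : m.OK) (hj : m.Jac) (hl : m.Had lg) (z : V × V) (p : V) {s : ℝ} (h0 : 0 ≤ s)
    (h1 : s ≤ 1) : ‖lg ((m.Z s z).1, p)‖ ^ 2 ≤ (1 - s) * ‖lg (p, z.1)‖ ^ 2 +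
      s * ‖lg (p, (m.Z 1 z).1)‖ ^ 2 - s * (1 - s) * ‖z.2‖ ^ 2 := by
  have a0 := hinge' hl (m.Z s z).1 p (m.Z 0 z).1
  have a1 := hinge' hl (m.Z s z).1 p (m.Z 1 z).1
  rw [lg_geo ho hj hl] at a0 a1
  rw [ho.zero] at a0
  have b0 := pow_le_pow_left₀ (norm_nonneg _) a0 2
  have b1 := pow_le_pow_left₀ (norm_nonneg _) a1 2
  rw [norm_sub_sq_real, real_inner_smul_right, norm_smul, mul_pow, Real.norm_eq_abs, sq_abs,
    hj.norm] at b0 b1
  have c0 := mul_le_mul_of_nonneg_left b0 (sub_nonneg.2 h1)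
  have c1 := mul_le_mul_of_nonneg_left b1 h0
  nlinarith

/-- Triangles are thin. -/
theorem thin (ho : m.OK) (hj : m.Jac) (hl : m.Had lg) (x a b : V) {s : ℝ} (h0 : 0 ≤ s)
    (h1 : s ≤ 1) : ‖lg ((m.Z s (x, a)).1, (m.Z s (x, b)).1)‖ ≤
      s * ‖lg ((m.Z 1 (x, a)).1, (m.Z 1 (x, b)).1)‖ := by
  have a0 := cn ho hj hl (x, a) (m.Z s (x, b)).1 h0 h1
  have a1 := cn ho hj hl (x, b) (m.Z 1 (x, a)).1 h0 h1
  have e0 := dist_geo ho hj hl (x, b) s 0
  have e1 := dist_geo ho hj hl (x, a) 1 0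
  rw [ho.zero] at e0 e1
  rw [zero_sub, abs_neg, abs_of_nonneg h0] at e0
  rw [zero_sub, abs_neg, abs_one, one_mul] at e1
  simp only at a0 a1 e0 e1
  rw [e0] at a0
  rw [e1] at a1
  refine (pow_le_pow_iff_left₀ (norm_nonneg _) (by positivity) two_ne_zero).1 ?_
  have c1 := mul_le_mul_of_nonneg_left a1 h0
  nlinarith

theorem rep (ho : m.OK) (hj : m.Jac) (z : V × V) (a r s : ℝ) :
    (m.Z s ((m.Z a z).1, r • (m.Z a z).2)).1 = (m.Z (a + r * s) z).1 := by
  rw [hj.scale, add_comm, ho.add]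

/-- The distance between two geodesics is a convex function of time. -/
theorem cvx (ho : m.OK) (hj : m.Jac) (hl : m.Had lg) (z z' : V × V) :
    ConvexOn ℝ univ fun t => ‖lg ((m.Z t z).1, (m.Z t z').1)‖ := by
  refine ⟨convex_univ, fun a _ b _ u s hu hs e => ?_⟩
  obtain rfl : u = 1 - s := by linarith
  have h1 : s ≤ 1 := by linarith
  simp only [smul_eq_mul]
  have a0 := thin ho hj hl (m.Z a z).1 ((b - a) • (m.Z a z).2)
    (lg ((m.Z a z).1, (m.Z b z').1)) hs h1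
  have a1 := thin ho hj hl (m.Z b z').1 (lg ((m.Z b z').1, (m.Z a z).1))
    ((a - b) • (m.Z b z').2) hu (by linarith)
  rw [rep ho hj, rep ho hj, hl.ex] at a0 a1
  have e2 : (m.Z (1 - s) ((m.Z b z').1, lg ((m.Z b z').1, (m.Z a z).1))).1 =
      (m.Z s ((m.Z a z).1, lg ((m.Z a z).1, (m.Z b z').1))).1 := by
    have := rep ho hj ((m.Z a z).1, lg ((m.Z a z).1, (m.Z b z').1)) 1 (-1) (1 - s)
    rw [hl.ex, neg_one_smul, ← hl.rev, show 1 + -1 * (1 - s) = s by ring] at this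
    exact this
  rw [e2, show b + (a - b) * (1 - s) = (1 - s) * a + s * b by ring,
    show b + (a - b) * 1 = a by ring] at a1
  rw [show a + (b - a) * s = (1 - s) * a + s * b by ring, show a + (b - a) * 1 = b by ring] at a0
  have a2 := hl.tri (m.Z ((1 - s) * a + s * b) z).1
    (m.Z s ((m.Z a z).1, lg ((m.Z a z).1, (m.Z b z').1))).1 (m.Z ((1 - s) * a + s * b) z').1
  linarith

/-- A convex function that is bounded on a half line does not increase. -/
theorem anti_of_bdd {f : ℝ → ℝ} (hf : ConvexOn ℝ univ f) {C T : ℝ} (hC : ∀ t, T ≤ t → f t ≤ C) :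
    Antitone f := by
  intro a b hab
  by_contra H
  have hlt : f a < f b := not_le.1 H
  have hab' : a < b := lt_of_le_of_ne hab fun e => by rw [e] at hlt; exact lt_irrefl _ hlt
  have hp : 0 < (f b - f a) / (b - a) := div_pos (sub_pos.2 hlt) (sub_pos.2 hab')
  obtain ⟨t, t1, t2, t3⟩ : ∃ t, T ≤ t ∧ b < t ∧ C - f b < (f b - f a) / (b - a) * (t - b) := by
    refine ⟨max T (b + 1 + |C - f b| / ((f b - f a) / (b - a))), le_max_left _ _,
      lt_of_lt_of_le ?_ (le_max_right _ _), ?_⟩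
    · have := div_nonneg (abs_nonneg (C - f b)) hp.le
      linarith
    · have h1 := le_max_right T (b + 1 + |C - f b| / ((f b - f a) / (b - a)))
      have h2 := mul_div_cancel₀ |C - f b| hp.ne'
      have h3 := le_abs_self (C - f b)
      nlinarith
  have h1 := hf.slope_mono_adjacent (mem_univ a) (mem_univ t) hab' t2
  rw [le_div_iff₀ (sub_pos.2 t2)] at h1
  linarith [hC t t1]

/-- A bounded convex function on the line is constant. -/
theorem const_of_bdd {f : ℝ → ℝ} (hf : ConvexOn ℝ univ f) {C : ℝ} (hC : ∀ t, f t ≤ C) (a b : ℝ) :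
    f a = f b := by
  have h1 := anti_of_bdd hf (T := 0) fun t _ => hC t
  have hg : ConvexOn ℝ univ fun t => f (-t) := ⟨convex_univ, fun x _ y _ u v hu hv e => by
    have := hf.2 (mem_univ (-x)) (mem_univ (-y)) hu hv e
    simpa only [smul_eq_mul, neg_add, mul_neg] using this⟩
  have h2 := anti_of_bdd hg (T := 0) fun t _ => hC (-t)
  wlog hab : a ≤ b generalizing a b
  · exact (this b a (not_le.1 hab).le).symm
  have h3 := h2 (neg_le_neg hab)
  simp only [neg_neg] at h3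
  exact le_antisymm h3 (h1 hab)

/-- Rays from one point diverge at least linearly. -/
theorem div (hj : m.Jac) (hl : m.Had lg) (x a b : V) (t : ℝ) :
    |t| * ‖a - b‖ ≤ ‖lg ((m.Z t (x, a)).1, (m.Z t (x, b)).1)‖ := by
  have := hl.hinge x (t • a) (t • b)
  rwa [hj.scale, hj.scale, mul_one, ← smul_sub, norm_smul, Real.norm_eq_abs] at this

/-- `p` and `q` stay at bounded distance in the future. -/
def Fw (m : MF) (lg : V × V → V) (p q : V × V) : Prop :=
  ∃ C : ℝ, ∀ t, 0 ≤ t → ‖lg ((m.Z t p).1, (m.Z t q).1)‖ ≤ C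

theorem Fw.le (ho : m.OK) (hj : m.Jac) (hl : m.Had lg) {p q : V × V} (h : Fw m lg p q) {t : ℝ}
    (ht : 0 ≤ t) : ‖lg ((m.Z t p).1, (m.Z t q).1)‖ ≤ ‖lg (p.1, q.1)‖ := by
  obtain ⟨C, hC⟩ := h
  have := anti_of_bdd (cvx ho hj hl p q) hC ht
  simpa only [ho.zero] using this

theorem Fw.symm (hj : m.Jac) (hl : m.Had lg) {p q : V × V} (h : Fw m lg p q) : Fw m lg q p :=
  h.imp fun _ hC t ht => by rw [lg_symm hj hl]; exact hC t ht

theorem Fw.trans (hl : m.Had lg) {p q r : V × V} (h : Fw m lg p q) (h' : Fw m lg q r) :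
    Fw m lg p r := by
  obtain ⟨C, hC⟩ := h
  obtain ⟨C', hC'⟩ := h'
  exact ⟨C + C', fun t ht => (hl.tri _ _ _).trans (add_le_add (hC t ht) (hC' t ht))⟩

/-- The asymptote from a point is unique. -/
theorem Fw.uniq (hj : m.Jac) (hl : m.Had lg) {x a b : V} (h : Fw m lg (x, a) (x, b)) : a = b := by
  obtain ⟨C, hC⟩ := h
  by_contra hne
  have hp : 0 < ‖a - b‖ := norm_pos_iff.2 (sub_ne_zero.2 hne)
  have ht : 0 ≤ (|C| + 1) / ‖a - b‖ := by positivity
  have h1 := (div hj hl x a b _).trans (hC _ ht)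
  rw [abs_of_nonneg ht, div_mul_cancel₀ _ hp.ne'] at h1
  linarith [le_abs_self C]

theorem dist_cont (ho : m.OK) (hl : m.Had lg) :
    Continuous fun q : ℝ × (V × V) × V × V => ‖lg ((m.Z q.1 q.2.1).1, (m.Z q.1 q.2.2).1)‖ := by
  have c := ho.cZ.continuous
  exact (hl.c1.continuous.comp
    ((c.comp (continuous_fst.prodMk continuous_snd.fst)).fst.prodMk
      (c.comp (continuous_fst.prodMk continuous_snd.snd)).fst)).norm

/-- The asymptote from a point exists. -/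
theorem fw_ex (ho : m.OK) (hj : m.Jac) (hl : m.Had lg) (x : V) (w : V × V) :
    ∃ a : V, ‖a‖ = ‖w.2‖ ∧ Fw m lg (x, a) w := by
  let a : ℕ → V := fun k => ((k : ℝ) + 1)⁻¹ • lg (x, (m.Z ((k : ℝ) + 1) w).1)
  have hk : ∀ k : ℕ, (0 : ℝ) < (k : ℝ) + 1 := fun k => by positivity
  have meet : ∀ k : ℕ, (m.Z ((k : ℝ) + 1) (x, a k)).1 = (m.Z ((k : ℝ) + 1) w).1 := fun k => by
    simp only [a]
    rw [hj.scale, inv_mul_cancel₀ (hk k).ne', hl.ex]
  have le : ∀ (k : ℕ) t, 0 ≤ t → t ≤ (k : ℝ) + 1 →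
      ‖lg ((m.Z t (x, a k)).1, (m.Z t w).1)‖ ≤ ‖lg (x, w.1)‖ := fun k t h0 h1 => by
    have := (cvx ho hj hl (x, a k) w).le_on_segment (mem_univ 0) (mem_univ ((k : ℝ) + 1))
      (z := t) (by rw [segment_eq_Icc (hk k).le]; exact ⟨h0, h1⟩)
    rw [meet, lg_self ho hj hl, norm_zero, ho.zero, ho.zero] at this
    exact this.trans (max_le le_rfl (norm_nonneg _))
  have nb : ∀ k : ℕ, |‖a k‖ - ‖w.2‖| ≤ ‖lg (x, w.1)‖ * (1 / ((k : ℝ) + 1)) := fun k => by
    have e0 := dist_geo ho hj hl w 0 ((k : ℝ) + 1)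
    rw [ho.zero, sub_zero, abs_of_pos (hk k)] at e0
    have t1 := hl.tri x w.1 (m.Z ((k : ℝ) + 1) w).1
    have t2 := hl.tri w.1 x (m.Z ((k : ℝ) + 1) w).1
    rw [lg_symm hj hl x w.1] at t2
    have e1 : ‖a k‖ - ‖w.2‖ =
        (‖lg (x, (m.Z ((k : ℝ) + 1) w).1)‖ - ((k : ℝ) + 1) * ‖w.2‖) * (1 / ((k : ℝ) + 1)) := by
      simp only [a]
      rw [norm_smul, norm_inv, Real.norm_eq_abs, abs_of_pos (hk k)]
      field_simp
    rw [e1, abs_mul, abs_of_pos (one_div_pos.2 (hk k))]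
    exact mul_le_mul_of_nonneg_right (abs_le.2 ⟨by linarith, by linarith⟩)
      (one_div_pos.2 (hk k)).le
  have hb : ∀ k, a k ∈ Metric.closedBall (0 : V) (‖w.2‖ + ‖lg (x, w.1)‖) := fun k => by
    rw [mem_closedBall_zero_iff]
    have h1 := (abs_le.1 (nb k)).2
    have h2 : 1 / ((k : ℝ) + 1) ≤ 1 := by
      rw [div_le_one (hk k)]
      linarith [Nat.cast_nonneg (α := ℝ) k]
    nlinarith [norm_nonneg (lg (x, w.1))]
  obtain ⟨b, -, φ, hφ, hlim⟩ := (isCompact_closedBall _ _).tendsto_subseq hb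
  refine ⟨b, ?_, ‖lg (x, w.1)‖, fun t ht => ?_⟩
  · have t0 := (tendsto_one_div_add_atTop_nhds_zero_nat (𝕜 := ℝ) |>.comp
      hφ.tendsto_atTop).const_mul ‖lg (x, w.1)‖
    rw [mul_zero] at t0
    have t1 := (hlim.norm.sub_const ‖w.2‖).abs
    exact sub_eq_zero.1 (abs_nonpos_iff.1 (le_of_tendsto_of_tendsto' t1 t0 fun k => nb (φ k)))
  · have c : Continuous fun e : V => ‖lg ((m.Z t (x, e)).1, (m.Z t w).1)‖ :=
      (dist_cont ho hl).comp (f := fun e : V => (t, (x, e), w)) (continuous_const.prodMk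
        ((continuous_const.prodMk continuous_id).prodMk continuous_const))
    refine le_of_tendsto ((c.tendsto b).comp hlim) ?_
    filter_upwards [(tendsto_natCast_atTop_atTop (R := ℝ) |>.comp
      hφ.tendsto_atTop).eventually_ge_atTop t] with k hk'
    exact le (φ k) t ht (le_trans hk' (by simp))

/-- The asymptote map. -/
structure Asy (m : MF) (lg : V × V → V) (E : V × V × V → V) : Prop where
  norm : ∀ x w, ‖E (x, w)‖ = ‖w.2‖
  fw : ∀ x w, Fw m lg (x, E (x, w)) w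
  uniq : ∀ x a w, Fw m lg (x, a) w → a = E (x, w)
  cont : Continuous E

theorem asy (ho : m.OK) (hj : m.Jac) (hl : m.Had lg) : ∃ E, Asy m lg E := by
  choose E h1 h2 using fw_ex ho hj hl
  have u : ∀ x a w, Fw m lg (x, a) w → a = E x w := fun x a w h =>
    (h.trans hl ((h2 x w).symm hj hl)).uniq hj hl
  refine ⟨fun q => E q.1 q.2, h1, h2, u, continuous_iff_seqContinuous.2 fun q q₀ hq => ?_⟩
  refine tendsto_of_subseq_tendsto fun ψ hψ => ?_
  have hq' := hq.comp hψ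
  obtain ⟨R, hR⟩ := (hq'.snd_nhds.snd_nhds.norm).bddAbove_range
  have hb : ∀ k, E (q (ψ k)).1 (q (ψ k)).2 ∈ Metric.closedBall (0 : V) R := fun k => by
    rw [mem_closedBall_zero_iff, h1]
    exact hR ⟨k, rfl⟩
  obtain ⟨b, -, φ, hφ, hlim⟩ := (isCompact_closedBall _ _).tendsto_subseq hb
  have hq2 := hq'.comp hφ.tendsto_atTop
  have e : b = E q₀.1 q₀.2 := u _ _ _ ⟨‖lg (q₀.1, q₀.2.1)‖, fun t ht => by
    have t1 := ((dist_cont ho hl).tendsto (t, (q₀.1, b), q₀.2)).comp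
      (tendsto_const_nhds.prodMk_nhds ((hq2.fst_nhds.prodMk_nhds hlim).prodMk_nhds hq2.snd_nhds))
    have t2 := ((hl.c1.continuous.tendsto (q₀.1, q₀.2.1)).comp
      (hq2.fst_nhds.prodMk_nhds hq2.snd_nhds.fst_nhds)).norm
    exact le_of_tendsto_of_tendsto' t1 t2 fun k => (h2 _ _).le ho hj hl ht⟩
  exact ⟨φ, e ▸ hlim⟩

end Pool.Agent.MP_3ee8cb_gt.D3RK.H77
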