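import Pool.Agent.MP_3ee8cb_gt.D3RK.RSpec
import Pool.Agent.MP_3ee8cb_gt.D3RK.H77R

/-! Rank one dynamics: north south behaviour along a recurrent geodesic without a strip. -/

namespace Pool.Agent.MP_3ee8cb_gt.D3RK

open Set Filter Topology D3 D3WI
open D3.SI (ac)
open scoped RealInnerProductSpace

noncomputable section

namespace RNS

variable {m : MF} {lg : V × V → V} {E : V → V × V → V}

/-- The cosine of the angle between `z` and the direction to the end point of `w`. -/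
def F (E : V → V × V → V) (z w : V × V) : ℝ := ⟪z.2, E z.1 w⟫

theorem lim (A : Asy m lg E) {z w : ℕ → V × V} {z0 w0 : V × V} (hz : Tendsto z atTop (𝓝 z0))
    (hw : Tendsto w atTop (𝓝 w0)) (h : ∀ n, w n ∈ U) (h0 : w0 ∈ U) :
    Tendsto (fun n => F E (z n) (w n)) atTop (𝓝 (F E z0 w0)) :=
  hz.snd_nhds.inner (𝕜 := ℝ) ((A.cont (z0.1, w0) h0).tendsto.comp
    (f := fun n => ((z n).1, w n)) (tendsto_nhdsWithin_iff.2
      ⟨hz.fst_nhds.prodMk_nhds hw, Eventually.of_forall h⟩))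

theorem conv {a : ℕ → V} {b : V} (ha : ∀ n, ‖a n‖ = 1) (hb : ‖b‖ = 1)
    (h : ∀ θ : ℝ, θ < 1 → ∀ᶠ n in atTop, θ < ⟪b, a n⟫) : Tendsto a atTop (𝓝 b) := by
  refine Metric.tendsto_nhds.2 fun ε hε => ?_
  filter_upwards [h (1 - ε ^ 2 / 2) (by nlinarith [sq_pos_of_pos hε])] with n hn
  rw [dist_comm, dist_eq_norm]
  refine lt_of_pow_lt_pow_left₀ 2 hε.le ?_
  rw [norm_sub_sq_real, ha, hb]
  linarith

theorem flat (H : Hd m lg) (cv : ∀ z w, ConvexOn ℝ univ fun t => ds m lg t z t w)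
    (A : Asy m lg E) {u w : V × V} (hu : u ∈ U) (hw : w ∈ U) {L : ℝ}
    (hL : ∀ s, F E (m.Z s u) w = L) (s r : ℝ) :
    ds m lg 1 ((m.Z s u).1, E (m.Z s u).1 w) 1 ((m.Z r u).1, E (m.Z r u).1 w) = |s - r| := by
  obtain ⟨ho, hj, -, hl⟩ := H
  set p := ((m.Z s u).1, E (m.Z s u).1 w) with hp
  set q := ((m.Z r u).1, E (m.Z r u).1 w) with hq
  have g0 : ds m lg 0 p 0 q = |s - r| := by
    rw [ds, ho.zero, ho.zero, dist_geo ho hj hl, show ‖u.2‖ = 1 from hu, mul_one, abs_sub_comm]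
  have up : ds m lg 1 p 1 q ≤ ds m lg 0 p 0 q := H77.anti_of_bdd (cv p q) (T := 0)
    (C := ‖lg ((m.Z s u).1, w.1)‖ + ‖lg ((m.Z r u).1, w.1)‖) (fun t ht => by
      refine (hl.tri _ (m.Z t w).1 _).trans (add_le_add (A.bdd _ w hw t ht) ?_)
      rw [lg_symm hj hl]
      exact A.bdd _ w hw t ht) zero_le_one
  have d0 : ∀ z : V × V, HasDerivAt (fun t => (m.Z t z).1) (m.R z.1 z.2) 0 := fun z => by
    have h : HasDerivAt (fun t => (m.Z t z).1) (m.vf (m.Z 0 z)).1 0 := (ho.ode z 0).fst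
    rwa [ho.zero] at h
  have d1 : DifferentiableAt ℝ (fun y : V × V => ‖lg y‖ ^ 2 / 2) (p.1, q.1) := by
    simp only [div_eq_mul_inv]
    exact ((hl.c1.differentiable one_ne_zero _).norm_sq ℝ).mul_const _
  have d2 := HasFDerivAt.comp_hasDerivAt_of_eq (0 : ℝ) d1.hasFDerivAt ((d0 p).prodMk (d0 q))
    (by rw [ho.zero, ho.zero])
  have e : fderiv ℝ (fun y : V × V => ‖lg y‖ ^ 2 / 2) (p.1, q.1) (m.R p.1 p.2, m.R q.1 q.2) =
      0 := by
    have l1 : ⟪(m.Z s u).2, E (m.Z s u).1 w⟫ = L := hL s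
    have l2 : ⟪(m.Z r u).2, E (m.Z r u).1 w⟫ = L := hL r
    rw [hl.grad]
    simp only [Prod.swap, ho.SR, hp, hq, lg_geo ho hj hl, real_inner_smul_left, l1, l2]
    ring
  rw [e] at d2
  have c2 := ((cv p q).pow (fun t _ => norm_nonneg _) 2).le_slope_of_hasDerivAt (mem_univ 0)
    (mem_univ 1) zero_lt_one (f' := 0) (by
      have d3 := d2.mul_const 2
      rw [zero_mul] at d3
      refine d3.congr_of_eventuallyEq (Eventually.of_forall fun t => ?_)
      simp [ds])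
  rw [slope_def_field, sub_zero, div_one, sub_nonneg] at c2
  exact le_antisymm (g0 ▸ up) (g0 ▸ le_of_sq_le_sq c2 (norm_nonneg _))

theorem geo (H : Hd m lg) (cv : ∀ z w, ConvexOn ℝ univ fun t => ds m lg t z t w)
    (ge : ∀ x : ℝ → V, (∀ s t, ‖lg (x s, x t)‖ = |s - t|) → ∃ u ∈ U, ∀ t, x t = (m.Z t u).1)
    (A : Asy m lg E) {u w : V × V} (hu : u ∈ U) (hw : w ∈ U) (st : Str m lg u) {L : ℝ}
    (hL : ∀ s, F E (m.Z s u) w = L) : |L| = 1 := by
  obtain ⟨z, hz, hx⟩ := ge (fun s => (m.Z 1 ((m.Z s u).1, E (m.Z s u).1 w)).1)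
    (flat H cv A hu hw hL)
  obtain ⟨ho, hj, -, hl⟩ := H
  have r : ∀ t, lg ((m.Z t u).1, (m.Z t z).1) = E (m.Z t u).1 w := fun t => by
    rw [← hx t]
    exact (lg_ray hj hl 1 ((m.Z t u).1, E (m.Z t u).1 w)).trans (one_smul ℝ _)
  obtain ⟨k, rfl⟩ := st z hz ⟨1, fun t => by rw [ds, r, A.unit _ w hw]⟩
  have r0 := r 0
  rw [← ho.add, lg_geo ho hj hl, zero_add, sub_zero] at r0
  have n0 : ‖(m.Z 0 u).2‖ = 1 := (hj.norm 0 u).trans hu
  have n1 := A.unit (m.Z 0 u).1 w hw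
  rw [← hL 0, F, ← r0, real_inner_smul_right, real_inner_self_eq_norm_sq, n0, one_pow, mul_one]
  rwa [← r0, norm_smul, n0, mul_one] at n1

end RNS

open RNS in
theorem rNS : R_NS := by
  intro cv ge aq m lg Λ _ _ O H ha E A u hu st ⟨t, g, ht, hg⟩ ⟨s, h, hs, hh⟩ a a1 ne
  have Q := aq m lg Λ O H ha E A
  have ho := H.ok
  have hj := H.jac
  have w0 : (u.1, a) ∈ U := a1
  have acU : ∀ (γ : Λ) {z : V × V}, z ∈ U → ac O γ z ∈ U := fun γ z hz =>
    ((O γ z.1).norm_map z.2).trans hz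
  have ZU : ∀ (r : ℝ) {z : V × V}, z ∈ U → m.Z r z ∈ U := fun r z hz => (hj.norm r z).trans hz
  have fl : ∀ (γ : Λ) r z, m.Z r (ac O γ z) = ac O γ (m.Z r z) := fun γ r z => ha.flow γ r z
  have gr : ∀ (γ : Λ) z, ∀ w ∈ U, F E (ac O γ z) (ac O γ w) = F E z w := fun γ z w hw => by
    rw [F, F, show (ac O γ z).1 = γ • z.1 from rfl, Q.gr γ z.1 w hw]
    exact (O γ z.1).inner_map_map _ _
  have iv : ∀ (γ : Λ) w, ac O γ (ac O γ⁻¹ w) = w := fun γ w => by
    simp only [ac, smul_inv_smul, ← ha.mul, mul_inv_cancel, ha.one]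
  have cz : ∀ r, Continuous (m.Z r) := fun r => (Z_c1 ho r).continuous
  refine ⟨fun n => (g n)⁻¹, conv (fun n => A.unit _ _ (acU _ w0)) hu fun θ h1 => ?_⟩
  by_contra hc
  rw [not_eventually] at hc
  have b1 : ∀ r, F E (m.Z r u) (u.1, a) ≤ θ := fun r => by
    refine isClosed_Iic.mem_of_frequently_of_tendsto ((hc.and_eventually
      (ht.eventually_ge_atTop (-r))).mono fun n hn => ?_)
      (lim A (((cz r).tendsto u).comp hg) tendsto_const_nhds (fun _ => w0) w0)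
    have h2 := Q.mono _ (acU (g n) (ZU (t n) hu)) _ w0 (show -t n ≤ r by linarith [hn.2])
    refine le_trans h2 (le_trans (le_of_eq ?_) (not_lt.1 hn.1))
    have h3 := gr (g n) u _ (acU (g n)⁻¹ w0)
    rw [iv] at h3
    refine Eq.trans ?_ h3
    simp only [fl, ← ho.add, neg_add_cancel, ho.zero, F]
  have bd : BddAbove (range fun r => F E (m.Z r u) (u.1, a)) :=
    ⟨θ, by rintro _ ⟨r, rfl⟩; exact b1 r⟩
  have tl := tendsto_atBot_ciSup (f := fun r => F E (m.Z r u) (u.1, a)) (Q.mono u hu _ w0) bd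
  have l0 := le_ciSup bd 0
  have l1 := ciSup_le b1
  generalize (⨆ r, F E (m.Z r u) (u.1, a)) = L at tl l0 l1
  have vU := fun n => A.unit (ac O (h n) (m.Z (s n) u)).1 _ (acU (h n) w0)
  obtain ⟨b, hb, ψ, hψ, hl⟩ := (isCompact_sphere (0 : V) 1).tendsto_subseq
    fun n => mem_sphere_zero_iff_norm.2 (vU n)
  have w1 : (u.1, b) ∈ U := mem_sphere_zero_iff_norm.1 hb
  have hv := hh.comp hψ.tendsto_atTop
  have hL : ∀ r, F E (m.Z r u) (u.1, b) = L := fun r => by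
    refine tendsto_nhds_unique (lim A (((cz r).tendsto u).comp hv) (hv.fst_nhds.prodMk_nhds hl)
      (fun n => vU (ψ n)) w1) ((tl.comp (tendsto_atBot_add_const_left _ r
        (hs.comp hψ.tendsto_atTop))).congr fun n => ?_)
    simp only [Function.comp]
    rw [← gr (h (ψ n)) _ _ w0, ho.add, ← fl, F, F, Q.sat _ _ _ (acU _ w0)]
  have k := geo H (cv m lg H) (ge m lg H).1 A hu w1 st hL
  have e0 : E u.1 (u.1, a) = a := Q.self _ w0
  simp only [ho.zero, F, e0] at l0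
  have p : 0 < ‖u.2 + a‖ ^ 2 :=
    pow_pos (norm_pos_iff.2 fun e => ne (eq_neg_of_add_eq_zero_right e)) 2
  rw [norm_add_sq_real, a1, show ‖u.2‖ = 1 from hu] at p
  rcases abs_cases L with e | e <;> linarith [e.1]

end

end Pool.Agent.MP_3ee8cb_gt.D3RK
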