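import Pool.Agent.MP_3ee8cb_gt.D3RK.RSpec
import Pool.Agent.MP_3ee8cb_gt.D3WI.Base

/-! Row AQ: compatibility of the asymptote map. -/

namespace Pool.Agent.MP_3ee8cb_gt.D3RK

open Set Filter Topology D3 D3WI
open D3.SI (ac)
open scoped RealInnerProductSpace

namespace RAQ

variable {m : MF} {lg : V × V → V}

theorem cvx (hm : m.OK) (hj : m.Jac) (hh : m.Had lg) (u : V × V) (x : V) (l l' : ℝ)
    (hu : ‖u.2‖ = 1) : ‖lg ((m.Z l u).1, x)‖ ^ 2 -
    2 * (l' - l) * ⟪lg ((m.Z l u).1, x), (m.Z l u).2⟫ + (l' - l) ^ 2 ≤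
      ‖lg ((m.Z l' u).1, x)‖ ^ 2 := by
  have h := hinge' hh (m.Z l u).1 (m.Z l' u).1 x
  rw [lg_geo hm hj hh] at h
  have h2 := pow_le_pow_left₀ (norm_nonneg _) h 2
  rw [norm_sub_sq_real, norm_smul, hj.norm, hu, mul_one, Real.norm_eq_abs, sq_abs,
    real_inner_smul_left, real_inner_comm] at h2
  linarith

theorem anti (hm : m.OK) (hj : m.Jac) (hh : m.Had lg) (u : V × V) (x : V) {l l' : ℝ}
    (hl : l ≤ l') (hu : ‖u.2‖ = 1) : ⟪(m.Z l' u).2, lg ((m.Z l' u).1, x)⟫ ≤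
      ⟪(m.Z l u).2, lg ((m.Z l u).1, x)⟫ := by
  rcases hl.eq_or_lt with rfl | hl
  · exact le_rfl
  have h1 := cvx hm hj hh u x l l' hu
  have h2 := cvx hm hj hh u x l' l hu
  rw [real_inner_comm] at h1 h2
  by_contra hc
  rw [not_le] at hc
  nlinarith [mul_pos (sub_pos.mpr hl) (sub_pos.mpr hc), sq_nonneg (l' - l)]

end RAQ

open RAQ in
theorem rAQ : R_AQ := by
  intro hL m lg Λ _ _ O hd ha E hE
  have hg : LgA O lg := hL m lg Λ O hd ha
  have ho := hd.ok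
  have hj := hd.jac
  have hh := hd.had
  refine ⟨fun w hw => ?_, fun x t w hw => ?_, fun x y w hw => ?_, fun γ x w hw => ?_,
    fun z hz w hw s s' hs => ?_⟩
  · refine (hE.uniq w.1 w.2 hw w hw ⟨0, fun t _ => ?_⟩).symm
    simp [ds, lg_self ho hj hh]
  · have hw' : m.Z t w ∈ U := (hj.norm t w).trans hw
    refine (hE.uniq x _ (hE.unit x w hw) _ hw' ⟨‖lg (x, w.1)‖ + |t|, fun s hs => ?_⟩).symm
    have h1 := hE.bdd x w hw s hs
    have h2 := dist_geo ho hj hh w s (s + t)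
    have h3 : ‖w.2‖ = 1 := hw
    rw [add_sub_cancel_left, h3, mul_one, ho.add] at h2
    have h4 := hh.tri (m.Z s (x, E x w)).1 (m.Z s w).1 (m.Z s (m.Z t w)).1
    unfold ds at h1 ⊢
    linarith
  · have hw' : (y, E y w) ∈ U := hE.unit y w hw
    refine hE.uniq x _ (hE.unit x _ hw') w hw ⟨‖lg (x, y)‖ + ‖lg (y, w.1)‖, fun s hs => ?_⟩
    have h1 := hE.bdd x _ hw' s hs
    have h2 := hE.bdd y w hw s hs
    have h4 := hh.tri (m.Z s (x, E x (y, E y w))).1 (m.Z s (y, E y w)).1 (m.Z s w).1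
    unfold ds at h1 h2 ⊢
    linarith
  · have hw' : ac O γ w ∈ U := by
      change ‖O γ w.1 w.2‖ = 1
      rw [LinearIsometryEquiv.norm_map]
      exact hw
    have hn : ‖O γ x (E x w)‖ = 1 := by rw [LinearIsometryEquiv.norm_map, hE.unit x w hw]
    refine (hE.uniq _ _ hn _ hw' ⟨‖lg (x, w.1)‖, fun s hs => ?_⟩).symm
    have h1 := hE.bdd x w hw s hs
    have h2 := ha.flow γ s (x, E x w)
    have h3 := ha.flow γ s w
    unfold ds at h1 ⊢
    change ‖lg ((m.Z s (γ • x, O γ x (E x w))).1, (m.Z s (γ • w.1, O γ w.1 w.2)).1)‖ ≤ _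
    rw [h2, h3, hg, LinearIsometryEquiv.norm_map]
    exact h1
  · have l1 := (tendsto_const_nhds (x := (m.Z s z).2)).inner (𝕜 := ℝ) (hE.lim (m.Z s z).1 w hw)
    have l2 := (tendsto_const_nhds (x := (m.Z s' z).2)).inner (𝕜 := ℝ) (hE.lim (m.Z s' z).1 w hw)
    refine le_of_tendsto_of_tendsto l2 l1 ?_
    filter_upwards [eventually_ge_atTop (0 : ℝ)] with T hT
    rw [real_inner_smul_right, real_inner_smul_right]
    exact mul_le_mul_of_nonneg_left (anti ho hj hh z _ hs hz) (inv_nonneg.mpr hT)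

end Pool.Agent.MP_3ee8cb_gt.D3RK
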