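import Pool.Agent.MP_3ee8cb_gt.D3RK.RSpec
import Pool.Agent.MP_3ee8cb_gt.D3WI.Base

/-! The direction to the end point of a geodesic. -/

namespace Pool.Agent.MP_3ee8cb_gt.D3RK

open Set Filter Topology D3 D3WI

namespace RASY

variable {m : MF} {lg : V × V → V}

/-- The direction to the point at time `T`. -/
noncomputable def ap (m : MF) (lg : V × V → V) (x : V) (w : V × V) (T : ℝ) : V :=
  T⁻¹ • lg (x, (m.Z T w).1)

theorem sm (x : V) (w : V × V) {T : ℝ} (hT : 0 < T) :
    T • ap m lg x w T = lg (x, (m.Z T w).1) := smul_inv_smul₀ hT.ne' _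

theorem small {x C : ℝ} (h : ∀ T, 0 < T → x ≤ C / T) : x ≤ 0 :=
  ge_of_tendsto (tendsto_const_nhds.div_atTop tendsto_id : Tendsto (fun T : ℝ => C / T) atTop _)
    ((eventually_gt_atTop 0).mono h)

theorem k1 (cv : SCV) (H : Hd m lg) (x : V) (w : V × V) {t T : ℝ} (hT : 0 < T) (h0 : 0 ≤ t)
    (h1 : t ≤ T) : ds m lg t (x, ap m lg x w T) t w ≤ ‖lg (x, w.1)‖ := by
  have h := (cv m lg H (x, ap m lg x w T) w).le_on_segment (mem_univ 0) (mem_univ T)
    (z := t) (by rw [segment_eq_Icc hT.le]; exact ⟨h0, h1⟩)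
  have e : (m.Z T (x, ap m lg x w T)).1 = (m.Z T w).1 := by
    have := congrArg Prod.fst (one_smul' H.jac T (x, ap m lg x w T))
    simp only [sm x w hT, H.had.ex] at this
    exact this.symm
  refine h.trans (max_le ?_ ?_)
  · simp only [ds, H.ok.zero, le_refl]
  · simp only [ds, e, lg_self H.ok H.jac H.had, norm_zero, norm_nonneg]

theorem k2 (H : Hd m lg) (x a : V) (w : V × V) {T D : ℝ} (hT : 0 < T)
    (h : ds m lg T (x, a) T w ≤ D) : ‖a - ap m lg x w T‖ ≤ D / T := by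
  have h1 := hinge' H.had x (m.Z T (x, a)).1 (m.Z T w).1
  rw [lg_ray H.jac H.had T (x, a), ← sm (m := m) (lg := lg) x w hT, ← smul_sub, norm_smul,
    Real.norm_of_nonneg hT.le] at h1
  rw [le_div_iff₀' hT]
  exact h1.trans h

theorem lim (cv : SCV) (H : Hd m lg) (x : V) (w : V × V) :
    Tendsto (ap m lg x w) atTop (𝓝 (limUnder atTop (ap m lg x w))) := by
  refine CauchySeq.tendsto_limUnder (Metric.cauchySeq_iff'.2 fun ε hε => ?_)
  have p : 0 < ‖lg (x, w.1)‖ / ε + 1 := by positivity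
  refine ⟨‖lg (x, w.1)‖ / ε + 1, fun T hT => ?_⟩
  rw [dist_eq_norm]
  refine (k2 H x _ w p (k1 cv H x w (p.trans_le hT) p.le hT)).trans_lt ?_
  rw [div_lt_iff₀' p, add_mul, div_mul_cancel₀ _ hε.ne']
  linarith

theorem k3 (cv : SCV) (H : Hd m lg) (x : V) (w : V × V) {T : ℝ} (hT : 0 < T) :
    ‖limUnder atTop (ap m lg x w) - ap m lg x w T‖ ≤ ‖lg (x, w.1)‖ / T :=
  le_of_tendsto ((lim cv H x w).sub_const _).norm ((eventually_ge_atTop T).mono fun _ h =>
    k2 H x _ w hT (k1 cv H x w (hT.trans_le h) hT.le h))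

end RASY

open RASY in
theorem rASY : R_ASY := by
  intro cv m lg H
  have cl := H.had.c1.continuous
  have cZ := fun t => (Z_c1 H.ok t).continuous
  refine ⟨fun x w => limUnder atTop (ap m lg x w), fun x w hw => ?_, ?_, fun x w _ t ht => ?_,
    fun x a _ w _ ⟨D, hD⟩ => ?_, fun x w _ => lim cv H x w⟩
  · refine sub_eq_zero.1 (abs_nonpos_iff.1 (small (C := 2 * ‖lg (x, w.1)‖) fun T hT => ?_))
    have h1 := k3 cv H x w hT
    have h2 := abs_norm_sub_norm_le (limUnder atTop (ap m lg x w)) (ap m lg x w T)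
    have h3 : ‖lg (w.1, (m.Z T w).1)‖ = T := by
      rw [lg_ray H.jac H.had, norm_smul, Real.norm_of_nonneg hT.le, hw, mul_one]
    have h4 := H.had.tri x w.1 (m.Z T w).1
    have h5 := H.had.tri w.1 x (m.Z T w).1
    rw [lg_symm H.jac H.had x w.1] at h5
    rw [h3, ← sm (m := m) (lg := lg) x w hT, norm_smul, Real.norm_of_nonneg hT.le] at h4 h5
    have h6 : |‖ap m lg x w T‖ - 1| ≤ ‖lg (x, w.1)‖ / T := by
      rw [le_div_iff₀' hT, ← abs_of_pos hT, ← abs_mul, abs_of_pos hT, abs_le]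
      constructor <;> linarith
    have h7 := abs_sub_le ‖limUnder atTop (ap m lg x w)‖ ‖ap m lg x w T‖ 1
    rw [mul_div_assoc]
    linarith
  · refine Continuous.continuousOn
      (continuous_of_locally_uniform_approx_of_continuousAt fun p u hu => ?_)
    obtain ⟨ε, hε, hu⟩ := Metric.mem_uniformity_dist.1 hu
    have c : Continuous fun q : V × V × V => ‖lg (q.1, q.2.1)‖ := by fun_prop
    have pT : 0 < (‖lg (p.1, p.2.1)‖ + 1) / ε := by positivity
    refine ⟨{q | ‖lg (q.1, q.2.1)‖ < ‖lg (p.1, p.2.1)‖ + 1},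
      (isOpen_lt c continuous_const).mem_nhds (lt_add_one ‖lg (p.1, p.2.1)‖),
      fun q => ap m lg q.1 q.2 ((‖lg (p.1, p.2.1)‖ + 1) / ε), ?_, fun q hq => hu ?_⟩
    · have := cZ ((‖lg (p.1, p.2.1)‖ + 1) / ε)
      unfold ap
      fun_prop
    · rw [dist_eq_norm]
      refine (k3 cv H q.1 q.2 pT).trans_lt ?_
      rw [div_lt_iff₀' pT, div_mul_cancel₀ _ hε.ne']
      exact hq
  · have c : Continuous fun b : V => ds m lg t (x, b) t w := by
      have := cZ t
      unfold ds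
      fun_prop
    exact le_of_tendsto ((c.tendsto _).comp (lim cv H x w))
      ((eventually_gt_atTop t).mono fun T h => k1 cv H x w (ht.trans_lt h) ht h.le)
  · refine sub_eq_zero.1 (norm_le_zero_iff.1 (small (C := D + ‖lg (x, w.1)‖) fun T hT => ?_))
    have h1 := k3 cv H x w hT
    have h2 := k2 H x a w hT (hD T hT.le)
    have h3 := norm_sub_le_norm_sub_add_norm_sub a (ap m lg x w T) (limUnder atTop (ap m lg x w))
    rw [norm_sub_rev] at h1
    rw [add_div]
    linarith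

end Pool.Agent.MP_3ee8cb_gt.D3RK
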