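import Pool.Agent.MP_3ee8cb_gt.D3RK.RSpec

/-! Vectors that are recurrent in both directions are dense. -/

namespace Pool.Agent.MP_3ee8cb_gt.D3RK

open Set Filter Topology D3
open D3.SI (ac)

namespace RBAI

variable {m : MF} {Λ : Type} [Group Λ] [MulAction Λ V] {O : Λ → V → V ≃ₗᵢ[ℝ] V}

/-- Vectors that return to distance `1 / (k + 1)` at a time beyond `k` in the direction `s`. -/
def ret (m : MF) (O : Λ → V → V ≃ₗᵢ[ℝ] V) (s : ℝ) (k : ℕ) : Set U :=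
  {z | ∃ (t : ℝ) (γ : Λ), (k : ℝ) < s * t ∧ dist (ac O γ (m.Z t z.1)) z.1 < 1 / ((k : ℝ) + 1)}

theorem ret_open (h : m.OK) (A : Act m Λ O) (s : ℝ) (k : ℕ) : IsOpen (ret m O s k) := by
  have e : ret m O s k = ⋃ t : ℝ, ⋃ γ : Λ, ⋃ _ : (k : ℝ) < s * t,
      {z : U | dist (ac O γ (m.Z t z.1)) z.1 < 1 / ((k : ℝ) + 1)} := by
    ext z
    simp only [ret, mem_ofPred_eq, mem_iUnion, exists_prop]
  rw [e]
  refine isOpen_iUnion fun t => isOpen_iUnion fun γ => isOpen_iUnion fun _ => ?_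
  have c1 : Continuous fun z : U => m.Z t z.1 :=
    h.cZ.continuous.comp (continuous_const.prodMk continuous_subtype_val)
  have c2 : Continuous fun z : U => ac O γ (m.Z t z.1) := (A.c1 γ).continuous.comp c1
  exact isOpen_lt (c2.dist continuous_subtype_val) continuous_const

theorem back (h : m.OK) (A : Act m Λ O) (γ : Λ) (t : ℝ) (w : V × V) :
    ac O γ⁻¹ (m.Z (-t) (ac O γ (m.Z t w))) = w := by
  have e : m.Z (-t) (ac O γ (m.Z t w)) = ac O γ w := by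
    have := A.flow γ (-t) (m.Z t w)
    rw [← h.add, neg_add_cancel, h.zero] at this
    exact this
  rw [e]
  refine Prod.ext (inv_smul_smul γ w.1) ?_
  show O γ⁻¹ (γ • w.1) (O γ w.1 w.2) = w.2
  rw [← A.mul, inv_mul_cancel, A.one]

theorem ret_dense (h : m.OK) (j : m.Jac) (A : Act m Λ O) (N : NW m O) (k : ℕ) :
    Dense (ret m O 1 k) ∧ Dense (ret m O (-1) k) := by
  have key : ∀ (z : U) (ε : ℝ), 0 < ε → (∃ w ∈ ret m O 1 k, dist z w < ε) ∧
      ∃ w ∈ ret m O (-1) k, dist z w < ε := by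
    intro z ε hε
    have hk : (0 : ℝ) < 1 / ((k : ℝ) + 1) := Nat.one_div_pos_of_nat
    have hδ : 0 < min ε (1 / ((k : ℝ) + 1) / 2) := lt_min hε (half_pos hk)
    obtain ⟨w, ⟨hw, hu⟩, t, γ, ht, hw'⟩ := N z.1 z.2 _ (Metric.ball_mem_nhds z.1 hδ) k
    have hu' : ac O γ (m.Z t w) ∈ U :=
      ((O γ (m.Z t w).1).norm_map (m.Z t w).2).trans ((j.norm t w).trans hu)
    rw [Metric.mem_ball, lt_min_iff] at hw hw'
    have hd : dist (ac O γ (m.Z t w)) w < 1 / ((k : ℝ) + 1) := by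
      have := dist_triangle_right (ac O γ (m.Z t w)) w z.1
      linarith [hw.2, hw'.2]
    refine ⟨⟨⟨w, hu⟩, ⟨t, γ, by rwa [one_mul], hd⟩, ?_⟩, ⟨_, hu'⟩, ⟨-t, γ⁻¹, ?_, ?_⟩, ?_⟩
    · rw [dist_comm]
      exact hw.1
    · rwa [neg_mul_neg, one_mul]
    · show dist (ac O γ⁻¹ (m.Z (-t) (ac O γ (m.Z t w)))) (ac O γ (m.Z t w)) < _
      rwa [back h A, dist_comm]
    · rw [dist_comm]
      exact hw'.1
  exact ⟨Metric.dense_iff.2 fun z ε hε => let ⟨w, a, b⟩ := (key z ε hε).1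
      ⟨w, Metric.mem_ball'.2 b, a⟩,
    Metric.dense_iff.2 fun z ε hε => let ⟨w, a, b⟩ := (key z ε hε).2
      ⟨w, Metric.mem_ball'.2 b, a⟩⟩

theorem seq {s : ℝ} {z : U} (hz : z ∈ ⋂ k, ret m O s k) : ∃ (t : ℕ → ℝ) (γ : ℕ → Λ),
    Tendsto (fun n => s * t n) atTop atTop ∧
      Tendsto (fun n => ac O (γ n) (m.Z (t n) z.1)) atTop (𝓝 z.1) := by
  choose t γ h1 h2 using mem_iInter.1 hz
  refine ⟨t, γ, tendsto_atTop_mono (fun n => (h1 n).le) tendsto_natCast_atTop_atTop, ?_⟩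
  exact tendsto_iff_dist_tendsto_zero.2 (squeeze_zero (fun _ => dist_nonneg) (fun n => (h2 n).le)
    tendsto_one_div_add_atTop_nhds_zero_nat)

end RBAI

open RBAI in
theorem rBAI : SBAI := by
  intro m lg Λ _ _ O H A N z hz
  have cU : IsClosed U := isClosed_eq (continuous_snd.norm) continuous_const
  have : CompleteSpace U := cU.completeSpace_coe
  have d1 : Dense (⋂ k, ret m O 1 k ∩ ret m O (-1) k) :=
    dense_iInter_of_isOpen (fun k => (ret_open H.ok A 1 k).inter (ret_open H.ok A (-1) k))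
      fun k => (ret_dense H.ok H.jac A N k).1.inter_of_isOpen_left
        (ret_dense H.ok H.jac A N k).2 (ret_open H.ok A 1 k)
  refine Metric.mem_closure_iff.2 fun ε hε => ?_
  obtain ⟨w, hw, hd⟩ := Metric.mem_closure_iff.1 (d1 ⟨z, hz⟩) ε hε
  rw [iInter_inter_distrib] at hw
  obtain ⟨t, γ, h1, h2⟩ := seq hw.1
  obtain ⟨t', γ', h1', h2'⟩ := seq hw.2
  refine ⟨w.1, ⟨w.2, ⟨t, γ, ?_, h2⟩, t', γ', ?_, h2'⟩, hd⟩
  · simpa only [one_mul] using h1
  · simpa only [neg_mul, one_mul, tendsto_neg_atTop_iff] using h1'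

end Pool.Agent.MP_3ee8cb_gt.D3RK
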