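import Pool.Agent.MP_3ee8cb_gt.D3RK.RSpec
import Pool.Agent.MP_3ee8cb_gt.D3OD.DiaG

/-! Consequences of transitivity and transport by the conjugacy. -/

namespace Pool.Agent.MP_3ee8cb_gt.D3RK

open Set Filter Topology D3
open D3.SI (ac)

namespace RCN

variable {m : MF} {Λ : Type} [Group Λ] [MulAction Λ V] {O : Λ → V → V ≃ₗᵢ[ℝ] V}

theorem fl_U (hj : m.Jac) (t : ℝ) {z : V × V} (hz : z ∈ U) : m.Z t z ∈ U :=
  (hj.norm t z).trans hz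

theorem gr_U (γ : Λ) {z : V × V} (hz : z ∈ U) : ac O γ z ∈ U :=
  ((O γ z.1).norm_map z.2).trans hz

theorem ne_U {z : V × V} (hz : z ∈ U) : z.2 ≠ 0 := fun e => by
  have : ‖z.2‖ = 1 := hz
  rw [e, norm_zero] at this
  exact zero_ne_one this

theorem ac_mul (hA : Act m Λ O) (γ δ : Λ) (z : V × V) : ac O γ (ac O δ z) = ac O (γ * δ) z :=
  Prod.ext (mul_smul γ δ z.1).symm (hA.mul γ δ z.1 z.2).symm

theorem ac_one (hA : Act m Λ O) (z : V × V) : ac O 1 z = z :=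
  Prod.ext (one_smul Λ z.1) (hA.one z.1 z.2)

theorem sat (h : m.OK) (hj : m.Jac) (hA : Act m Λ O) {B : Set (V × V)} (hB : IsOpen B) :
    Inv m O {w | w ∈ U ∧ ∃ t γ, ac O γ (m.Z t w) ∈ B} where
  unit := fun _ hw => hw.1
  op := fun w ⟨_, t, γ, hw⟩ => mem_nhdsWithin.2 ⟨(fun w => ac O γ (m.Z t w)) ⁻¹' B,
    hB.preimage ((hA.c1 γ).continuous.comp (Dia.dZ h t).continuous), hw,
    fun _ hu => ⟨hu.2, t, γ, hu.1⟩⟩
  fl := fun s w ⟨hU, t, γ, hw⟩ => ⟨fl_U hj s hU, t - s, γ, by rwa [← h.add, sub_add_cancel]⟩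
  gr := fun δ w ⟨hU, t, γ, hw⟩ => ⟨gr_U δ hU, t, γ * δ⁻¹, by
    rwa [show m.Z t (ac O δ w) = ac O δ (m.Z t w) from hA.flow δ t w, ac_mul hA,
      inv_mul_cancel_right]⟩

theorem lev (hj : m.Jac) {c : V × V → ℝ} (hc : ContinuousOn c U)
    (hi : ∀ z ∈ U, (∀ t, c (m.Z t z) = c z) ∧ ∀ γ, c (ac O γ z) = c z) {T : Set ℝ}
    (hT : IsOpen T) : Inv m O {w | w ∈ U ∧ c w ∈ T} where
  unit := fun _ hw => hw.1
  op := fun w hw => inter_mem self_mem_nhdsWithin (hc w hw.1 (hT.mem_nhds hw.2))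
  fl := fun s w hw => ⟨fl_U hj s hw.1, by rw [(hi w hw.1).1]; exact hw.2⟩
  gr := fun δ w hw => ⟨gr_U δ hw.1, by rw [(hi w hw.1).2]; exact hw.2⟩

variable {m' : MF} {φ : V × V → V × V}

theorem nz {z : V × V} (hz : z ∈ U) : {z : V × V | z.2 ≠ 0} ∈ 𝓝 z :=
  (isOpen_ne_fun continuous_snd continuous_const).mem_nhds (ne_U hz)

theorem opn (h : m.OK) (hc : CF m m' φ) {z : V × V} (hz : z ∈ U) : map φ (𝓝 z) = 𝓝 (φ z) := by
  obtain ⟨C, hC⟩ := hc.bdd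
  have inj : Function.Injective (fderiv ℝ φ z).toLinearMap := by
    rw [injective_iff_map_eq_zero]
    intro ξ e
    have k := (hC z ξ hz).2
    rw [show fderiv ℝ φ z ξ = 0 from e, map_zero, map_zero, norm_zero, add_zero, mul_zero] at k
    have a := norm_nonneg (m.hor z ξ)
    have b := norm_nonneg (m.ver z ξ)
    exact Dia.hv_inj h (norm_eq_zero.1 (by linarith)) (norm_eq_zero.1 (by linarith))
  exact ((hc.c1.contDiffAt (nz hz)).hasStrictFDerivAt one_ne_zero).map_nhds_eq_of_surj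
    (LinearMap.range_eq_top.2 (LinearMap.injective_iff_surjective.1 inj))

variable {Γ : Type} [Group Γ] [MulAction Γ V] {ρ : Γ ≃* Λ} {P : Γ → V → V ≃ₗᵢ[ℝ] V}

theorem img (h : m.OK) (hc : CF m m' φ) (he : Eqv ρ P O φ) {W : Set (V × V)} (hW : Inv m P W) :
    Inv m' O (φ '' W) where
  unit := by
    rintro _ ⟨z, hz, rfl⟩
    exact (hc.norm z (ne_U (hW.unit hz))).trans (hW.unit hz)
  op := by
    rintro _ ⟨z, hz, rfl⟩
    obtain ⟨B, hB, k⟩ := mem_nhdsWithin_iff_exists_mem_nhds_inter.1 (hW.op z hz)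
    refine mem_nhdsWithin_iff_exists_mem_nhds_inter.2 ⟨φ '' (B ∩ {z | z.2 ≠ 0}), ?_, ?_⟩
    · rw [← opn h hc (hW.unit hz)]
      exact image_mem_map (inter_mem hB (nz (hW.unit hz)))
    · rintro _ ⟨⟨b, hb, rfl⟩, hu⟩
      exact ⟨b, k ⟨hb.1, (hc.norm b hb.2).symm.trans hu⟩, rfl⟩
  fl := by
    rintro t _ ⟨z, hz, rfl⟩
    exact ⟨_, hW.fl t z hz, hc.flow t z (ne_U (hW.unit hz))⟩
  gr := by
    rintro l _ ⟨z, hz, rfl⟩
    refine ⟨_, hW.gr (ρ.symm l) z hz, (he (ρ.symm l) z (ne_U (hW.unit hz))).trans ?_⟩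
    rw [ρ.apply_symm_apply]
    rfl

end RCN

open RCN

theorem rCN : SCN := by
  intro m Λ _ _ O h hj hA hT
  refine ⟨fun W hW hn z hz => mem_closure_iff.2 fun B hB hzB => ?_, fun c hc hi z hz w hw => ?_⟩
  · obtain ⟨w, h1, -, t, γ, h2⟩ := hT W _ hW (sat h hj hA hB) hn
      ⟨z, hz, 0, 1, by rwa [h.zero, ac_one hA]⟩
    have h3 := hW.gr γ _ (hW.fl t w h1)
    exact ⟨_, h2, hW.unit h3, h3⟩
  · by_contra hne
    obtain ⟨S, T, hS, hT', h1, h2, hd⟩ := t2_separation hne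
    obtain ⟨u, a, b⟩ := hT _ _ (lev hj hc hi hS) (lev hj hc hi hT') ⟨z, hz, h1⟩ ⟨w, hw, h2⟩
    exact Set.disjoint_left.1 hd a.2 b.2

theorem rOPN : SOPN := by
  intro m m' φ Γ Λ _ _ _ _ ρ O O' h hj _ hc he
  refine ⟨fun hT W W' hW hW' n n' => ?_, fun W hW ⟨w, hw⟩ => ⟨⟨fun _ hz => hz.1, fun z hz => ?_,
    fun t z hz => ⟨fl_U hj t hz.1, ?_⟩, fun γ z hz => ⟨gr_U γ hz.1, ?_⟩⟩, ?_⟩⟩
  · obtain ⟨_, ⟨a, ha, rfl⟩, b, hb, e⟩ :=
      hT _ _ (img h hc he hW) (img h hc he hW') (n.image φ) (n'.image φ)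
    exact ⟨a, ha, hc.inj (ne_U (hW'.unit hb)) (ne_U (hW.unit ha)) e ▸ hb⟩
  · have k : Tendsto φ (𝓝[U] z) (𝓝[U] (φ z)) := tendsto_nhdsWithin_iff.2
      ⟨(hc.c1.continuousOn.continuousAt (nz hz.1)).mono_left nhdsWithin_le_nhds,
        mem_of_superset self_mem_nhdsWithin fun u hu => (hc.norm u (ne_U hu)).trans hu⟩
    exact inter_mem self_mem_nhdsWithin (k (hW.op _ hz.2))
  · rw [hc.flow t z (ne_U hz.1)]
    exact hW.fl t _ hz.2
  · rw [show φ (ac O γ z) = ac O' (ρ γ) (φ z) from he γ z (ne_U hz.1)]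
    exact hW.gr _ _ hz.2
  · obtain ⟨z, hz, rfl⟩ := hc.surj w (ne_U (hW.unit hw))
    exact ⟨z, (hc.norm z hz).symm.trans (hW.unit hw), hw⟩

end Pool.Agent.MP_3ee8cb_gt.D3RK
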