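import Pool.Agent.MP_3ee8cb_gt.D3RK.RSpec
import Pool.Agent.MP_3ee8cb_gt.D3WI.Base

/-! Rows CV and LGA: convexity of the distance, equivariance of the logarithm. -/

namespace Pool.Agent.MP_3ee8cb_gt.D3RK

open Set D3 D3WI
open scoped RealInnerProductSpace

namespace RCV

variable {m : MF} {lg : V × V → V}

theorem cn (h : Hd m lg) (z : V × V) (p : V) (s t : ℝ) {q : ℝ} (q0 : 0 ≤ q) (q1 : q ≤ 1) :
    ‖lg ((m.Z (s + q * (t - s)) z).1, p)‖ ^ 2 ≤ (1 - q) * ‖lg (p, (m.Z s z).1)‖ ^ 2 +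
      q * ‖lg (p, (m.Z t z).1)‖ ^ 2 - q * (1 - q) * ((t - s) ^ 2 * ‖z.2‖ ^ 2) := by
  have h1 := hinge' h.had (m.Z (s + q * (t - s)) z).1 p (m.Z s z).1
  have h2 := hinge' h.had (m.Z (s + q * (t - s)) z).1 p (m.Z t z).1
  rw [lg_geo h.ok h.jac h.had] at h1 h2
  have h3 := pow_le_pow_left₀ (norm_nonneg _) h1 2
  have h4 := pow_le_pow_left₀ (norm_nonneg _) h2 2
  rw [norm_sub_sq_real, norm_smul, h.jac.norm, mul_pow, Real.norm_eq_abs, sq_abs,
    real_inner_smul_right] at h3 h4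
  have h5 := mul_le_mul_of_nonneg_left h3 (sub_nonneg.2 q1)
  have h6 := mul_le_mul_of_nonneg_left h4 q0
  linarith

theorem bus (h : Hd m lg) (z w : V × V) (s t s' t' : ℝ) (e : (m.Z s z).1 = (m.Z s' w).1) {q : ℝ}
    (q0 : 0 ≤ q) (q1 : q ≤ 1) :
    ‖lg ((m.Z (s + q * (t - s)) z).1, (m.Z (s' + q * (t' - s')) w).1)‖ ≤
      q * ‖lg ((m.Z t z).1, (m.Z t' w).1)‖ := by
  have h1 := cn h z (m.Z (s' + q * (t' - s')) w).1 s t q0 q1
  have h2 := cn h w (m.Z t z).1 s' t' q0 q1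
  rw [e, dist_geo h.ok h.jac h.had, mul_pow, sq_abs] at h1
  rw [← e, dist_geo h.ok h.jac h.had, mul_pow, sq_abs] at h2
  have h3 := mul_le_mul_of_nonneg_left h2 q0
  refine le_of_sq_le_sq ?_ (mul_nonneg q0 (norm_nonneg _))
  linarith

end RCV

open RCV in
theorem rCV : SCV := by
  intro m lg h z w
  refine ⟨convex_univ, fun x _ y _ a b a0 b0 ab => ?_⟩
  have e0 : (m.Z 0 ((m.Z x z).1, lg ((m.Z x z).1, (m.Z y w).1))).1 = (m.Z x z).1 := by
    rw [h.ok.zero]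
  have e1 := h.had.ex (m.Z x z).1 (m.Z y w).1
  have h1 := bus h z _ x y 0 1 e0.symm b0 (by linarith)
  have h2 := bus h _ w 1 0 y x e1 a0 (by linarith)
  obtain rfl : a = 1 - b := by linarith
  rw [e1, show x + b * (y - x) = (1 - b) * x + b * y by ring,
    show 0 + b * (1 - 0) = b by ring] at h1
  rw [e0, show y + (1 - b) * (x - y) = (1 - b) * x + b * y by ring,
    show 1 + (1 - b) * (0 - 1) = b by ring] at h2
  have h3 := h.had.tri (m.Z ((1 - b) * x + b * y) z).1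
    (m.Z b ((m.Z x z).1, lg ((m.Z x z).1, (m.Z y w).1))).1 (m.Z ((1 - b) * x + b * y) w).1
  simp only [ds, smul_eq_mul]
  linarith

theorem rLGA : SLGA := by
  intro m lg Λ _ _ O h ac γ x y
  have h1 := ac.flow γ 1 (x, lg (x, y))
  have h2 := h.had.xe (γ • x) (O γ x (lg (x, y)))
  simp only at h1
  rw [h1, h.had.ex] at h2
  exact h2

end Pool.Agent.MP_3ee8cb_gt.D3RK
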