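import Pool.Agent.MP_3ee8cb_gt.D3RK.OSpec

/-! Lower bounds for the speeds of the focal times. -/

namespace Pool.Agent.MP_3ee8cb_gt.D3RK

open Matrix Set Filter Topology D3OD
open D3NP (lf)

namespace RDI

theorem slope {X : ℝ → M} {X' : M} (h : ∀ i l, HasDerivAt (fun r => X r i l) (X' i l) 0) :
    ∃ Z : ℝ → M, ContinuousAt Z 0 ∧ Z 0 = X' ∧ ∀ r, X r = X 0 + r • Z r := by
  refine ⟨fun r => of fun i l => dslope (fun r => X r i l) 0 r, continuousAt_pi.2 fun i =>
    continuousAt_pi.2 fun l => continuousAt_dslope_same.2 (h i l).differentiableAt, ?_, fun r => ?_⟩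
  · ext i l
    exact (dslope_same _ _).trans (h i l).deriv
  · ext i l
    have := sub_smul_dslope (fun r => X r i l) 0 r
    simp only [sub_zero, smul_eq_mul] at this
    exact (sub_eq_iff_eq_add'.1 this.symm)

theorem path {f : ℝ × ℝ → ℝ} {x y s t : ℝ} (c : ℝ) (h : HasFDerivAt f (lf x y) (s, t)) :
    HasDerivAt (fun r => f (s + r, t + c * r)) (x + c * y) 0 := by
  have p : HasDerivAt (fun r : ℝ => (s + r, t + c * r)) (1, c * 1) 0 :=
    ((hasDerivAt_id' 0).const_add s).prodMk (((hasDerivAt_id' 0).const_mul c).const_add t)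
  refine (h.comp_hasDerivAt_of_eq 0 p (by simp)).congr_deriv ?_
  simp [lf, mul_comm]

variable {T : ℝ} {kN : ℝ → M} {A A' D E : ℝ → ℝ → M}

theorem key (pa : Pa kN A A' D E) (s t c : ℝ) : ∃ h : ℝ × V → ℝ, (∀ e, ContinuousAt h (0, e)) ∧
    (∀ r e, qf (A (s + r) (t + c * r)) (A' (s + r) (t + c * r)) e =
      qf (A s t) (A' s t) e + r * h (r, e)) ∧
    ∀ e, A s t *ᵥ e = 0 → h (0, e) = c * nq (A' s t *ᵥ e) - nq e := by
  obtain ⟨Z, z1, z2, z3⟩ := slope (X := fun r => A (s + r) (t + c * r))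
    (X' := -D s t + c • A' s t) fun i l => path c (pa.dA s t i l)
  obtain ⟨W, w1, -, w3⟩ := slope (X := fun r => A' (s + r) (t + c * r))
    (X' := -E s t + c • (kN t * A s t)) fun i l => path c (pa.dA' s t i l)
  simp only [add_zero, mul_zero] at z3 w3
  have cF : Continuous fun q : ℝ × M × M × V => (q.2.1 *ᵥ q.2.2.2) ⬝ᵥ
      ((A' s t + q.1 • q.2.2.1) *ᵥ q.2.2.2) + (A s t *ᵥ q.2.2.2) ⬝ᵥ (q.2.2.1 *ᵥ q.2.2.2) := by
    fun_prop
  refine ⟨fun p => (Z p.1 *ᵥ p.2) ⬝ᵥ ((A' s t + p.1 • W p.1) *ᵥ p.2) +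
    (A s t *ᵥ p.2) ⬝ᵥ (W p.1 *ᵥ p.2), fun e => ?_, fun r e => ?_, fun e he => ?_⟩
  · exact cF.continuousAt.comp (f := fun p : ℝ × V => (p.1, Z p.1, W p.1, p.2))
      (continuousAt_fst.prodMk ((z1.comp_of_eq continuousAt_fst rfl).prodMk
        ((w1.comp_of_eq continuousAt_fst rfl).prodMk continuousAt_snd)))
  · rw [z3, w3]
    simp only [qf, add_mulVec, smul_mulVec, add_dotProduct, dotProduct_add, smul_dotProduct,
      dotProduct_smul, smul_eq_mul]
    ring
  · have := pa.symp s t e 0 0 e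
    simp only [om, mulVec_zero, add_zero, zero_add, he, dotProduct_zero, sub_zero] at this
    simp only [z2, he, zero_smul, add_zero, zero_dotProduct, add_mulVec, neg_mulVec, smul_mulVec,
      add_dotProduct, neg_dotProduct, smul_dotProduct, smul_eq_mul, nq, this]
    ring

theorem ker (pa : Pa kN A A' D E) {s t : ℝ} (hd : (A' s t).det ≠ 0)
    (h : ∀ e, qf (A s t) (A' s t) e ≤ 0) {e : V} (he : qf (A s t) (A' s t) e = 0) :
    A s t *ᵥ e = 0 := by
  obtain ⟨f, hf⟩ : ∃ f, A' s t *ᵥ f = A s t *ᵥ e := ⟨(A' s t)⁻¹ *ᵥ (A s t *ᵥ e), by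
    rw [mulVec_mulVec, mul_nonsing_inv _ (Ne.isUnit hd), one_mulVec]⟩
  have sy := pa.symp s t 0 e 0 f
  simp only [om, mulVec_zero, zero_add, dotProduct_zero, zero_dotProduct, sub_zero, hf] at sy
  by_contra hne
  have p : (A s t *ᵥ e) ⬝ᵥ (A s t *ᵥ e) ≠ 0 := fun z => hne (dotProduct_self_eq_zero.1 z)
  obtain ⟨x, hx⟩ : ∃ x, 2 * x * ((A s t *ᵥ e) ⬝ᵥ (A s t *ᵥ e)) = 1 - qf (A s t) (A' s t) f :=
    ⟨(1 - qf (A s t) (A' s t) f) / (2 * ((A s t *ᵥ e) ⬝ᵥ (A s t *ᵥ e))), by field_simp⟩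
  have := h (x • e + f)
  unfold qf at this he hx
  rw [dotProduct_comm (A' s t *ᵥ e), sub_eq_zero] at sy
  simp only [mulVec_add, mulVec_smul, add_dotProduct, dotProduct_add, smul_dotProduct,
    dotProduct_smul, smul_eq_mul, he, hf, ← sy] at this hx
  linarith

end RDI

open RDI

theorem rDI1 : S_DI1 := by
  intro T kN A A' D E a b co ft s c hc
  obtain ⟨h, h1, h2, h3⟩ := key co.pa s (a s) c
  have q0 : ∀ e, qf (A s (a s)) (A' s (a s)) e ≤ 0 := fun e => by
    by_cases he : e = 0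
    · simp [he, qf]
    have ct : Continuous fun t => qf (A s t) (A' s t) e :=
      (continuous_iff_continuousAt.2 fun t => ((co.sol s e).d1 t).continuousAt).dotProduct
        (continuous_iff_continuousAt.2 fun t => ((co.sol s e).d2 t).continuousAt)
    exact le_of_tendsto ((ct.tendsto (a s)).mono_left (nhdsWithin_le_nhds (s := Iio (a s))))
      (eventually_nhdsWithin_of_forall fun t ht => (ft.neg s t e ht he).le)
  have cq : Continuous (qf (A s (a s)) (A' s (a s))) := by
    unfold qf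
    fun_prop
  have ev := (isCompact_sphere (0 : V) 1).eventually_forall_of_forall_eventually (x₀ := (0 : ℝ))
    (P := fun r e => 0 < r → qf (A s (a s)) (A' s (a s)) e + r * h (r, e) < 0) fun e he => by
      rcases (q0 e).eq_or_lt with z | z
      · have k := ker co.pa (co.det s (a s)) q0 z
        have n : h (0, e) < 0 := by
          rw [h3 e k, sub_neg]
          exact hc e (by rintro rfl; simp at he) k
        filter_upwards [(h1 e).eventually_lt_const n] with p hp hr
        linarith [q0 p.2, mul_neg_of_pos_of_neg hr hp]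
      · have := ((cq.continuousAt.comp continuousAt_snd).add
          (continuousAt_fst.mul (h1 e))).eventually_lt_const (u := 0) (by simpa using z)
        exact this.mono fun p hp _ => hp
  filter_upwards [nhdsWithin_le_nhds ev, self_mem_nhdsWithin] with r hr r0
  by_contra hl
  obtain ⟨e, he⟩ := ft.neg' (s + r) _ (not_le.1 hl)
  have e0 : e ≠ 0 := by
    rintro rfl
    simp [qf] at he
  have p := norm_pos_iff.2 e0
  have := hr (‖e‖⁻¹ • e) (by simp [norm_smul, p.ne']) r0
  rw [← h2] at this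
  unfold qf at this he
  simp only [mulVec_smul, smul_dotProduct, dotProduct_smul, smul_eq_mul] at this
  exact absurd this (not_lt.2 (by positivity))

theorem rDI2 : S_DI2 := by
  intro T kN A A' D E a b co ft s c e he hc
  obtain ⟨h, h1, h2, h3⟩ := key co.pa s (b s) c
  have e0 : e ≠ 0 := by
    rintro rfl
    simp [nq] at hc
  have n : h (0, e) < 0 := by rwa [h3 e he, sub_neg]
  have ev := ((h1 e).comp_of_eq (f := fun r : ℝ => (r, e)) (x := 0) (by fun_prop)
    rfl).eventually_lt_const n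
  filter_upwards [nhdsWithin_le_nhds ev, self_mem_nhdsWithin] with r hr r0
  by_contra hl
  have := ft.pos (s + r) _ e (not_le.1 hl) e0
  rw [h2, qf, he, zero_dotProduct, zero_add] at this
  exact absurd this (not_lt.2 (mul_neg_of_pos_of_neg r0 hr).le)

end Pool.Agent.MP_3ee8cb_gt.D3RK
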