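import Pool.Agent.MP_3ee8cb_gt.D3RK.OSpec

/-! Integration of a lower bound for the lower right derivative. -/

namespace Pool.Agent.MP_3ee8cb_gt.D3RK

open Set Filter Topology

theorem rDIN0 : S_DIN0 := by
  intro f k hf hk hs a b hab
  have hd : ∀ s, HasDerivAt (fun s => -f a - ∫ u in a..s, k u) (-k s) s := fun s =>
    (hk.integral_hasStrictDerivAt a s).hasDerivAt.const_sub _
  refine le_of_sub_nonneg ?_
  suffices h : -f b ≤ -f a - ∫ u in a..b, k u by linarith
  refine image_le_of_liminf_slope_right_le_deriv_boundary (f := fun s => -f s) (a := a) (b := b)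
    hf.neg.continuousOn (B := fun s => -f a - ∫ u in a..s, k u) (B' := fun s => -k s) (by simp)
    (fun s _ => (hd s).continuousAt.continuousWithinAt)
    (fun s _ => (hd s).hasDerivWithinAt) (fun x _ r hr => ?_) (right_mem_Icc.2 hab)
  have t : Tendsto (fun z : ℝ => z - x) (𝓝[>] x) (𝓝[>] 0) := by
    refine tendsto_nhdsWithin_iff.2 ⟨?_, ?_⟩
    · have : Tendsto (fun z : ℝ => z - x) (𝓝 x) (𝓝 (x - x)) := tendsto_id.sub_const x
      rw [sub_self] at this
      exact this.mono_left nhdsWithin_le_nhds
    · filter_upwards [self_mem_nhdsWithin] with z hz using sub_pos.2 (mem_Ioi.1 hz)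
  refine Eventually.frequently ?_
  filter_upwards [t.eventually (hs x ((r + k x) / 2) (by linarith)), self_mem_nhdsWithin]
    with z hz hx
  have p : 0 < z - x := sub_pos.2 (mem_Ioi.1 hx)
  rw [add_sub_cancel] at hz
  rw [slope_def_field, div_lt_iff₀ p]
  nlinarith

end Pool.Agent.MP_3ee8cb_gt.D3RK
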