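import Pool.Agent.MP_3ee8cb_gt.D3RK.Spec
import Pool.Agent.MP_3ee8cb_gt.D3NP.Top2

/-! The focal times are invariant under the flow. -/

namespace Pool.Agent.MP_3ee8cb_gt.D3RK

open Set Filter Topology D3 MeasureTheory
open D3.SI (ac)
open D3NP (At At2 Dt Sc2 SINT2)
open D3NP.Top2 (mn mn_cont mn_spec fib)

namespace REQ

variable {m : MF}

theorem un (j : m.Jac) {z : V × V} (hz : z ∈ U) (s : ℝ) : m.Z s z ∈ U := (j.norm s z).trans hz

theorem cz (o : m.OK) (z : V × V) : Continuous fun s => m.Z s z :=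
  continuous_iff_continuousAt.2 fun s => (o.ode z s).continuousAt

theorem din (h : S_DIN0) (o : m.OK) (j : m.Jac) {F k : V × V → ℝ} (cF : ContinuousOn F U)
    (ck : ContinuousOn k U) (hd : ∀ z ∈ U, ∀ ε : ℝ, 0 < ε → ∀ᶠ r in 𝓝[>] (0 : ℝ),
      F z + (k z - ε) * r ≤ F (m.Z r z)) {z : V × V} (hz : z ∈ U) {a b : ℝ} (hab : a ≤ b) :
    ∫ s in a..b, k (m.Z s z) ≤ F (m.Z b z) - F (m.Z a z) := by
  refine h (fun s => F (m.Z s z)) (fun s => k (m.Z s z)) (cF.comp_continuous (cz o z) (un j hz))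
    (ck.comp_continuous (cz o z) (un j hz)) (fun s ε hε => ?_) a b hab
  filter_upwards [hd _ (un j hz s) ε hε] with r hr
  rwa [← o.add, add_comm r s] at hr

theorem mono (h : S_DIN0) (o : m.OK) (j : m.Jac) {F : V × V → ℝ} (cF : ContinuousOn F U)
    (hd : ∀ z ∈ U, ∀ ε : ℝ, 0 < ε → ∀ᶠ r in 𝓝[>] (0 : ℝ), F z + (0 - ε) * r ≤ F (m.Z r z))
    {z : V × V} (hz : z ∈ U) {a b : ℝ} (hab : a ≤ b) : F (m.Z a z) ≤ F (m.Z b z) := by
  have := din h o j cF (k := fun _ => 0) continuousOn_const hd hz hab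
  simpa using this

theorem tel {f : ℝ → ℝ} (c : Continuous f) {K : ℝ} (hK : ∀ t, |f t| ≤ K) (S : ℝ) :
    -(2 * K) ≤ ∫ t in (0 : ℝ)..S, (0 - (f (1 + t) - f t)) := by
  have i : ∀ a b, IntervalIntegrable f volume a b := fun a b => c.intervalIntegrable a b
  have c1 : Continuous fun t => f (1 + t) := c.comp (continuous_const.add continuous_id)
  have b : ∀ a : ℝ, |∫ t in a..(1 + a), f t| ≤ K := fun a => by
    have := intervalIntegral.norm_integral_le_of_norm_le_const (a := a) (b := 1 + a) (f := f)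
      (C := K) fun t _ => hK t
    simpa using this
  simp only [zero_sub, neg_sub]
  rw [intervalIntegral.integral_sub (i 0 S) (c1.intervalIntegrable 0 S),
    intervalIntegral.integral_comp_add_left f 1]
  have e1 := intervalIntegral.integral_add_adjacent_intervals (i 0 (1 + 0)) (i (1 + 0) (1 + S))
  have e2 := intervalIntegral.integral_add_adjacent_intervals (i 0 S) (i S (1 + S))
  linarith [abs_le.1 (b 0), abs_le.1 (b S)]

theorem am {μ p q : ℝ} (h0 : 0 < μ) (hp : 0 ≤ p) (hq : 0 ≤ q) (h : 1 ≤ μ ^ 2 * (p * q)) :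
    2 / μ ≤ p + q := by
  rw [div_le_iff₀ h0]
  refine (pow_le_pow_iff_left₀ zero_le_two (by positivity) two_ne_zero).1 ?_
  nlinarith [mul_nonneg (sq_nonneg μ) (sq_nonneg (p - q))]

end REQ

open REQ

theorem rEQ : R_EQ := by
  intro int hd m m' φ Γ _ _ O T τ σ L hL o j aO fd fc sc cτ cσ inv fb
  obtain ⟨D, hD⟩ : ∃ D : (V × V) × ℝ → ℝ, ∀ p, D p = Dt m' (fr φ p.1.1) 0 p.2 p.1.2 :=
    ⟨_, fun _ => rfl⟩
  have cD : ContinuousOn D {p | ‖p.1.2‖ = 1} :=
    ((sc.cD 0).mono fun p hp e => by simp [e] at hp).congr fun p _ => hD p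
  have z0 : ∀ X Y : V →L[ℝ] V, X + (0 : ℝ) • Y = X := fun X Y =>
    ContinuousLinearMap.ext fun v => by simp
  have cμ : ContinuousOn (mn L D) U := mn_cont cD
  have μ0 : ∀ z ∈ U, 0 < mn L D z := fun z hz => by
    obtain ⟨t, -, e⟩ := (mn_spec hL cD hz).1
    rw [e, hD]
    exact lt_of_le_of_ne (abs_nonneg _) (fc.det z hz t).symm
  have sp : ∀ z ∈ U, ∃ p q : ℝ, 0 ≤ p ∧ 0 ≤ q ∧ 1 ≤ mn L D z ^ 2 * (p * q) ∧
      ∀ ε : ℝ, 0 < ε → ∀ᶠ r in 𝓝[>] (0 : ℝ), 0 < r ∧ τ z + (p - 1 - ε) * r ≤ τ (m.Z r z) ∧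
        σ z + (q - 1 - ε) * r ≤ σ (m.Z r z) := fun z hz => by
    obtain ⟨p, q, h1, h2, h3, h4⟩ := fc.dini z hz
    obtain ⟨t, -, e⟩ := (mn_spec hL cD hz).1
    refine ⟨p, q, h1, h2, by rw [e, hD]; exact h3 t, fun ε hε => ?_⟩
    filter_upwards [h4 ε hε, self_mem_nhdsWithin] with r hr r0 using ⟨r0, hr⟩
  have cF : ContinuousOn (fun z => τ z + σ z) U := cτ.add cσ
  have bF : ∀ z ∈ U, |τ z + σ z| ≤ 2 * T := fun z hz => by
    obtain ⟨h1, h2, h3⟩ := fc.bd z hz
    rw [abs_le]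
    constructor <;> linarith
  have ci : ContinuousOn (fun z => 2 / mn L D z) U :=
    continuousOn_const.div cμ fun z hz => (μ0 z hz).ne'
  have d1 := fun z hz a b hab => din hd o j cF (k := fun z => 2 / mn L D z - 2)
    (ci.sub continuousOn_const) (fun z hz ε hε => by
      obtain ⟨p, q, h1, h2, h3, h4⟩ := sp z hz
      have h5 := am (μ0 z hz) h1 h2 h3
      filter_upwards [h4 (ε / 2) (by positivity)] with r ⟨r0, r1, r2⟩
      nlinarith [mul_le_mul_of_nonneg_right h5 r0.le]) (z := z) hz (a := a) (b := b) hab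
  have μ1 : ∀ z ∈ U, mn L D z = 1 := fun z hz => by
    have key := int m Γ O (fun z => 2 * (mn L D z - 1))
      (fun z => 2 * mn L D z + 2 / mn L D z - 4) (4 * T) o j aO fd
      (continuousOn_const.mul (cμ.sub continuousOn_const))
      (((continuousOn_const.mul cμ).add ci).sub continuousOn_const)
      (fun γ w hw => by simp only [mn, hD, sc.iD γ w _ _ hw, and_self])
      (fun w hw => ⟨by
        have h0 := μ0 w hw
        have : 4 - 2 * mn L D w ≤ 2 / mn L D w := by
          rw [le_div_iff₀ h0]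
          nlinarith [sq_nonneg (mn L D w - 1)]
        linarith, fun S hS => by
        have h1 := d1 w hw 0 S hS
        have e : ∀ t, 2 * (mn L D (m.Z t w) - 1) -
            (2 * mn L D (m.Z t w) + 2 / mn L D (m.Z t w) - 4) = -(2 / mn L D (m.Z t w) - 2) :=
          fun t => by ring
        simp only [e, intervalIntegral.integral_neg]
        linarith [abs_le.1 (bF _ (un j hw 0)), abs_le.1 (bF _ (un j hw S))]⟩)
      (fun x => by
        have i : ContinuousOn (fun b : V => (x, b)) {b | ‖b‖ = 1} := by fun_prop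
        refine fib (cμ.comp i fun _ h => h) (fb x _ (cμ.comp i fun _ h => h) fun b t hb ht => ?_)
        have := (mn_spec hL cD (z := (x, b)) hb).2 t (abs_le.1 ht)
        rwa [hD, Dt, z0] at this) z hz
    have h0 := μ0 z hz
    have h1 : 2 / mn L D z = 4 - 2 * mn L D z := by linarith
    rw [div_eq_iff h0.ne'] at h1
    have h2 : (mn L D z - 1) ^ 2 = 0 := by linarith
    linarith [pow_eq_zero_iff two_ne_zero |>.1 h2]
  have mF : ∀ z ∈ U, ∀ a b, a ≤ b →
      τ (m.Z a z) + σ (m.Z a z) ≤ τ (m.Z b z) + σ (m.Z b z) := fun z hz a b hab => by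
    have := d1 z hz a b hab
    simp only [fun s => μ1 _ (un j hz s), div_one, sub_self, intervalIntegral.integral_zero]
      at this
    linarith
  have c1 : Continuous (m.Z 1) := (o.cZ.comp (contDiff_const.prodMk contDiff_id)).continuous
  have one : ∀ z ∈ U, τ (m.Z 1 z) + σ (m.Z 1 z) - (τ z + σ z) = 0 :=
    int m Γ O (fun _ => 0) (fun z => τ (m.Z 1 z) + σ (m.Z 1 z) - (τ z + σ z)) (2 * (2 * T)) o j aO
      fd continuousOn_const ((cF.comp c1.continuousOn fun z hz => un j hz 1).sub cF)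
      (fun γ w hw => ⟨rfl, by
        have h1 := inv γ w hw
        have h2 := inv γ _ (un j hw 1)
        simp only [ac] at h1 h2
        rw [aO.flow, h1.1, h1.2, h2.1, h2.2]⟩)
      (fun w hw => ⟨by
        have := mF w hw 0 1 zero_le_one
        rw [o.zero] at this
        linarith, fun S _ => by
        have := tel (cF.comp_continuous (cz o w) (un j hw)) (fun t => bF _ (un j hw t)) S
        simpa only [Function.comp_apply, o.add] using this⟩)
      (fun x => by simp [sph])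
  have loc : ∀ z ∈ U, ∀ᶠ r in 𝓝[>] (0 : ℝ), τ (m.Z r z) + σ (m.Z r z) = τ z + σ z :=
    fun z hz => by
    filter_upwards [Ioo_mem_nhdsGT (zero_lt_one' ℝ)] with r hr
    have h1 := mF z hz 0 r hr.1.le
    have h2 := mF z hz r 1 hr.2.le
    rw [o.zero] at h1
    linarith [one z hz]
  have pq : ∀ z ∈ U, ∀ ε : ℝ, 0 < ε → ∀ᶠ r in 𝓝[>] (0 : ℝ),
      τ z + (0 - ε) * r ≤ τ (m.Z r z) ∧ σ z + (0 - ε) * r ≤ σ (m.Z r z) := fun z hz => by
    obtain ⟨p, q, h1, h2, h3, h4⟩ := sp z hz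
    rw [μ1 z hz, one_pow, one_mul] at h3
    have h5 : p + q ≤ 2 := le_of_forall_pos_le_add fun ε hε => by
      obtain ⟨r, ⟨r0, r1, r2⟩, r3⟩ := ((h4 (ε / 2) (by positivity)).and (loc z hz)).exists
      by_contra h
      nlinarith [mul_pos r0 (sub_pos.2 (not_le.1 h))]
    have hp : p = 1 := by nlinarith [sq_nonneg (p - 1), sq_nonneg (p - q)]
    have hq : q = 1 := by nlinarith
    intro ε hε
    filter_upwards [h4 ε hε] with r hr
    rw [hp, hq, sub_self] at hr
    exact hr.2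
  have m1 := fun z hz a b hab => mono hd o j cτ (fun z hz ε hε => (pq z hz ε hε).mono fun _ h =>
    h.1) (z := z) hz (a := a) (b := b) hab
  have m2 := fun z hz a b hab => mono hd o j cσ (fun z hz ε hε => (pq z hz ε hε).mono fun _ h =>
    h.2) (z := z) hz (a := a) (b := b) hab
  have m3 := fun z hz a b hab => mono hd o j cF.neg (fun z hz ε hε => by
    filter_upwards [loc z hz, self_mem_nhdsWithin] with r hr r0
    have := mul_pos hε r0
    simp only [Pi.neg_apply]
    linarith) (z := z) hz (a := a) (b := b) hab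
  intro z hz s
  simp only [Pi.neg_apply] at m3
  rcases le_total 0 s with h | h
  · have h1 := m1 z hz 0 s h
    have h2 := m2 z hz 0 s h
    have h3 := m3 z hz 0 s h
    rw [o.zero] at h1 h2 h3
    constructor <;> linarith
  · have h1 := m1 z hz s 0 h
    have h2 := m2 z hz s 0 h
    have h3 := m3 z hz s 0 h
    rw [o.zero] at h1 h2 h3
    constructor <;> linarith

end Pool.Agent.MP_3ee8cb_gt.D3RK
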