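import Pool.Agent.MP_3ee8cb_gt.D3RK.OSpec

/-! The speeds of the two focal times. -/

namespace Pool.Agent.MP_3ee8cb_gt.D3RK

open Matrix Set Filter Topology D3OD

namespace RFOC

theorem nq_eq (x : V) : nq x = x 0 ^ 2 + x 1 ^ 2 := by
  simp only [nq, dotProduct, Fin.sum_univ_two]
  ring

theorem nq_pos {x : V} (hx : x ≠ 0) : 0 < nq x := by
  rw [nq_eq]
  by_contra h
  apply hx
  have h0 : x 0 = 0 := by nlinarith [sq_nonneg (x 0), sq_nonneg (x 1)]
  have h1 : x 1 = 0 := by nlinarith [sq_nonneg (x 0), sq_nonneg (x 1)]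
  funext i
  fin_cases i
  · exact h0
  · exact h1

theorem mv_ne {Y : M} (hY : Y.det ≠ 0) {x : V} (hx : x ≠ 0) : Y *ᵥ x ≠ 0 := fun h =>
  hx (Matrix.eq_zero_of_mulVec_eq_zero hY h)

theorem nq_smul (c : ℝ) (x : V) : nq (c • x) = c ^ 2 * nq x := by
  simp only [nq_eq, Pi.smul_apply, smul_eq_mul]
  ring

/-- The kernel of a nonzero matrix is at most a line. -/
theorem ker_line {X : M} (hX : X ≠ 0) {u e : V} (hu : u ≠ 0) (h1 : X *ᵥ u = 0)
    (h2 : X *ᵥ e = 0) : ∃ c : ℝ, e = c • u := by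
  have hw : u 0 * e 1 - u 1 * e 0 = 0 := by
    by_contra hw
    apply hX
    have key : ∀ i, X i 0 = 0 ∧ X i 1 = 0 := by
      intro i
      have a1 : X i 0 * u 0 + X i 1 * u 1 = 0 := by
        simpa [mulVec, dotProduct, Fin.sum_univ_two] using congrFun h1 i
      have a2 : X i 0 * e 0 + X i 1 * e 1 = 0 := by
        simpa [mulVec, dotProduct, Fin.sum_univ_two] using congrFun h2 i
      constructor
      · have : X i 0 * (u 0 * e 1 - u 1 * e 0) = 0 := by linear_combination e 1 * a1 - u 1 * a2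
        exact (mul_eq_zero.1 this).resolve_right hw
      · have : X i 1 * (u 0 * e 1 - u 1 * e 0) = 0 := by linear_combination u 0 * a2 - e 0 * a1
        exact (mul_eq_zero.1 this).resolve_right hw
    ext i l
    fin_cases l
    · exact (key i).1
    · exact (key i).2
  have hp := nq_pos hu
  rw [nq_eq] at hp
  refine ⟨(e 0 * u 0 + e 1 * u 1) / (u 0 ^ 2 + u 1 ^ 2), ?_⟩
  funext i
  fin_cases i
  · change e 0 = (e 0 * u 0 + e 1 * u 1) / (u 0 ^ 2 + u 1 ^ 2) * u 0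
    field_simp
    linear_combination (-u 1) * hw
  · change e 1 = (e 0 * u 0 + e 1 * u 1) / (u 0 ^ 2 + u 1 ^ 2) * u 1
    field_simp
    linear_combination (u 0) * hw

theorem nq_mv (Y : M) (e : V) : nq (Y *ᵥ e) = e ⬝ᵥ (Yᵀ * Y) *ᵥ e := by
  rw [← mulVec_mulVec, dotProduct_mulVec, vecMul_transpose]
  rfl

/-- Singular directions of a matrix. -/
theorem sing (hE : S_EIG) (Y : M) : ∃ u v : V, u ≠ 0 ∧ v ≠ 0 ∧
    (∀ e, nq (Y *ᵥ e) * nq u ≤ nq (Y *ᵥ u) * nq e) ∧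
    nq (Y *ᵥ u) * nq (Y *ᵥ v) ≤ Y.det ^ 2 * (nq u * nq v) := by
  obtain ⟨R, l, h1, h2, h3⟩ := hE (Yᵀ * Y) (by rw [transpose_mul, transpose_transpose])
  have hq : ∀ e, nq (Y *ᵥ e) = l 0 * (Rᵀ *ᵥ e) 0 ^ 2 + l 1 * (Rᵀ *ᵥ e) 1 ^ 2 := by
    intro e
    rw [nq_mv, h3, ← mulVec_mulVec, ← mulVec_mulVec, dotProduct_mulVec, ← mulVec_transpose]
    simp only [dotProduct, mulVec_diagonal, Fin.sum_univ_two]
    ring
  have hn : ∀ e, nq e = (Rᵀ *ᵥ e) 0 ^ 2 + (Rᵀ *ᵥ e) 1 ^ 2 := by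
    intro e
    rw [← nq_eq, nq_mv, transpose_transpose, h1, one_mulVec]
    rfl
  have hd : Y.det ^ 2 = l 0 * l 1 := by
    have a1 := congrArg Matrix.det h3
    have a2 := congrArg Matrix.det h1
    simp only [det_mul, det_transpose, det_diagonal, Fin.prod_univ_two, det_one] at a1 a2
    linear_combination a1 + (l 0 * l 1) * a2
  have hc : ∀ x : V, Rᵀ *ᵥ (R *ᵥ x) = x := by
    intro x
    rw [mulVec_mulVec, h2, one_mulVec]
  have n0 : nq (R *ᵥ ![1, 0]) = 1 := by rw [hn, hc]; simp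
  have n1 : nq (R *ᵥ ![0, 1]) = 1 := by rw [hn, hc]; simp
  have q0 : nq (Y *ᵥ (R *ᵥ ![1, 0])) = l 0 := by rw [hq, hc]; simp
  have q1 : nq (Y *ᵥ (R *ᵥ ![0, 1])) = l 1 := by rw [hq, hc]; simp
  have hz : ∀ x : V, nq x = 1 → x ≠ 0 := by
    intro x hx h0
    rw [h0, nq_eq] at hx
    simp at hx
  rcases le_total (l 0) (l 1) with h | h
  · refine ⟨R *ᵥ ![0, 1], R *ᵥ ![1, 0], hz _ n1, hz _ n0, fun e => ?_, ?_⟩
    · rw [n1, q1, hq e, hn e]
      nlinarith [sq_nonneg ((Rᵀ *ᵥ e) 0)]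
    · rw [n1, n0, q1, q0, hd]
      linarith
  · refine ⟨R *ᵥ ![1, 0], R *ᵥ ![0, 1], hz _ n0, hz _ n1, fun e => ?_, ?_⟩
    · rw [n0, q0, hq e, hn e]
      nlinarith [sq_nonneg ((Rᵀ *ᵥ e) 1)]
    · rw [n1, n0, q1, q0, hd]
      linarith

theorem up {x y z w : ℝ} (hw : 0 ≤ w) (h : |x| ≤ |y|) (hz : z ≤ x ^ 2 * w) : z ≤ y ^ 2 * w :=
  hz.trans (mul_le_mul_of_nonneg_right (sq_le_sq.2 h) hw)

end RFOC

open RFOC

theorem rFOC : R_FOC := by
  intro hE hG hY h1 h2 T kN A A' D E a b hC hF s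
  have hYM := hY T kN A A' D E a b hC hF s
  have main : ∃ u v : V, u ≠ 0 ∧ v ≠ 0 ∧ A s (b s) *ᵥ v = 0 ∧
      (∀ e, A s (a s) *ᵥ e = 0 →
        nq (A' s (a s) *ᵥ e) * nq u ≤ nq (A' s (a s) *ᵥ u) * nq e) ∧
      ∀ t, nq (A' s (a s) *ᵥ u) * nq (A' s (b s) *ᵥ v) ≤ (A' s t).det ^ 2 * (nq u * nq v) := by
    rcases (hF.bd s).2.1.eq_or_lt with hab | hab
    · obtain ⟨u, v, hu, hv, hm, hg⟩ := sing hE (A' s (a s))
      have hw := (mul_pos (nq_pos hu) (nq_pos hv)).le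
      refine ⟨u, v, hu, hv, ?_, fun e _ => hm e, fun t => ?_⟩
      · rw [← hab, (hF.eq s).1 hab, zero_mulVec]
      · rw [← hab]
        rcases le_total t (a s) with ht | ht
        · exact up hw ((hYM t).1 ht) hg
        · have := (hYM t).2 (hab ▸ ht)
          rw [← hab] at this
          exact up hw this hg
    · obtain ⟨u, hu, hku⟩ := hF.ka s
      obtain ⟨v, hv, hkv⟩ := hF.kb s
      have hw := (mul_pos (nq_pos hu) (nq_pos hv)).le
      have hg := hG T kN A A' D E hC s (a s) (b s) u v hab hku hkv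
      refine ⟨u, v, hu, hv, hkv, fun e he => ?_, fun t => ?_⟩
      · obtain ⟨c, rfl⟩ := ker_line (fun h => hab.ne ((hF.eq s).2 h)) hu hku he
        rw [mulVec_smul, nq_smul, nq_smul]
        exact le_of_eq (by ring)
      · rcases le_total t (a s) with ht | ht
        · exact up hw ((hYM t).1 ht) (hg _ ⟨le_rfl, hab.le⟩)
        · rcases le_total (b s) t with ht' | ht'
          · exact up hw ((hYM t).2 ht') (hg _ ⟨hab.le, le_rfl⟩)
          · exact hg t ⟨ht, ht'⟩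
  obtain ⟨u, v, hu, hv, hkv, hm, hg⟩ := main
  have pu := nq_pos hu
  have pv := nq_pos hv
  have pu' := nq_pos (mv_ne (hC.det s (a s)) hu)
  have pv' := nq_pos (mv_ne (hC.det s (b s)) hv)
  refine ⟨nq u / nq (A' s (a s) *ᵥ u), nq v / nq (A' s (b s) *ᵥ v), (div_pos pu pu').le,
    (div_pos pv pv').le, fun t => ?_, fun ε hε => ?_⟩
  · rw [div_mul_div_comm, ← mul_div_assoc, le_div_iff₀ (mul_pos pu' pv'), one_mul]
    exact hg t
  · refine (h1 T kN A A' D E a b hC hF s _ fun e he hk => ?_).and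
      (h2 T kN A A' D E a b hC hF s _ v hkv ?_)
    · have pe := nq_pos (mv_ne (hC.det s (a s)) he)
      have a1 : nq u / nq (A' s (a s) *ᵥ u) * nq (A' s (a s) *ᵥ e) ≤ nq e := by
        rw [div_mul_eq_mul_div, div_le_iff₀ pu']
        linarith [hm e hk]
      nlinarith [mul_pos hε pe]
    · rw [sub_mul, div_mul_cancel₀ _ pv'.ne']
      linarith [mul_pos hε pv']

end Pool.Agent.MP_3ee8cb_gt.D3RK
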