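import Pool.Agent.MP_3ee8cb_gt.D3RK.OSpec

/-! Existence of the two focal times. -/

namespace Pool.Agent.MP_3ee8cb_gt.D3RK

open Matrix Set Filter Topology D3OD

namespace RFT

theorem first {q : ℝ → V → ℝ} {l u : ℝ} (hm : ∀ e, e ≠ 0 → StrictMono fun t => q t e)
    (hc : Continuous fun p : ℝ × V => q p.1 p.2)
    (hh : ∀ t (c : ℝ) e, q t (c • e) = c ^ 2 * q t e)
    (lo : ∀ e, e ≠ 0 → q l e < 0) (hi : ∀ e, e ≠ 0 → 0 < q u e) :
    ∃ a, l ≤ a ∧ a ≤ u ∧ (∀ t e, t < a → e ≠ 0 → q t e < 0) ∧ (∀ e, q a e ≤ 0) ∧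
      ∃ e, e ≠ 0 ∧ q a e = 0 := by
  have hK : IsCompact ((Icc l u ×ˢ Metric.sphere (0 : V) 1) ∩ {p : ℝ × V | 0 ≤ q p.1 p.2}) :=
    (isCompact_Icc.prod (isCompact_sphere 0 1)).inter_right (isClosed_le continuous_const hc)
  have h1 : (fun _ => 1 : V) ≠ 0 := fun h => one_ne_zero (congrFun h 0)
  have hlu : l ≤ u := by
    by_contra h
    have h2 : q u (fun _ => 1) < q l (fun _ => 1) := hm _ h1 (not_le.1 h)
    linarith [lo _ h1, hi _ h1]
  have hne : ((Icc l u ×ˢ Metric.sphere (0 : V) 1) ∩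
      {p : ℝ × V | 0 ≤ q p.1 p.2}).Nonempty :=
    ⟨(u, fun _ => 1), ⟨⟨hlu, le_rfl⟩, by simp⟩, (hi _ h1).le⟩
  obtain ⟨p, hp, hmin⟩ := hK.exists_isMinOn hne continuous_fst.continuousOn
  have hp0 : p.2 ≠ 0 := by
    intro h
    have h2 := hp.1.2
    rw [h] at h2
    simp at h2
  have hneg : ∀ t e, t < p.1 → e ≠ 0 → q t e < 0 := by
    intro t e ht he
    by_contra h
    have h2 : 0 ≤ q t e := not_lt.1 h
    rcases le_or_gt l t with h3 | h3
    · have hn : ‖e‖ ≠ 0 := norm_ne_zero_iff.2 he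
      have h4 : p.1 ≤ t := hmin (a := (t, ‖e‖⁻¹ • e))
        ⟨⟨⟨h3, ht.le.trans hp.1.1.2⟩, by simp [norm_smul, hn]⟩, by
          show 0 ≤ q t (‖e‖⁻¹ • e)
          rw [hh]
          positivity⟩
      linarith
    · have h4 : q t e < q l e := hm e he h3
      linarith [lo e he]
  have hle : ∀ e, q p.1 e ≤ 0 := by
    intro e
    by_cases he : e = 0
    · have h2 := hh p.1 0 e
      rw [zero_smul, ← he] at h2
      rw [h2]
      simp
    · have h2 : Continuous fun t => q t e := hc.comp (continuous_id.prodMk continuous_const)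
      have h3 : Iio p.1 ⊆ {t | q t e ≤ 0} := fun t ht => (hneg t e ht he).le
      have h4 := closure_minimal h3 (isClosed_le h2 continuous_const)
      rw [closure_Iio] at h4
      exact h4 (le_refl p.1)
  exact ⟨p.1, hp.1.1.1, hp.1.1.2, hneg, hle, p.2, hp0, le_antisymm (hle _) hp.2⟩

theorem ker {X Y : M} (hs : ∀ e e', (X *ᵥ e) ⬝ᵥ (Y *ᵥ e') = (Y *ᵥ e) ⬝ᵥ (X *ᵥ e'))
    (hd : Y.det ≠ 0) (hq : ∀ e, qf X Y e ≤ 0) {e : V} (he : qf X Y e = 0) : X *ᵥ e = 0 := by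
  have hb : ∀ e', (X *ᵥ e) ⬝ᵥ (Y *ᵥ e') = 0 := by
    intro e'
    have h1 : ∀ r : ℝ, qf X Y e' * (r * r) + 2 * ((X *ᵥ e) ⬝ᵥ (Y *ᵥ e')) * r + 0 ≤ 0 := by
      intro r
      have h2 := hq (e + r • e')
      have h3 := hs e e'
      rw [dotProduct_comm (Y *ᵥ e)] at h3
      unfold qf at h2 he ⊢
      simp only [mulVec_add, mulVec_smul, add_dotProduct, dotProduct_add, smul_dotProduct,
        dotProduct_smul, smul_eq_mul] at h2
      rw [he, ← h3] at h2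
      linarith
    have h2 := discrim_le_zero_of_nonpos h1
    unfold discrim at h2
    have h3 : ((X *ᵥ e) ⬝ᵥ (Y *ᵥ e')) ^ 2 ≤ 0 := by linarith
    exact pow_eq_zero_iff two_ne_zero |>.1 (le_antisymm h3 (sq_nonneg _))
  have h := hb (Y⁻¹ *ᵥ (X *ᵥ e))
  rw [mulVec_mulVec, mul_nonsing_inv _ (Ne.isUnit hd), one_mulVec] at h
  exact dotProduct_self_eq_zero.1 h

theorem qf_neg (X Y : M) (e : V) : qf (-X) Y e = -qf X Y e := by
  rw [qf, qf, neg_mulVec, neg_dotProduct]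

theorem ker' {X Y : M} (hs : ∀ e e', (X *ᵥ e) ⬝ᵥ (Y *ᵥ e') = (Y *ᵥ e) ⬝ᵥ (X *ᵥ e'))
    (hd : Y.det ≠ 0) (hq : ∀ e, 0 ≤ qf X Y e) {e : V} (he : qf X Y e = 0) : X *ᵥ e = 0 := by
  have h := ker (X := -X) (Y := Y)
    (fun e e' => by rw [neg_mulVec, neg_mulVec, neg_dotProduct, dotProduct_neg, hs e e']) hd
    (fun e => by rw [qf_neg]; linarith [hq e]) (e := e) (by rw [qf_neg, he, neg_zero])
  rwa [neg_mulVec, neg_eq_zero] at h

theorem one (hom : S_OM) {T : ℝ} {kN : ℝ → M} {A A' D E : ℝ → ℝ → M}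
    (h : Co T kN A A' D E) (s : ℝ) : ∃ a b : ℝ,
    (∀ t e, t < a → e ≠ 0 → qf (A s t) (A' s t) e < 0) ∧
    (∀ t, a < t → ∃ e, 0 < qf (A s t) (A' s t) e) ∧
    (∀ t e, b < t → e ≠ 0 → 0 < qf (A s t) (A' s t) e) ∧
    (∀ t, t < b → ∃ e, qf (A s t) (A' s t) e < 0) ∧
    (s - T ≤ a ∧ a ≤ b ∧ b ≤ s + T) ∧ (∃ e, e ≠ 0 ∧ A s a *ᵥ e = 0) ∧
    (∃ e, e ≠ 0 ∧ A s b *ᵥ e = 0) ∧ (a = b ↔ A s a = 0) := by
  have hs : ∀ t e e', (A s t *ᵥ e) ⬝ᵥ (A' s t *ᵥ e') = (A' s t *ᵥ e) ⬝ᵥ (A s t *ᵥ e') := by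
    intro t e e'
    have h1 := h.pa.symp s t 0 e 0 e'
    simp only [om, mulVec_zero, zero_add, zero_dotProduct, dotProduct_zero, sub_self] at h1
    linarith
  have hm : ∀ e, e ≠ 0 → StrictMono fun t => qf (A s t) (A' s t) e := by
    intro e he
    have h1 := (hom kN h.cur.symm _ _ _ _ (h.sol s e) (h.sol s e)).2.2
    refine strictMono_of_hasDerivAt_pos h1 fun t => ?_
    have h2 := h.cur.low t (A s t *ᵥ e)
    have h3 : A' s t *ᵥ e ≠ 0 := fun h0 => he (eq_zero_of_mulVec_eq_zero (h.det s t) h0)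
    have h4 : 0 ≤ (A' s t *ᵥ e) ⬝ᵥ (A' s t *ᵥ e) :=
      Finset.sum_nonneg fun i _ => mul_self_nonneg _
    have h5 := lt_of_le_of_ne h4 fun h0 => h3 (dotProduct_self_eq_zero.1 h0.symm)
    show 0 < _
    linarith
  have cA : Continuous fun t => A s t := continuous_matrix fun i l =>
    continuous_iff_continuousAt.2 fun t => ContinuousAt.comp (f := fun t : ℝ => (s, t))
      (h.pa.dA s t i l).continuousAt (by fun_prop)
  have cA' : Continuous fun t => A' s t := continuous_matrix fun i l =>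
    continuous_iff_continuousAt.2 fun t => ContinuousAt.comp (f := fun t : ℝ => (s, t))
      (h.pa.dA' s t i l).continuousAt (by fun_prop)
  have hc : Continuous fun p : ℝ × V => qf (A s p.1) (A' s p.1) p.2 :=
    ((cA.comp continuous_fst).matrix_mulVec continuous_snd).dotProduct
      ((cA'.comp continuous_fst).matrix_mulVec continuous_snd)
  have hh : ∀ t (c : ℝ) e, qf (A s t) (A' s t) (c • e) = c ^ 2 * qf (A s t) (A' s t) e := by
    intro t c e
    simp only [qf, mulVec_smul, smul_dotProduct, dotProduct_smul, smul_eq_mul]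
    ring
  have lo : ∀ e, e ≠ 0 → qf (A s (s - T)) (A' s (s - T)) e < 0 :=
    fun e he => h.far.neg s _ e he (by linarith)
  have hi : ∀ e, e ≠ 0 → 0 < qf (A s (s + T)) (A' s (s + T)) e :=
    fun e he => h.far.pos s _ e he le_rfl
  obtain ⟨a, a1, -, a3, a4, ea, a5, a6⟩ :=
    first (q := fun t e => qf (A s t) (A' s t) e) hm hc hh lo hi
  obtain ⟨c, c1, -, c3, c4, eb, c5, c6⟩ :=
    first (q := fun t e => -qf (A s (-t)) (A' s (-t)) e) (l := -(s + T)) (u := -(s - T))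
      (fun e he x y hxy => neg_lt_neg (hm e he (neg_lt_neg hxy)))
      (hc.comp (continuous_fst.neg.prodMk continuous_snd)).neg
      (fun t c e => by rw [hh]; ring)
      (fun e he => by rw [neg_neg]; linarith [hi e he])
      (fun e he => by rw [neg_neg]; linarith [lo e he])
  have b4 : ∀ e, 0 ≤ qf (A s (-c)) (A' s (-c)) e := fun e => by linarith [c4 e]
  have b6 : qf (A s (-c)) (A' s (-c)) eb = 0 := neg_eq_zero.1 c6
  have hab : a ≤ -c := by
    by_contra hcon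
    exact absurd b6 (a3 _ eb (not_le.1 hcon) c5).ne
  refine ⟨a, -c, a3, fun t ht => ⟨ea, ?_⟩, fun t e ht he => ?_, fun t ht => ⟨eb, ?_⟩,
    ⟨a1, hab, by linarith⟩, ⟨ea, a5, ker (hs a) (h.det s a) a4 a6⟩,
    ⟨eb, c5, ker' (hs _) (h.det s _) b4 b6⟩, fun hE => ?_, fun h0 => ?_⟩
  · exact lt_of_eq_of_lt a6.symm (hm ea a5 ht)
  · have h1 := c3 (-t) e (by linarith) he
    rw [neg_neg] at h1
    linarith
  · exact lt_of_lt_of_eq (hm eb c5 ht) b6
  · rw [← hE] at b4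
    refine ext_of_mulVec_single fun i => ?_
    rw [zero_mulVec]
    exact ker (hs a) (h.det s a) a4 (le_antisymm (a4 _) (b4 _))
  · rcases hab.eq_or_lt with h1 | h1
    · exact h1
    · have h2 : qf (A s a) (A' s a) eb < qf (A s (-c)) (A' s (-c)) eb := hm eb c5 h1
      rw [b6, h0] at h2
      simp [qf] at h2

end RFT

theorem rFT : R_FT := by
  intro hom T kN A A' D E h
  choose a b h1 h2 h3 h4 h5 h6 h7 h8 using RFT.one hom h
  exact ⟨a, b, h1, h2, h3, h4, h5, h6, h7, h8⟩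

end Pool.Agent.MP_3ee8cb_gt.D3RK
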