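import Pool.Agent.MP_3ee8cb_gt.D3RK.RSpec
import Pool.Agent.MP_3ee8cb_gt.D3WI.Base

/-! Metric lines and segments are geodesics. -/

namespace Pool.Agent.MP_3ee8cb_gt.D3RK

open Set D3
open scoped RealInnerProductSpace

namespace RGEO

theorem euc {u v : V} {q : ℝ} (h0 : 0 ≤ q) (h1 : q ≤ 1) (a : ‖u‖ ≤ q * ‖v‖)
    (b : ‖u - v‖ ≤ (1 - q) * ‖v‖) : u = q • v := by
  have a2 : ‖u‖ ^ 2 ≤ (q * ‖v‖) ^ 2 := pow_le_pow_left₀ (norm_nonneg _) a 2
  have b2 : ‖u - v‖ ^ 2 ≤ ((1 - q) * ‖v‖) ^ 2 := pow_le_pow_left₀ (norm_nonneg _) b 2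
  have e1 := norm_sub_sq_real u v
  have e2 := norm_sub_sq_real u (q • v)
  rw [real_inner_smul_right, norm_smul, Real.norm_of_nonneg h0] at e2
  have h : ‖u - q • v‖ ^ 2 ≤ 0 := by
    have c1 := mul_le_mul_of_nonneg_left a2 (sub_nonneg.2 h1)
    have c2 := mul_le_mul_of_nonneg_left b2 h0
    rw [e1] at c2
    rw [e2]
    nlinarith
  exact sub_eq_zero.1 (norm_eq_zero.1 (pow_eq_zero_iff two_ne_zero |>.1
    (le_antisymm h (sq_nonneg _))))

theorem seg {m : MF} {lg : V × V → V} (h : Hd m lg) (x y p : V) (q : ℝ) (h0 : 0 ≤ q)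
    (h1 : q ≤ 1) (a : ‖lg (x, p)‖ ≤ q * ‖lg (x, y)‖) (b : ‖lg (p, y)‖ ≤ (1 - q) * ‖lg (x, y)‖) :
    p = (m.Z q (x, lg (x, y))).1 := by
  have e := euc h0 h1 a ((D3WI.hinge' h.had x p y).trans b)
  have e2 := h.had.ex x p
  rw [e, D3WI.one_smul' h.jac q (x, lg (x, y))] at e2
  exact e2.symm

end RGEO

theorem rGEO : SGEO := by
  intro m lg h
  refine ⟨fun x hx => ⟨(x 0, lg (x 0, x 1)), by simp [U, hx], fun t => ?_⟩, RGEO.seg h⟩
  set a := min t 0
  set b := max t 1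
  have a0 : a ≤ 0 := min_le_right _ _
  have at' : a ≤ t := min_le_left _ _
  have b1 : 1 ≤ b := le_max_right _ _
  have bt : t ≤ b := le_max_left _ _
  have ab : 0 < b - a := by linarith
  set w : V × V := (x a, (b - a)⁻¹ • lg (x a, x b)) with hw
  have key : ∀ s, a ≤ s → s ≤ b → x s = (m.Z (s - a) w).1 := by
    intro s h1 h2
    have d : ‖lg (x a, x b)‖ = b - a := by rw [hx, abs_sub_comm, abs_of_pos ab]
    have k := RGEO.seg h (x a) (x b) (x s) ((b - a)⁻¹ * (s - a))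
      (mul_nonneg (inv_pos.2 ab).le (by linarith))
      (by rw [inv_mul_le_iff₀ ab]; linarith)
      (by rw [d, hx, abs_sub_comm, abs_of_nonneg (by linarith)]; field_simp; exact le_rfl)
      (by
        rw [d, hx, abs_sub_comm, abs_of_nonneg (by linarith)]
        refine le_of_eq ?_
        field_simp
        ring)
    rw [hw, h.jac.scale]
    exact k
  have k0 := key 0 a0 (by linarith)
  have k1 := key 1 (by linarith) b1
  have e : m.Z (0 - a) w = (x 0, lg (x 0, x 1)) := by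
    refine Prod.ext k0.symm ?_
    have := D3WI.lg_geo h.ok h.jac h.had w (0 - a) (1 - a)
    rw [← k0, ← k1, show 1 - a - (0 - a) = 1 by ring, one_smul] at this
    exact this.symm
  rw [key t at' bt, ← e, ← h.ok.add, show t + (0 - a) = t - a by ring]

end Pool.Agent.MP_3ee8cb_gt.D3RK
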