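import Pool.Agent.MP_3ee8cb_gt.D3RK.OSpec

/-! Row GRAM: the Gram inequality between two zeros. -/

namespace Pool.Agent.MP_3ee8cb_gt.D3RK

open Matrix Set D3OD

namespace RGRAM

theorem mono {f f' : ℝ → ℝ} {a t : ℝ} (hf : ∀ x, HasDerivAt f (f' x) x)
    (h0 : ∀ x, a ≤ x → 0 ≤ f' x) (ht : a ≤ t) : f a ≤ f t :=
  monotoneOn_of_deriv_nonneg (convex_Ici a) (fun x _ => (hf x).continuousAt.continuousWithinAt)
    (fun x _ => (hf x).differentiableAt.differentiableWithinAt)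
    (fun x hx => by rw [(hf x).deriv]; exact h0 x (interior_subset hx)) (mem_Ici.2 le_rfl) ht ht

theorem fwd (h1 : S_OM) (h2 : S_GROW) {k : ℝ → M} {j j' : ℝ → V} (hk : Cur 0 k)
    (hj : Sol k j j') {a : ℝ} (ha : j a = 0) {t : ℝ} (ht : a ≤ t) :
    (j' a ⬝ᵥ j' a) * (t - a) ≤ j t ⬝ᵥ j' t ∧
      (j' a ⬝ᵥ j' a) * (j t ⬝ᵥ j t) ≤ (j t ⬝ᵥ j' t) ^ 2 := by
  obtain ⟨-, hf, hh⟩ := h1 k hk.symm j j' j j' hj hj
  have d : ∀ x, a ≤ x → 0 ≤ j' x ⬝ᵥ j' x + j x ⬝ᵥ k x *ᵥ j x - j' a ⬝ᵥ j' a := fun x hx => by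
    have e1 := hk.low x (j x)
    have e2 := h2 k hk j j' hj a ha x hx
    linarith
  have q : ∀ x, a ≤ x → (j' a ⬝ᵥ j' a) * (x - a) ≤ j x ⬝ᵥ j' x := fun x hx => by
    have e := mono (fun y => (hh y).sub ((hasDerivAt_id' y).const_mul (j' a ⬝ᵥ j' a)))
      (fun y hy => by rw [mul_one]; exact d y hy) hx
    simp only [Pi.sub_apply, ha, zero_dotProduct] at e
    linarith
  refine ⟨q t ht, ?_⟩
  have e := mono (fun y => ((hh y).mul (hh y)).sub ((hf y).const_mul (j' a ⬝ᵥ j' a)))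
    (fun y hy => by
      have e1 := mul_nonneg ((mul_nonneg (Gen.dnn _) (sub_nonneg.2 hy)).trans (q y hy)) (d y hy)
      linarith) ht
  simp only [Pi.sub_apply, Pi.mul_apply, ha, zero_dotProduct] at e
  linarith

theorem bwd (h1 : S_OM) (h2 : S_GROW) {k : ℝ → M} {j j' : ℝ → V} (hk : Cur 0 k)
    (hj : Sol k j j') {b : ℝ} (hb : j b = 0) {t : ℝ} (ht : t ≤ b) :
    (j' b ⬝ᵥ j' b) * (b - t) ≤ -(j t ⬝ᵥ j' t) ∧
      (j' b ⬝ᵥ j' b) * (j t ⬝ᵥ j t) ≤ (j t ⬝ᵥ j' t) ^ 2 := by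
  have c := Gen.cur hk (-1)
  rw [mul_zero] at c
  have e := fwd h1 h2 c (Gen.sol hj (-1)) (a := -b) (by simpa using hb) (neg_le_neg ht)
  simp only [neg_mul, one_mul, neg_neg, neg_smul, one_smul, dotProduct_neg, neg_dotProduct,
    neg_sq] at e
  exact ⟨by linarith [e.1], e.2⟩

theorem alg (J x K y : V) (c d : ℝ) (c0 : 0 ≤ c) (d0 : 0 ≤ d) (p : 0 < J ⬝ᵥ x) (n : K ⬝ᵥ y < 0)
    (h1 : c * (J ⬝ᵥ J) ≤ (J ⬝ᵥ x) ^ 2) (h2 : d * (K ⬝ᵥ K) ≤ (K ⬝ᵥ y) ^ 2)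
    (hs : J ⬝ᵥ y = x ⬝ᵥ K) : c * d ≤ (x 0 * y 1 - x 1 * y 0) ^ 2 := by
  have e1 : (J 0 * K 1 - J 1 * K 0) * (x 0 * y 1 - x 1 * y 0) =
      (J ⬝ᵥ x) * (K ⬝ᵥ y) - (J ⬝ᵥ y) * (x ⬝ᵥ K) := by
    simp only [dotProduct, Fin.sum_univ_two]
    ring
  have e2 : (J 0 * K 1 - J 1 * K 0) ^ 2 ≤ (J ⬝ᵥ J) * (K ⬝ᵥ K) := by
    simp only [dotProduct, Fin.sum_univ_two]
    nlinarith [sq_nonneg (J 0 * K 0 + J 1 * K 1)]
  rw [hs] at e1
  have e3 := mul_le_mul h1 h2 (mul_nonneg d0 (Gen.dnn _)) (sq_nonneg _)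
  have e4 := mul_le_mul_of_nonneg_left e2 (mul_nonneg c0 d0)
  have e5 := mul_pos p (neg_pos.2 n)
  generalize J 0 * K 1 - J 1 * K 0 = u at *
  generalize x 0 * y 1 - x 1 * y 0 = w at *
  have e6 : (J ⬝ᵥ x) * -(K ⬝ᵥ y) ≤ -(u * w) := by nlinarith [mul_self_nonneg (x ⬝ᵥ K)]
  have e7 := pow_le_pow_left₀ e5.le e6 2
  have u0 : 0 < u ^ 2 := sq_pos_of_ne_zero fun h => by
    rw [h] at e6
    linarith
  refine le_of_mul_le_mul_right ?_ u0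
  linarith

theorem gram (h1 : S_OM) (h2 : S_GROW) {k : ℝ → M} {j j' i i' : ℝ → V} (hk : Cur 0 k)
    (hj : Sol k j j') (hi : Sol k i i') (hs : ∀ t, j t ⬝ᵥ i' t = j' t ⬝ᵥ i t) {a b : ℝ}
    (ab : a < b) (ha : j a = 0) (hb : i b = 0) {t : ℝ} (ht : t ∈ Icc a b) :
    (j' a ⬝ᵥ j' a) * (i' b ⬝ᵥ i' b) ≤ (j' t 0 * i' t 1 - j' t 1 * i' t 0) ^ 2 := by
  rcases (Gen.dnn (j' a)).eq_or_lt with c | c
  · rw [← c, zero_mul]
    exact sq_nonneg _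
  rcases (Gen.dnn (i' b)).eq_or_lt with d | d
  · rw [← d, mul_zero]
    exact sq_nonneg _
  have c1 : Continuous j' := continuous_iff_continuousAt.2 fun x => (hj.d2 x).continuousAt
  have c2 : Continuous i' := continuous_iff_continuousAt.2 fun x => (hi.d2 x).continuousAt
  have cl : IsClosed {t | (j' a ⬝ᵥ j' a) * (i' b ⬝ᵥ i' b) ≤
      (j' t 0 * i' t 1 - j' t 1 * i' t 0) ^ 2} := isClosed_le continuous_const (by fun_prop)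
  rw [← closure_Ioo ab.ne] at ht
  refine closure_minimal (fun x hx => ?_) cl ht
  obtain ⟨p1, p2⟩ := fwd h1 h2 hk hj ha hx.1.le
  obtain ⟨n1, n2⟩ := bwd h1 h2 hk hi hb hx.2.le
  exact alg _ _ _ _ _ _ c.le d.le ((mul_pos c (sub_pos.2 hx.1)).trans_le p1)
    (neg_pos.1 ((mul_pos d (sub_pos.2 hx.2)).trans_le n1)) p2 n2 (hs x)

theorem fin (X : M) (u v : V) : ((X *ᵥ u) 0 * (X *ᵥ v) 1 - (X *ᵥ u) 1 * (X *ᵥ v) 0) ^ 2 ≤
    X.det ^ 2 * (nq u * nq v) := by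
  have e : (X *ᵥ u) 0 * (X *ᵥ v) 1 - (X *ᵥ u) 1 * (X *ᵥ v) 0 =
      X.det * (u 0 * v 1 - u 1 * v 0) := by
    simp only [mulVec, dotProduct, Fin.sum_univ_two, det_fin_two]
    ring
  rw [e, mul_pow]
  refine mul_le_mul_of_nonneg_left ?_ (sq_nonneg _)
  simp only [nq, dotProduct, Fin.sum_univ_two]
  nlinarith [sq_nonneg (u 0 * v 0 + u 1 * v 1)]

end RGRAM

open RGRAM in
theorem rGRAM : R_GRAM := by
  intro h1 h2 T kN A A' D E h s a b u v ab ha hb t ht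
  refine (gram h1 h2 h.cur (h.sol s u) (h.sol s v) (fun x => ?_) ab ha hb ht).trans (fin _ u v)
  have e := h.pa.symp s x 0 u 0 v
  simp only [om, mulVec_zero, zero_add, zero_dotProduct, dotProduct_zero] at e
  linarith

end Pool.Agent.MP_3ee8cb_gt.D3RK
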