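import Pool.Agent.MP_3ee8cb_gt.D3RK.OSpec

/-! The derivative matrix is invertible for all pairs of times. -/

namespace Pool.Agent.MP_3ee8cb_gt.D3RK

open Matrix Set D3OD
open D3NP (Two)

namespace RINV0

theorem sub {k : ℝ → M} {j j' i i' : ℝ → V} (h : Sol k j j') (g : Sol k i i') :
    Sol k (fun t => j t - i t) (fun t => j' t - i' t) :=
  ⟨fun t => (h.d1 t).sub (g.d1 t), fun t => by
    rw [mulVec_sub]
    exact (h.d2 t).sub (g.d2 t)⟩

theorem zero (k : ℝ → M) : Sol k (fun _ => 0) (fun _ => 0) :=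
  ⟨fun t => hasDerivAt_const t _, fun t => by
    rw [mulVec_zero]
    exact hasDerivAt_const t _⟩

theorem mono (OM : S_OM) {k : ℝ → M} (c : Cur 0 k) {j j' : ℝ → V} (h : Sol k j j') :
    Monotone fun s => j s ⬝ᵥ j' s := by
  have d := (OM k c.symm j j' j j' h h).2.2
  refine monotone_of_deriv_nonneg (fun t => (d t).differentiableAt) fun t => ?_
  rw [(d t).deriv]
  have := c.low t (j t)
  have := Gen.dnn (j' t)
  linarith

theorem img (UQ : S_UQ) {C : ℝ} {kM kN hh hv vh vv : ℝ → M} {A A' : ℝ → ℝ → M}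
    (o : OrbA 0 C kM kN hh hv vh vv) (w : Two kN hv vv A A') {i i' : ℝ → V} (h : Sol kM i i')
    {r : ℝ} (hr : i r = 0) (t : ℝ) : hh t *ᵥ i t + hv t *ᵥ i' t = A r t *ᵥ i' r ∧
      vh t *ᵥ i t + vv t *ᵥ i' t = A' r t *ᵥ i' r :=
  UQ kN o.cN.cont _ _ _ _ r (o.map _ _ h) (w.sol r (i' r))
    (by simp only [hr, mulVec_zero, zero_add, w.a0])
    (by simp only [hr, mulVec_zero, zero_add, w.a1]) t

theorem q0 (X Y : M) : qf X Y 0 = 0 := by simp [qf]

end RINV0

open RINV0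

theorem rINV0 : R_INV0 := by
  intro EX UQ OM LAM C kM kN hh hv vh vv A A' o w T far s t h0
  obtain ⟨e, e0, he⟩ := Matrix.exists_mulVec_eq_zero_iff.2 h0
  obtain ⟨j, j', hj, js, js'⟩ := EX kM o.cM.cont s 0 e
  have a1 := min_le_left s (t - T)
  have a2 := min_le_right s (t - T)
  have b1 := le_max_left s (t + T)
  have b2 := le_max_right s (t + T)
  generalize min s (t - T) = p at a1 a2
  generalize max s (t + T) = r at b1 b2
  obtain ⟨-, -, -, -, hK⟩ := LAM kM o.cM (p - 1) (r + 1) (by linarith)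
  obtain ⟨K, K', sK, K2, K1⟩ := hK (j (p - 1))
  have sI := sub hj sK
  have I1 : (fun t => j t - K t) (p - 1) = 0 := by simp only [K1, sub_self]
  obtain ⟨x1, y1⟩ := img UQ o w sI I1 t
  obtain ⟨x2, y2⟩ := img UQ o w sK K2 t
  obtain ⟨-, y3⟩ := img UQ o w hj js t
  have m1 := mono OM o.cM sI (show p - 1 ≤ s by linarith)
  have m2 := mono OM o.cM sK (show s ≤ r + 1 by linarith)
  simp only [K1, sub_self, zero_dotProduct, js, K2, zero_sub] at m1 m2
  have o1 := (OM kM o.cM.symm _ _ _ _ sI sK).1 t s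
  have o2 := o.symp t (j t - K t) (j' t - K' t) (K t) (K' t)
  have ys : A' (p - 1) t *ᵥ (j' (p - 1) - K' (p - 1)) = -(A' (r + 1) t *ᵥ K' (r + 1)) := by
    rw [← y1, ← y2, mulVec_sub, mulVec_sub, eq_neg_iff_add_eq_zero, ← he, ← js', ← y3]
    abel
  rw [x1, y1, x2, y2, o1, js, zero_sub] at o2
  have key : qf (A (p - 1) t) (A' (p - 1) t) (j' (p - 1) - K' (p - 1)) ≤
      qf (A (r + 1) t) (A' (r + 1) t) (K' (r + 1)) := by
    simp only [qf, om] at o2 ⊢
    rw [ys] at o2 ⊢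
    simp only [dotProduct_neg, neg_dotProduct] at o2 m1 ⊢
    rw [dotProduct_comm (j' s - K' s), dotProduct_comm (A' (r + 1) t *ᵥ _)] at o2
    linarith
  have n2 : qf (A (r + 1) t) (A' (r + 1) t) (K' (r + 1)) ≤ 0 := by
    by_cases z : K' (r + 1) = 0
    · rw [z, q0]
    · exact (far.neg _ _ _ z (by linarith)).le
  have z1 : j' (p - 1) - K' (p - 1) = 0 := by
    by_contra z
    linarith [far.pos (p - 1) t _ z (by linarith)]
  have z2 : K' (r + 1) = 0 := by
    by_contra z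
    rw [z1, q0] at key
    linarith [far.neg (r + 1) t _ z (by linarith)]
  have u1 := (UQ kM o.cM.cont _ _ _ _ (p - 1) sI (zero kM) I1 z1 s).2
  have u2 := (UQ kM o.cM.cont _ _ _ _ (r + 1) sK (zero kM) K2 z2 s).2
  simp only [u2, sub_zero, js'] at u1
  exact e0 u1

end Pool.Agent.MP_3ee8cb_gt.D3RK
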