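import Pool.Agent.MP_3ee8cb_gt.D3RK.RSpec
import Pool.Agent.MP_3ee8cb_gt.D3WI.Base

/-! A recurrent vector is a limit of the orbit of every neighbourhood of an asymptote. -/

namespace Pool.Agent.MP_3ee8cb_gt.D3RK

open Set Filter Topology D3 D3WI
open D3.SI (ac)

namespace RLA

variable {m : MF} {lg : V × V → V}

/-- The geodesic from `y` towards `p` arrives at `p`. -/
theorem arrive (hj : m.Jac) (hl : m.Had lg) (y p : V) {c : ℝ} (hc : c ≠ 0) :
    m.Z c⁻¹ (y, c • lg (y, p)) = (p, -(c • lg (p, y))) := by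
  rw [hj.scale, mul_inv_cancel₀ hc, hl.ex, hl.rev y p, smul_neg, neg_neg]

/-- The arrival direction is close to the direction of the geodesic of `v`. -/
theorem close (ho : m.OK) (hj : m.Jac) (hl : m.Had lg) (y : V) (v : V × V) {t : ℝ} (ht : t ≠ 0)
    (k : ℝ) : ‖(m.Z t v).2 - -((k * t⁻¹) • lg ((m.Z t v).1, y))‖ ≤
      |k - 1| * ‖t⁻¹ • lg (y, (m.Z t v).1)‖ + |t⁻¹| * ‖lg (y, v.1)‖ := by
  have h1 := lg_geo ho hj hl v t 0
  rw [ho.zero] at h1
  have h2 := hinge' hl (m.Z t v).1 y v.1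
  have h3 : (m.Z t v).2 - -((k * t⁻¹) • lg ((m.Z t v).1, y)) =
      (k - 1) • t⁻¹ • lg ((m.Z t v).1, y) +
        t⁻¹ • (lg ((m.Z t v).1, y) - lg ((m.Z t v).1, v.1)) := by
    have h4 : (m.Z t v).2 = -(t⁻¹ • lg ((m.Z t v).1, v.1)) := by
      rw [h1, smul_smul, zero_sub, mul_neg, inv_mul_cancel₀ ht, neg_smul, one_smul, neg_neg]
    rw [smul_sub t⁻¹, ← sub_eq_zero]
    nth_rewrite 1 [h4]
    module
  rw [h3]
  refine (norm_add_le _ _).trans (add_le_add (le_of_eq ?_) ?_)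
  · rw [norm_smul, norm_smul, norm_smul, lg_symm hj hl y, Real.norm_eq_abs]
  · rw [norm_smul, Real.norm_eq_abs]
    exact mul_le_mul_of_nonneg_left h2 (abs_nonneg _)

end RLA

theorem rLA : R_LA := by
  intro _ m lg Λ _ _ O hd _ E hE W hW v hv ⟨t, γ, ht, hγ⟩ y hy
  obtain ⟨ho, hj, -, hl⟩ := hd
  set a : ℕ → V := fun n => (t n)⁻¹ • lg (y, (m.Z (t n) v).1) with ha
  have h1 : Tendsto a atTop (𝓝 (E y v)) := (hE.lim y v hv).comp ht
  have h2 : Tendsto (fun n => ‖a n‖) atTop (𝓝 1) := by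
    have h := h1.norm
    rwa [hE.unit y v hv] at h
  have h3 : Tendsto (fun n => ‖a n‖⁻¹) atTop (𝓝 1) := by
    have h := h2.inv₀ one_ne_zero
    rwa [inv_one] at h
  have h4 : ∀ᶠ n in atTop, ‖a n‖ ≠ 0 := h2.eventually_ne one_ne_zero
  have h5 : ∀ᶠ n in atTop, t n ≠ 0 := ht.eventually_ne_atTop 0
  have h6 : Tendsto (fun n => (y, ‖a n‖⁻¹ • a n)) atTop (𝓝[U] (y, E y v)) := by
    refine tendsto_nhdsWithin_iff.2 ⟨?_, ?_⟩
    · have h := h3.smul h1
      rw [one_smul] at h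
      exact tendsto_const_nhds.prodMk_nhds h
    · filter_upwards [h4] with n hn
      change ‖‖a n‖⁻¹ • a n‖ = 1
      rw [norm_smul, norm_inv, norm_norm, inv_mul_cancel₀ hn]
  have h7 : ∀ᶠ n in atTop, (y, ‖a n‖⁻¹ • a n) ∈ W := h6.eventually (hW.op _ hy)
  refine mem_closure_of_tendsto (b := atTop) (f := fun n => ac O (γ n)
    ((m.Z (t n) v).1, -((‖a n‖⁻¹ * (t n)⁻¹) • lg ((m.Z (t n) v).1, y)))) ?_ ?_
  · refine hγ.congr_dist ?_
    have h8 : Tendsto (fun n => |‖a n‖⁻¹ - 1| * ‖a n‖ + |(t n)⁻¹| * ‖lg (y, v.1)‖) atTop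
        (𝓝 0) := by
      have h := (((h3.sub_const 1).abs).mul h2).add
        (((tendsto_inv_atTop_zero.comp ht).abs).mul_const ‖lg (y, v.1)‖)
      simpa using h
    refine squeeze_zero' (Eventually.of_forall fun _ => dist_nonneg) ?_ h8
    filter_upwards [h5] with n hn
    have h := RLA.close ho hj hl y v hn ‖a n‖⁻¹
    rw [ac, ac, Prod.dist_eq, dist_self, dist_eq_norm, ← map_sub, LinearIsometryEquiv.norm_map,
      max_eq_right (norm_nonneg _)]
    exact h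
  · filter_upwards [h4, h5, h7] with n hn hn' hw
    refine hW.gr _ _ ?_
    have hc : ‖a n‖⁻¹ * (t n)⁻¹ ≠ 0 := mul_ne_zero (inv_ne_zero hn) (inv_ne_zero hn')
    rw [← RLA.arrive hj hl y _ hc]
    refine hW.fl _ _ ?_
    rw [← smul_smul]
    exact hw

end Pool.Agent.MP_3ee8cb_gt.D3RK
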