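import Pool.Agent.MP_3ee8cb_gt.D3RK.Spec
import Pool.Agent.MP_3ee8cb_gt.D3NP.RLK2

/-! Nonpositive curvature: the link with the equation in the plane, with a uniform constant. -/

namespace Pool.Agent.MP_3ee8cb_gt.D3RK

open Matrix Filter Topology D3 D3.LK
open D3OD (OB co pv mat Sol OrbA co_pv pv_perp pv_co inner_co mat_mulVec)
open D3NP (At At2 Dt)
open scoped RealInnerProductSpace

noncomputable section

namespace RLK0

variable {m m' : MF} {z : V × V} {β β' : ℝ → OB} {φ : V × V → V × V}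

theorem orbA (uq : D3OD.S_UQ) (o : m.OK) (j : m.Jac) (o' : m'.OK) (j' : m'.Jac) (cf : CF m m' φ)
    (sy : Sy m m' φ) (u : m.Up 0) (u' : m'.Up (0 ^ 2)) {C : ℝ}
    (hC : ∀ z ξ : V × V, ‖z.2‖ = 1 →
      ‖m'.hor (φ z) (fderiv ℝ φ z ξ)‖ + ‖m'.ver (φ z) (fderiv ℝ φ z ξ)‖ ≤
        C * (‖m.hor z ξ‖ + ‖m.ver z ξ‖)) (hz : ‖z.2‖ = 1)
    (F : Fr m z β) (F' : Fr m' (φ z) β') : ∃ kM hh vh,
      OrbA 0 (2 * C ^ 2) kM (kk m' (φ z) β') hh
        (fun t => bV (β t) (β' t) (dH m' φ (m.Z t z))) vh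
        fun t => bV (β t) (β' t) (dV m' φ (m.Z t z)) := by
  have n1 : ∀ t, ‖(m.Z t z).2‖ = 1 := fun t => (j.norm t z).trans hz
  have z0 : z.2 ≠ 0 := fun e => by simp [e] at hz
  have n0 : ∀ t, (m.Z t z).2 ≠ 0 := fun t e => by simpa [e] using n1 t
  have p0 : ∀ t x e, ⟪β' t 0, dH m' φ (m.Z t z) (tv m (m.Z t z) (pv (β t) x) (pv (β t) e))⟫ = 0 ∧
      ⟪β' t 0, dV m' φ (m.Z t z) (tv m (m.Z t z) (pv (β t) x) (pv (β t) e))⟫ = 0 := fun t x e => by
    rw [F'.b0, ← cf.flow t z z0]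
    exact pp_phi o o' cf sy (n0 t) (pp_tv o (F.b0 t) x e)
  refine ⟨_, fun t => bH m (m.Z t z) (β t) (β' t) (dH m' φ (m.Z t z)),
    fun t => bH m (m.Z t z) (β t) (β' t) (dV m' φ (m.Z t z)), cur o j F u, cur o' j' F' u',
    fun i i' h => ?_, fun t x e x' e' => ?_, fun t x e => ?_⟩
  · have p := pp_tv o ((F.b0 0).trans (by rw [o.zero])) (y := z) (i 0) (i' 0)
    have e := uq _ (cur o j F u).cont _ _ _ _ 0 h (sol o j F p)
      (by rw [J0 o, hor_tv o, co_pv]) (by rw [J0' o, ver_tv, co_pv])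
    have e1 : ∀ t, fderiv ℝ φ (m.Z t z) (tv m (m.Z t z) (pv (β t) (i t)) (pv (β t) (i' t))) =
        fderiv ℝ (m'.Z t) (φ z) (fderiv ℝ φ z (tv m z (pv (β 0) (i 0)) (pv (β 0) (i' 0)))) :=
      fun t => by
        rw [← chain o j o' cf z0, (e t).1, (e t).2, pv_co (perp o j F p t).1,
          pv_co (perp o j F p t).2, MF.J, MF.J', tv_eq o]
    simp only [blk, dH, dV, ContinuousLinearMap.comp_apply, e1, cf.flow _ z z0]
    exact sol o' j' F' (pp_phi o o' cf sy z0 p)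
  · simp only [blk, D3OD.om]
    rw [← inner_co (p0 t x e).1, ← inner_co (p0 t x e).2]
    refine (sy.om _ _ _ (n0 t)).trans ?_
    rw [hor_tv o, hor_tv o, ver_tv, ver_tv, inner_pv, inner_pv]
  · have h := hC _ (tv m (m.Z t z) (pv (β t) x) (pv (β t) e)) (n1 t)
    rw [hor_tv o, ver_tv] at h
    simp only [blk, D3OD.n2]
    rw [← inner_co (p0 t x e).1, ← inner_co (p0 t x e).2, ← inner_pv (β t) x, ← inner_pv (β t) e]
    simp only [real_inner_self_eq_norm_sq]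
    have h2 := pow_le_pow_left₀ (by positivity) h 2
    refine le_trans ?_ (h2.trans ?_)
    · rw [add_sq, add_assoc]
      exact add_le_add le_rfl (le_add_of_nonneg_left (by positivity))
    · nlinarith [mul_nonneg (sq_nonneg C) (sq_nonneg (‖pv (β t) x‖ - ‖pv (β t) e‖))]

end RLK0

open D3NP.RLK2 (shift sols radJ at1 at2 at0 ppv) in
theorem rLK0 (uq : D3OD.S_UQ) : SLK0 := by
  intro m m' φ o j o' j' cf u u0 sy
  obtain ⟨C, hC⟩ := cf.bdd
  have u' : m'.Up (0 ^ 2) := by rwa [zero_pow two_ne_zero]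
  refine ⟨2 * C ^ 2, fun z hz => ?_⟩
  replace hz : ‖z.2‖ = 1 := hz
  have z0 : z.2 ≠ 0 := fun e => by simp [e] at hz
  have n1 : ∀ t, ‖(m.Z t z).2‖ = 1 := fun t => (j.norm t z).trans hz
  have n0 : ∀ t, (m.Z t z).2 ≠ 0 := fun t e => by simpa [e] using n1 t
  obtain ⟨β, F⟩ := exists_fr j hz
  obtain ⟨β', F'⟩ := exists_fr (z := φ z) j' ((cf.norm z z0).trans hz)
  obtain ⟨kM, hh, vh, O⟩ := RLK0.orbA uq o j o' j' cf sy u u' (fun z ξ h => (hC z ξ h).1) hz F F'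
  have p : ∀ s e, ⟪(m.Z s z).2, pv (β s) e⟫ = 0 := fun s e => by rw [← F.b0, pv_perp]
  have G : ∀ s, Fr m' (φ (m.Z s z)) fun u => β' (u + s) := fun s => by
    rw [cf.flow s z z0]
    exact shift o' F' s
  have q := fun s e => pp_phi o o' cf sy (n0 s) (ppv (m := m) (p s e))
  refine ⟨kM, _, hh, _, vh, _,
    fun s t => mat (β s) (β' t) (At m' (fr φ (m.Z s z).1) (t - s) (m.Z s z).2),
    fun s t => mat (β s) (β' t) (At2 m' (fr φ (m.Z s z).1) (t - s) (m.Z s z).2), O,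
    ⟨fun s e => ?_, fun s => ?_, fun s => ?_⟩, fun s => ⟨β s, F.b0 s, fun t => ⟨?_, fun x => ?_⟩⟩⟩
  · have h := sols (sol o' j' (G s) (q s e)) s
    have k : (fun t => kk m' (φ (m.Z s z)) (fun u => β' (u + s)) (t - s)) = kk m' (φ z) β' := by
      funext t
      simp only [kk, cf.flow s z z0, ← o'.add, sub_add_cancel]
    rw [k] at h
    simp only [sub_add_cancel] at h
    simp only [mat_mulVec, at1 cf (n0 s) _ (p s e), at2 cf (n0 s)]
    exact h
  · refine Matrix.toLin'.injective (LinearMap.ext fun e => ?_)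
    simp only [toLin'_apply, bV, mat_mulVec, at1 cf (n0 s) _ (p s e), sub_self, J0 o']
    rfl
  · refine Matrix.toLin'.injective (LinearMap.ext fun e => ?_)
    simp only [toLin'_apply, bV, mat_mulVec, at2 cf (n0 s), sub_self, J0' o']
    rfl
  · obtain ⟨ε, h1, h2⟩ := D3OD.det_mat (β s) (β' t)
    have e : ∀ f g : V →L[ℝ] V, f + (0 : ℝ) • g = f := fun f g => by
      ext1 v
      rw [_root_.add_apply, _root_.smul_apply, zero_smul, add_zero]
    rw [Dt, e, h2 _ (by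
      rw [F.b0, F'.b0, at2 cf (n0 s), radial cf (n0 s), radJ o' j', cf.flow s z z0, ← o'.add,
        sub_add_cancel]), abs_mul, h1, one_mul]
  · have h2 := (perp o' j' (G s) (q s x) (t - s)).1
    simp only [sub_add_cancel] at h2
    rw [← at1 cf (n0 s) _ (p s _)] at h2
    refine ⟨?_, fun h => ?_, fun h => ?_⟩
    · rw [qq, inner_co h2, qf, mat_mulVec, mat_mulVec]
    · rw [mat_mulVec, h]
      funext i
      simp [co]
    · rw [mat_mulVec] at h
      rw [← pv_co h2, h]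
      simp [pv]

end

end Pool.Agent.MP_3ee8cb_gt.D3RK
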