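import Pool.Agent.MP_3ee8cb_gt.D3RK.RSpec
import Pool.Agent.MP_3ee8cb_gt.D3WI.Base

/-! Every unit vector is nonwandering. -/

namespace Pool.Agent.MP_3ee8cb_gt.D3RK

open Set Filter Topology MeasureTheory D3
open D3.SI (ac)

namespace RNW

/-- An invariant distance on tangent vectors. -/
noncomputable def rho (m : MF) (lg : V × V → V) (z w : V × V) : ℝ :=
  ‖lg (z.1, w.1)‖ + ‖lg ((m.Z 1 z).1, (m.Z 1 w).1)‖

variable {m : MF} {lg : V × V → V}

theorem nn (z w : V × V) : 0 ≤ rho m lg z w := add_nonneg (norm_nonneg _) (norm_nonneg _)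

theorem tri (H : Hd m lg) (x y z : V × V) : rho m lg x z ≤ rho m lg x y + rho m lg y z := by
  have h1 := H.had.tri x.1 y.1 z.1
  have h2 := H.had.tri (m.Z 1 x).1 (m.Z 1 y).1 (m.Z 1 z).1
  unfold rho
  linarith

theorem self (H : Hd m lg) (z : V × V) : rho m lg z z = 0 := by
  simp only [rho, D3WI.lg_self H.ok H.jac H.had, norm_zero, add_zero]

theorem cZ (H : Hd m lg) : Continuous (m.Z 1) :=
  H.ok.cZ.continuous.comp (continuous_const.prodMk continuous_id)

theorem cont (H : Hd m lg) (w : V × V) :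
    (Continuous fun q => rho m lg q w) ∧ Continuous fun q => rho m lg w q := by
  have h1 := H.had.c1.continuous
  have h2 := cZ H
  unfold rho
  exact ⟨by fun_prop, by fun_prop⟩

theorem near (H : Hd m lg) (z : V × V) {B : Set (V × V)} (hB : B ∈ 𝓝 z) :
    ∃ ε, 0 < ε ∧ ∀ w, rho m lg z w < ε → w ∈ B := by
  have h1 := H.had.c1.continuous
  have h2 := cZ H
  let P : V × V → V × V := fun b =>
    ((m.Z 1 (z.1, b.1)).1, lg ((m.Z 1 (z.1, b.1)).1, (m.Z 1 ((m.Z 1 z).1, b.2)).1))
  have hP : Continuous P := by fun_prop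
  have e : ∀ w : V × V, P (lg (z.1, w.1), lg ((m.Z 1 z).1, (m.Z 1 w).1)) = w := fun w => by
    simp only [P, H.had.ex]
    exact Prod.ext rfl (H.had.xe w.1 w.2)
  have e0 := e z
  rw [D3WI.lg_self H.ok H.jac H.had, D3WI.lg_self H.ok H.jac H.had] at e0
  obtain ⟨ε, h0, h⟩ := Metric.mem_nhds_iff.1 (hP.continuousAt.preimage_mem_nhds (e0.symm ▸ hB))
  refine ⟨ε, h0, fun w hw => ?_⟩
  rw [← e w]
  refine h ?_
  rw [Metric.mem_ball, Prod.dist_eq, dist_zero_right, dist_zero_right]
  have k1 := norm_nonneg (lg (z.1, w.1))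
  have k2 := norm_nonneg (lg ((m.Z 1 z).1, (m.Z 1 w).1))
  unfold rho at hw
  exact max_lt (by linarith) (by linarith)

theorem bump {f : ℝ → ℝ} {ε k S : ℝ} (h0 : ∀ t, 0 ≤ f t) (h1 : ∀ t, f t ≤ ε) (hS : 0 ≤ S)
    (h : ∀ t t', 0 < f t → 0 < f t' → t' - t ≤ k) : ∫ t in (0 : ℝ)..S, f t ≤ 2 * |k| * ε := by
  have he : 0 ≤ ε := (h0 0).trans (h1 0)
  by_cases hp : ∃ t, 0 < f t
  · obtain ⟨s, hs⟩ := hp
    have gi : Integrable ((Icc (s - |k|) (s + |k|)).indicator fun _ => ε) :=
      (integrableOn_const (by simp) (by simp)).integrable_indicator measurableSet_Icc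
    have g0 : ∀ t, 0 ≤ (Icc (s - |k|) (s + |k|)).indicator (fun _ => ε) t := fun t =>
      indicator_nonneg (fun _ _ => he) t
    rw [intervalIntegral.integral_of_le hS]
    refine (integral_mono_of_nonneg (Eventually.of_forall h0) gi.integrableOn
      (Eventually.of_forall fun t => ?_)).trans
      ((setIntegral_le_integral gi (Eventually.of_forall g0)).trans_eq ?_)
    · rcases (h0 t).eq_or_lt with e | e
      · exact e.symm.trans_le (g0 t)
      · have k1 := h s t hs e
        have k2 := h t s e hs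
        have k3 := le_abs_self k
        rw [indicator_of_mem (show t ∈ Icc (s - |k|) (s + |k|) from ⟨by linarith, by linarith⟩)]
        exact h1 t
    · rw [integral_indicator_const _ measurableSet_Icc, Real.volume_real_Icc_of_le
        (by linarith [abs_nonneg k]), smul_eq_mul]
      ring
  · have e : f = fun _ => 0 := funext fun t => le_antisymm (not_lt.1 fun k => hp ⟨t, k⟩) (h0 t)
    rw [e, intervalIntegral.integral_zero]
    positivity

end RNW

open RNW in
theorem rNW : R_NW := by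
  intro sint lga m lg Λ _ _ O H A fd z hz B hB k
  by_contra no
  have L := lga m lg Λ O H A
  have fl : ∀ γ t w, m.Z t (ac O γ w) = ac O γ (m.Z t w) := A.flow
  have mul : ∀ γ δ w, ac O γ (ac O δ w) = ac O (γ * δ) w := fun γ δ w =>
    Prod.ext (mul_smul γ δ w.1).symm (A.mul γ δ w.1 w.2).symm
  have one : ∀ w, ac O 1 w = w := fun w => Prod.ext (one_smul _ _) (A.one _ _)
  have inv : ∀ γ x y, rho m lg (ac O γ x) (ac O γ y) = rho m lg x y := fun γ x y => by
    rw [rho, fl, fl]
    simp only [ac, L γ, LinearIsometryEquiv.norm_map, rho]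
  obtain ⟨ε, h0, hε⟩ := near H z hB
  let h : V × V → ℝ := fun w => ⨅ γ, rho m lg z (ac O γ w)
  have bd : ∀ w, BddBelow (range fun γ => rho m lg z (ac O γ w)) := fun w =>
    ⟨0, forall_mem_range.2 fun _ => nn _ _⟩
  have hn : ∀ w, 0 ≤ h w := fun w => le_ciInf fun _ => nn _ _
  have lip : ∀ w w', h w' - rho m lg w w' ≤ h w := fun w w' => le_ciInf fun γ => by
    have k1 : h w' ≤ _ := ciInf_le (bd w') γ
    have k2 := tri H z (ac O γ w) (ac O γ w')
    rw [inv] at k2
    linarith
  have hc : Continuous h := continuous_iff_continuousAt.2 fun w => by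
    have c1 : Continuous fun w' => h w - rho m lg w' w := continuous_const.sub (cont H w).1
    have c2 : Continuous fun w' => h w + rho m lg w w' := continuous_const.add (cont H w).2
    have t1 := c1.tendsto w
    have t2 := c2.tendsto w
    rw [self H, sub_zero] at t1
    rw [self H, add_zero] at t2
    exact tendsto_of_tendsto_of_tendsto_of_le_of_le t1 t2 (fun w' => lip w' w)
      fun w' => sub_le_iff_le_add.1 (lip w w')
  have hi : ∀ δ w, h (ac O δ w) = h w := fun δ w => by
    simp only [h, mul]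
    exact (Equiv.mulRight δ).iInf_comp (g := fun γ => rho m lg z (ac O γ w))
  have pos : ∀ w, 0 < max 0 (ε - h w) → ∃ γ, ac O γ w ∈ B := fun w hw => by
    obtain ⟨γ, hγ⟩ := exists_lt_of_ciInf_lt (sub_pos.1 ((lt_max_iff.1 hw).resolve_left
      (lt_irrefl _)))
    exact ⟨γ, hε _ hγ⟩
  have key := sint m Λ O (fun _ => 0) (fun w => max 0 (ε - h w)) (2 * |k| * ε) H.ok H.jac A fd
    continuousOn_const (continuous_const.max (continuous_const.sub hc)).continuousOn
    (fun γ w _ => ⟨rfl, congrArg (fun r => max 0 (ε - r)) (hi γ w)⟩)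
    (fun w hw => ⟨le_max_left _ _, fun S hS => ?_⟩) (fun _ => by simp [sph]) z hz
  · have k1 : h z ≤ _ := ciInf_le (bd z) 1
    rw [one, self H] at k1
    have k2 := le_max_right 0 (ε - h z)
    linarith
  · simp only [zero_sub, intervalIntegral.integral_neg, neg_le_neg_iff]
    refine bump (fun _ => le_max_left _ _) (fun t => max_le h0.le (sub_le_self _ (hn _))) hS
      fun t t' k1 k2 => not_lt.1 fun k3 => ?_
    obtain ⟨γ, hγ⟩ := pos _ k1
    obtain ⟨δ, hδ⟩ := pos _ k2
    refine no ⟨_, ⟨hγ, ?_⟩, t' - t, δ * γ⁻¹, k3, ?_⟩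
    · exact ((O γ _).norm_map _).trans ((H.jac.norm t w).trans hw)
    · rw [fl, mul, inv_mul_cancel_right, ← H.ok.add, sub_add_cancel]
      exact hδ

end Pool.Agent.MP_3ee8cb_gt.D3RK
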