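import Pool.Agent.MP_3ee8cb_gt.D3RK.OSpec
import Pool.Agent.MP_3ee8cb_gt.D3NP.RTWO
import Pool.Agent.MP_3ee8cb_gt.D3NP.RBS

/-! Row PA0: the derivatives with respect to both times. -/

namespace Pool.Agent.MP_3ee8cb_gt.D3RK

open Matrix Set D3OD

open D3NP.RTWO in
theorem rPA0 : R_PA0 := by
  intro h1 h2 h3 C kM kN hh hv vh vv A A' ho ht
  obtain ⟨P, P2, hP, p0, p1⟩ := h1 kM ho.cM.cont 0 1 0
  obtain ⟨Q, Q2, hQ, q0, q1⟩ := h1 kM ho.cM.cont 0 0 1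
  have hi := inv h1 h2 h3 ho.cM hP hQ p0 p1 q0 q1
  have hL : ∀ {R R2 : ℝ → M}, MSol kM R R2 → MSol kN (fun t => hh t * R t + hv t * R2 t)
      (fun t => vh t * R t + vv t * R2 t) := fun hR e => by
    simp only [add_mulVec, ← mulVec_mulVec]
    exact ho.map _ _ (hR e)
  have hJ := fun (s : ℝ) (x e : V) => ho.map _ _ (comb hP hQ
    ((Q2 s)ᵀ *ᵥ x - (Q s)ᵀ *ᵥ e) ((P s)ᵀ *ᵥ e - (P2 s)ᵀ *ᵥ x))
  have hA := fun (s : ℝ) (e : V) => h2 kN ho.cN.cont _ _ _ _ s (ht.sol s e) (hJ s 0 e)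
    (by rw [(hi s 0 e).1, (hi s 0 e).2, ht.a0, mulVec_zero, zero_add])
    (by rw [(hi s 0 e).1, (hi s 0 e).2, ht.a1, mulVec_zero, zero_add])
  have eA : ∀ s t, A s t = (hh t * Q t + hv t * Q2 t) * (P s)ᵀ -
      (hh t * P t + hv t * P2 t) * (Q s)ᵀ := fun s t => ext_mv fun e => by
    rw [(hA s e t).1, ← split, mulVec_zero, zero_add]
  have eA' : ∀ s t, A' s t = (vh t * Q t + vv t * Q2 t) * (P s)ᵀ -
      (vh t * P t + vv t * P2 t) * (Q s)ᵀ := fun s t => ext_mv fun e => by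
    rw [(hA s e t).2, ← split, mulVec_zero, zero_add]
  refine ⟨fun s t => (hh t * P t + hv t * P2 t) * (Q2 s)ᵀ - (hh t * Q t + hv t * Q2 t) * (P2 s)ᵀ,
    fun s t => (vh t * P t + vv t * P2 t) * (Q2 s)ᵀ - (vh t * Q t + vv t * Q2 t) * (P2 s)ᵀ,
    fun s t i l => ?_, fun s t i l => ?_, fun s t x e x' e' => ?_⟩
  · have h := two (md (hL hQ) t) (md hP s) (md (hL hP) t) (md hQ s) i l
    simp only [eA, eA', Matrix.sub_apply, neg_sub] at h ⊢
    exact h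
  · have h := two (D3NP.RBS.msol (hL hQ) t).2 (md hP s) (D3NP.RBS.msol (hL hP) t).2 (md hQ s) i l
    rw [Matrix.mul_assoc (kN t), Matrix.mul_assoc (kN t), ← Matrix.mul_sub, ← eA] at h
    simp only [eA', Matrix.sub_apply, neg_sub] at h ⊢
    exact h
  · rw [eA, eA', split, split, split, split]
    have h := (h3 kN ho.cN.symm _ _ _ _ (hJ s x e) (hJ s x' e')).1 t s
    simp only [(hi s _ _).1, (hi s _ _).2] at h
    rw [h, ho.symp]

end Pool.Agent.MP_3ee8cb_gt.D3RK
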