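import Pool.Agent.MP_3ee8cb_gt.D3RK.OSpec
import Pool.Agent.MP_3ee8cb_gt.D3OD.RLOW
import Pool.Agent.MP_3ee8cb_gt.D3OD.RPOSV

/-! Nonpositive curvature: the form is definite far from the diagonal. -/

namespace Pool.Agent.MP_3ee8cb_gt.D3RK

open Matrix Set D3OD RPOSV

namespace RPOS0

theorem core (hOM : S_OM) (hG : S_GROW) {kM kN : ℝ → M} {j j' J J' : ℝ → V} {c s t : ℝ}
    (cM : Cur 0 kM) (cN : Cur 0 kN) (hj : Sol kM j j') (hJ : Sol kN J J') (c0 : 0 ≤ c)
    (h0 : j s = 0) (h1 : j' s ≠ 0) (lo : ∀ r, n2 (j r) (j' r) ≤ c * n2 (J r) (J' r))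
    (up : n2 (J s) (J' s) ≤ c * (j' s ⬝ᵥ j' s)) (ht : s + (2 + 2 * c) ≤ t) :
    0 < J t ⬝ᵥ J' t := by
  by_contra! hq
  obtain ⟨-, a1, a2⟩ := hOM kM cM.symm j j' j j' hj hj
  obtain ⟨-, b1, b2⟩ := hOM kN cN.symm J J' J J' hJ hJ
  have E := self_pos h1
  set e := j' s ⬝ᵥ j' s
  have g1 : ∀ r, s ≤ r → e * (r - s) ≤ j r ⬝ᵥ j' r := fun r hr => by
    have := grow a2 (fun u hu => (by
      linarith [hG kM cM j j' hj s h0 u hu, cM.low u (j u)] : e ≤ _)) hr
    simpa [h0] using this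
  have g2 : ∀ r, s ≤ r → e * (r - s) ^ 2 ≤ j r ⬝ᵥ j r := fun r hr => by
    have := grow (a := 0) (fun u => (a1 u).sub
      ((((hasDerivAt_id u).sub_const s).pow 2).const_mul e))
      (fun u hu => by
        simp only [Nat.cast_ofNat, id, Nat.add_one_sub_one, pow_one]
        linarith [g1 u hu]) hr
    simpa [h0] using this
  have k : ∀ r, J' r ⬝ᵥ J' r ≤ J' r ⬝ᵥ J' r + J r ⬝ᵥ kN r *ᵥ J r := fun r => by
    linarith [cN.low r (J r)]
  have mq : Monotone fun r => J r ⬝ᵥ J' r := monotone_of_deriv_nonneg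
    (fun r => (b2 r).differentiableAt) fun r => by
      rw [(b2 r).deriv]
      exact (self_nonneg _).trans (k r)
  have aJ : AntitoneOn (fun r => J r ⬝ᵥ J r) (Iic t) := antitoneOn_of_deriv_nonpos (convex_Iic t)
    (fun r _ => (b1 r).continuousAt.continuousWithinAt)
    (fun r _ => (b1 r).differentiableAt.differentiableWithinAt) fun r hr => by
      rw [(b1 r).deriv]
      linarith [mq (mem_Iic.1 (interior_subset hr))]
  obtain ⟨r, ⟨r1, r2⟩, hr⟩ := exists_hasDerivAt_eq_slope (fun r => J r ⬝ᵥ J' r) _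
    (by linarith : t - 1 < t) (fun r _ => (b2 r).continuousAt.continuousWithinAt) fun r _ => b2 r
  rw [sub_sub_cancel, div_one] at hr
  have p1 := aJ (by linarith : s ≤ t) r2.le (by linarith : s ≤ r)
  have p2 := mq (by linarith : s ≤ t - 1)
  have p3 := dot_ge (J s) (J' s)
  have p4 : n2 (J r) (J' r) ≤ 3 / 2 * (c * e) := by
    simp only [n2] at up p1 p2 p3 ⊢
    linarith [k r, self_nonneg (J' s)]
  have p5 := (lo r).trans (mul_le_mul_of_nonneg_left p4 c0)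
  have p6 : (1 + 2 * c) ^ 2 ≤ (r - s) ^ 2 := pow_le_pow_left₀ (by linarith) (by linarith) 2
  have p7 := (mul_le_mul_of_nonneg_left p6 E.le).trans (g2 r (by linarith))
  simp only [n2] at p5
  nlinarith [self_nonneg (j' r), mul_nonneg c0 E.le, mul_nonneg (mul_nonneg c0 c0) E.le]

theorem low {C : ℝ} {kM kN hh hv vh vv : ℝ → M} (O : OrbA 0 C kM kN hh hv vh vv) (t : ℝ)
    (x e : V) : n2 x e ≤ |C| * n2 (hh t *ᵥ x + hv t *ᵥ e) (vh t *ᵥ x + vv t *ᵥ e) := by
  have h1 := O.symp t x e (-e) x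
  have h2 := RLOW.om_sq (hh t *ᵥ x + hv t *ᵥ e) (vh t *ᵥ x + vv t *ᵥ e)
    (hh t *ᵥ (-e) + hv t *ᵥ x) (vh t *ᵥ (-e) + vv t *ᵥ x)
  have h3 := O.up t (-e) x
  rw [RLOW.n2_rot] at h3
  rw [h1, RLOW.om_rot] at h2
  have p := RLOW.n2_nonneg (hh t *ᵥ x + hv t *ᵥ e) (vh t *ᵥ x + vv t *ᵥ e)
  rcases (RLOW.n2_nonneg x e).eq_or_lt with z | z
  · rw [← z]
    exact mul_nonneg (abs_nonneg C) p
  · have := h2.trans (mul_le_mul_of_nonneg_left
      (h3.trans (mul_le_mul_of_nonneg_right (le_abs_self C) z.le)) p)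
    exact le_of_mul_le_mul_right (by linarith) z

theorem n2m (x e : V) : n2 x ((-1 : ℝ) • e) = n2 x e := by simp [n2]

end RPOS0

open RPOS0

theorem rPOS0 : R_POS0 := by
  intro hEX hUQ hOM hG C
  refine ⟨2 + 2 * |C|, by positivity, fun kM kN hh hv vh vv A A' O w => ?_⟩
  have cN : Cur 0 kN := by simpa using O.cN
  have key : ∀ s e, ∃ j j', Sol kM j j' ∧ j s = 0 ∧ j' s = e ∧
      (∀ r, n2 (j r) (j' r) ≤ |C| * n2 (A s r *ᵥ e) (A' s r *ᵥ e)) ∧
      n2 (A s s *ᵥ e) (A' s s *ᵥ e) ≤ |C| * (e ⬝ᵥ e) := fun s e => by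
    obtain ⟨j, j', hj, h0, h1⟩ := hEX kM O.cM.cont s 0 e
    have u := hUQ kN cN.cont _ _ _ _ s (w.sol s e) (O.map j j' hj) (by simp [w.a0, h0, h1])
      (by simp [w.a1, h0, h1])
    refine ⟨j, j', hj, h0, h1, fun r => ?_, ?_⟩
    · rw [(u r).1, (u r).2]
      exact low O r _ _
    · have := O.up s 0 e
      rw [w.a0, w.a1]
      simp only [mulVec_zero, zero_add, n2, dotProduct_zero] at this ⊢
      exact this.trans (mul_le_mul_of_nonneg_right (le_abs_self C) (self_nonneg e))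
  refine ⟨fun s t e he ht => ?_, fun s t e he ht => ?_⟩
  · obtain ⟨j, j', hj, h0, rfl, lo, up⟩ := key s e
    exact core hOM hG O.cM cN hj (w.sol s _) (abs_nonneg C) h0 he lo up ht
  · obtain ⟨j, j', hj, h0, rfl, lo, up⟩ := key s e
    have := core hOM hG (s := -s) (t := -t) (by simpa using Gen.cur O.cM (-1))
      (by simpa using Gen.cur cN (-1)) (Gen.sol hj (-1)) (Gen.sol (w.sol s (j' s)) (-1))
      (abs_nonneg C) (by simpa using h0) (by simpa using he)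
      (fun r => by simpa only [n2m] using lo _) (by
        simpa only [n2m, neg_mul, one_mul, neg_neg, neg_smul, one_smul, neg_dotProduct_neg, n2]
          using up) (by linarith)
    simpa only [qf, neg_mul, one_mul, neg_neg, neg_smul, one_smul, dotProduct_neg, neg_pos]
      using this

end Pool.Agent.MP_3ee8cb_gt.D3RK
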