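import Pool.Agent.MP_3ee8cb_gt.D3RK.Spec

/-! Rank one in coordinates gives a regular vector in frames. -/

namespace Pool.Agent.MP_3ee8cb_gt.D3RK

open D3
open scoped RealInnerProductSpace

theorem rRK : SRK := by
  intro h C Λ _ _ Ψ _ _ m ok jac lk ⟨p, hp⟩
  set z : V × V := (p.1.1, m.S p.1.1 p.1.2) with hz
  have n2 : ⟪z.2, z.2⟫ = 1 := by
    rw [← lk.orth p.1.1, hz]
    simp only [ok.RS]
    exact p.2
  have n1 : ‖z.2‖ = 1 := by
    rw [real_inner_self_eq_norm_sq] at n2
    nlinarith [norm_nonneg z.2]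
  refine ⟨z, n1, fun η hη => ?_⟩
  have e1 : ∀ t, (m.Z t z).1 = (Ψ t p).1.1 := fun t => by rw [hz, lk.flow]
  have e2 : ∀ t, m.R (m.Z t z).1 (m.Z t z).2 = (Ψ t p).1.2 := fun t => by
    rw [hz, lk.flow]
    exact ok.RS _ _
  have k0 : ∀ t, m.K (m.Z t z).1 (m.J z η t) (m.Z t z).2 (m.Z t z).2 = 0 := fun t => by
    have a := jac.d2 z η t
    rw [show m.J' z η = fun _ => (0 : V) from funext hη] at a
    have b := a.unique (hasDerivAt_const t (0 : V))
    simpa using b
  obtain ⟨r, hr⟩ := hp (fun t => m.R (m.Z t z).1 (m.J z η t)) (fun t => by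
    have a : HasDerivAt (fun s => (m.Z s z).1) (m.R (m.Z t z).1 (m.Z t z).2) t :=
      (ContinuousLinearMap.fst ℝ V V).hasFDerivAt.comp_hasDerivAt t (ok.ode z t)
    have b := (((ok.cR.differentiable (by norm_num)) _).hasFDerivAt.comp_hasDerivAt t
      a).clm_apply (jac.d1 z η t)
    refine b.congr_deriv ?_
    rw [hη, zero_sub, map_neg, MF.w]
    simp only [Function.comp_apply]
    rw [lk.conn, ok.RS, e2, ← e1]
    abel) (fun t => by
    have a := congrArg (m.R (m.Z t z).1) (k0 t)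
    rw [lk.curv, ok.RS, map_zero, e2] at a
    rw [← e1]
    exact a)
  have j0 : m.J z η 0 = m.hor z η := by
    rw [MF.J, show m.Z 0 = id from funext ok.zero, fderiv_id]
    rfl
  have e3 : m.hor z η = r • z.2 := by
    have a := congrArg (m.S z.1) hr
    rw [ok.zero, ok.SR, j0, map_smul] at a
    exact a
  rw [e3, real_inner_smul_right, n2, mul_one]

end Pool.Agent.MP_3ee8cb_gt.D3RK
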