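import Pool.Agent.MP_3ee8cb_gt.D3RK.RSpec
import Pool.Agent.MP_3ee8cb_gt.D3LN.Al
import Pool.Agent.MP_3ee8cb_gt.D3JC.Flow

/-! The regular vectors form an invariant open set. -/

namespace Pool.Agent.MP_3ee8cb_gt.D3RK

open Set Filter Topology D3
open D3.SI (ac)
open scoped RealInnerProductSpace

namespace RRO

variable {m : MF}

/-- There is a unit normal parallel Jacobi field. -/
def N (m : MF) (z : V × V) : Prop :=
  ∃ η, (∀ t, m.J' z η t = 0) ∧ ⟪z.2, m.hor z η⟫ = 0 ∧ ‖m.hor z η‖ = 1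

theorem reg_iff (h : m.OK) {z : V × V} (hz : ‖z.2‖ = 1) : Reg m z ↔ ¬N m z := by
  refine ⟨fun r ⟨η, h1, h2, h3⟩ => ?_, fun n η h1 => by_contra fun ne => n ?_⟩
  · rw [r η h1, h2, zero_smul, norm_zero] at h3
    exact zero_ne_one h3
  · have g0 := norm_ne_zero_iff.2 (sub_ne_zero.2 ne)
    have e : m.hor z (m.vf z) = z.2 := h.SR _ _
    refine ⟨‖m.hor z η - ⟪z.2, m.hor z η⟫ • z.2‖⁻¹ • (η - ⟪z.2, m.hor z η⟫ • m.vf z),
      fun t => ?_, ?_, ?_⟩
    · have e1 : m.ver (m.Z t z) (m.vf (m.Z t z)) = 0 := by simp [MF.ver, MF.vf]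
      have e2 := h1 t
      rw [MF.J'] at e2 ⊢
      simp only [map_smul, map_sub, D3JC.dZ_vf h, e1, e2, smul_zero, sub_zero]
    · rw [map_smul, map_sub, map_smul, e, inner_smul_right, inner_sub_right, inner_smul_right,
        real_inner_self_eq_norm_sq, hz, one_pow, mul_one, sub_self, mul_zero]
    · rw [map_smul, map_sub, map_smul, e, norm_smul, norm_inv, norm_norm, inv_mul_cancel₀ g0]

theorem shift (h : m.OK) (hj : m.Jac) (s : ℝ) {z : V × V} (n : N m z) : N m (m.Z s z) := by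
  obtain ⟨η, h1, h2, h3⟩ := n
  have v0 : m.ver z η = 0 := (Dia.J_zero h z η).2 ▸ h1 0
  refine ⟨fderiv ℝ (m.Z s) z η, fun t => ?_, ?_, ?_⟩
  · have e : m.Z (t + s) = m.Z t ∘ m.Z s := funext (h.add t s)
    have e2 := h1 (t + s)
    rw [MF.J', e, fderiv_comp _ (Dia.dZ h t _) (Dia.dZ h s _)] at e2
    exact e2
  · have := Dia.tan h hj z η s
    rwa [h2, v0, inner_zero_right, mul_zero, add_zero] at this
  · have d : ∀ t, HasDerivAt (m.J z η) (-m.w z t (m.J z η t)) t := fun t => by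
      have := hj.d1 z η t
      rwa [h1, zero_sub] at this
    have := D3JC.par_inner h z d d s
    rw [(Dia.J_zero h z η).1, real_inner_self_eq_norm_sq, real_inner_self_eq_norm_sq,
      sq_eq_sq₀ (norm_nonneg _) (norm_nonneg _), h3] at this
    exact this

theorem move {Λ : Type} [Group Λ] [MulAction Λ V] {O : Λ → V → V ≃ₗᵢ[ℝ] V} (h : m.OK)
    (A : Act m Λ O) (γ : Λ) {z : V × V} (n : N m z) : N m (ac O γ z) := by
  obtain ⟨η, h1, h2, h3⟩ := n
  have d : Differentiable ℝ (ac O γ) := (A.c1 γ).differentiable one_ne_zero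
  have eh : m.hor (ac O γ z) (fderiv ℝ (ac O γ) z η) = O γ z.1 (m.hor z η) := A.hor γ z η
  refine ⟨fderiv ℝ (ac O γ) z η, fun t => ?_, ?_, ?_⟩
  · have e : m.Z t ∘ ac O γ = ac O γ ∘ m.Z t := funext (A.flow γ t)
    have e1 := congrArg (fun f => fderiv ℝ f z η) e
    simp only [fderiv_comp _ (Dia.dZ h t _) (d _), fderiv_comp _ (d _) (Dia.dZ h t _),
      ContinuousLinearMap.comp_apply] at e1
    have e2 : m.Z t (ac O γ z) = ac O γ (m.Z t z) := A.flow γ t z
    have e3 : m.ver (ac O γ (m.Z t z)) (fderiv ℝ (ac O γ) (m.Z t z) (fderiv ℝ (m.Z t) z η)) =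
        O γ (m.Z t z).1 (m.J' z η t) := A.ver γ _ _
    rw [MF.J', e1, e2, e3, h1, map_zero]
  · rw [eh, ← h2]
    exact (O γ z.1).inner_map_map _ _
  · rw [eh, LinearIsometryEquiv.norm_map, h3]

theorem cont (h : m.OK) (t : ℝ) :
    Continuous fun p : (V × V) × V => m.J' p.1 (LN.mk m p.1 (p.2, 0)) t := by
  have cR := h.cR.continuous
  have co := h.com.continuous
  have c1 : Continuous fun p : (V × V) × V => m.R p.1.1 p.2 :=
    (cR.comp continuous_fst.fst).clm_apply continuous_snd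
  have c2 : Continuous fun p : (V × V) × V => LN.mk m p.1 (p.2, 0) :=
    c1.prodMk (continuous_const.sub
      (((co.comp continuous_fst.fst).clm_apply c1).clm_apply continuous_fst.snd))
  have c3 : Continuous fun p : (V × V) × V => fderiv ℝ (m.Z t) p.1 (LN.mk m p.1 (p.2, 0)) :=
    (((D3JC.cZt h t).continuous_fderiv one_ne_zero).comp continuous_fst).clm_apply c2
  have c4 : Continuous fun p : (V × V) × V => m.Z t p.1 :=
    (D3JC.cZt h t).continuous.comp continuous_fst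
  exact c3.snd.add (((co.comp c4.fst).clm_apply c3.fst).clm_apply c4.snd)

theorem closed (h : m.OK) : IsClosed {z | N m z} := by
  have e : {z | N m z} = Prod.fst '' {p : (V × V) × Metric.sphere (0 : V) 1 |
      (∀ t, m.J' p.1 (LN.mk m p.1 (p.2.1, 0)) t = 0) ∧ ⟪p.1.2, p.2.1⟫ = 0} := by
    ext z
    refine ⟨fun ⟨η, h1, h2, h3⟩ => ⟨(z, ⟨_, mem_sphere_zero_iff_norm.2 h3⟩), ⟨fun t => ?_, h2⟩,
      rfl⟩, ?_⟩
    · have v0 : m.ver z η = 0 := (Dia.J_zero h z η).2 ▸ h1 0
      have := LN.mk_hv h z η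
      rw [v0] at this
      exact (congrArg (fun ζ => m.J' z ζ t) this).trans (h1 t)
    · rintro ⟨⟨w, a⟩, ⟨h1, h2⟩, rfl⟩
      refine ⟨_, h1, ?_, ?_⟩ <;> rw [LN.hor_mk h]
      · exact h2
      · exact mem_sphere_zero_iff_norm.1 a.2
  rw [e]
  refine isClosedMap_fst_of_compactSpace _ (IsClosed.inter ?_ ?_)
  · have c : Continuous fun p : (V × V) × Metric.sphere (0 : V) 1 => (p.1, p.2.1) :=
      continuous_fst.prodMk (continuous_subtype_val.comp continuous_snd)
    have : IsClosed (⋂ t, {p : (V × V) × V | m.J' p.1 (LN.mk m p.1 (p.2, 0)) t = 0}) :=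
      isClosed_iInter fun t => isClosed_eq (cont h t) continuous_const
    rw [← ofPred_forall] at this
    exact this.preimage c
  · exact isClosed_eq (continuous_fst.snd.inner (continuous_subtype_val.comp continuous_snd))
      continuous_const

end RRO

open RRO in
theorem rRO : SRO := by
  intro m lg Λ _ _ O H A
  have h := H.ok
  refine ⟨fun z hz => hz.1, fun z hz => ?_, fun t z hz => ?_, fun γ z hz => ?_⟩
  · have := (closed h).isOpen_compl.mem_nhds ((reg_iff h hz.1).1 hz.2)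
    exact mem_of_superset (inter_mem_nhdsWithin U this) fun w hw => ⟨hw.1, (reg_iff h hw.1).2 hw.2⟩
  · have u : ‖(m.Z t z).2‖ = 1 := (H.jac.norm t z).trans hz.1
    refine ⟨u, (reg_iff h u).2 fun n => (reg_iff h hz.1).1 hz.2 ?_⟩
    have := shift h H.jac (-t) n
    rwa [← h.add, neg_add_cancel, h.zero] at this
  · have u : ‖(ac O γ z).2‖ = 1 := ((O γ z.1).norm_map z.2).trans hz.1
    refine ⟨u, (reg_iff h u).2 fun n => (reg_iff h hz.1).1 hz.2 ?_⟩
    have e : ac O γ⁻¹ (ac O γ z) = z := Prod.ext (inv_smul_smul γ z.1) (by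
      have := A.mul γ⁻¹ γ z.1 z.2
      rw [inv_mul_cancel, A.one] at this
      exact this.symm)
    exact e ▸ move h A γ⁻¹ n

end Pool.Agent.MP_3ee8cb_gt.D3RK
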