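import Pool.Agent.MP_3ee8cb_gt.D3RK.Spec
import Pool.Agent.MP_3ee8cb_gt.D3NP.RSC2

/-! The form on the fronts and the focal times are continuous and invariant. -/

namespace Pool.Agent.MP_3ee8cb_gt.D3RK

open Set Filter Topology D3
open D3.SI (ac)
open scoped RealInnerProductSpace

theorem rSC0 : SSC0 := by
  intro m m' φ Γ Λ _ _ _ _ ρ O O' _ hm' hc _ ha he
  refine ⟨?_, fun γ z hz t e => ?_⟩
  · have f : Continuous fun p : (V × V) × ℝ × V => (p.1, p.2.1) := by fun_prop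
    exact (((D3NP.RSC2.c_At hm' hc.c1).comp f.continuousOn fun _ hp => hp).clm_apply
      continuous_snd.snd.continuousOn).inner
      (((D3NP.RSC2.c_At2 hm' hc.c1).comp f.continuousOn fun _ hp => hp).clm_apply
        continuous_snd.snd.continuousOn)
  · have hz1 : ‖z.2‖ = 1 := hz
    have h0 : z.2 ≠ 0 := fun e => by simp [e] at hz1
    have h := D3NP.RSC2.eqv hm' hc.c1 ha he γ h0 t e
    exact (congrArg₂ (fun x y : V => ⟪x, y⟫) h.1 h.2).trans (LinearIsometryEquiv.inner_map_map _ _ _)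

namespace RSC0

variable {Q : V × V → ℝ → V → ℝ} {τ : V × V → ℝ}

theorem cont (c : ContinuousOn (fun p : (V × V) × ℝ × V => Q p.1 p.2.1 p.2.2) {p | p.1.2 ≠ 0})
    (hom : ∀ z t (r : ℝ) e, Q z t (r • e) = r ^ 2 * Q z t e)
    (neg : ∀ z ∈ U, ∀ t e, t < τ z → ⟪z.2, e⟫ = 0 → e ≠ 0 → Q z t e < 0)
    (neg' : ∀ z ∈ U, ∀ t, τ z < t → ∃ e, ⟪z.2, e⟫ = 0 ∧ 0 < Q z t e) : ContinuousOn τ U := by
  intro z hz
  have hz1 : ‖z.2‖ = 1 := hz
  have h0 : z.2 ≠ 0 := fun e => by simp [e] at hz1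
  have n0 : ∀ w t e, 0 < Q w t e → e ≠ 0 := fun w t e h e0 => by
    have := hom w t 0 e
    rw [zero_smul, ← e0] at this
    simp only [ne_eq, OfNat.ofNat_ne_zero, not_false_eq_true, zero_pow, zero_mul] at this
    exact h.ne' this
  have ca : ∀ t e, ContinuousAt (fun p : (V × V) × ℝ × V => Q p.1 p.2.1 p.2.2) (z, t, e) :=
    fun t e => c.continuousAt ((isOpen_ne.preimage continuous_fst.snd).mem_nhds h0)
  refine tendsto_order.2 ⟨fun a ha => ?_, fun a ha => ?_⟩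
  · obtain ⟨t, h1, h2⟩ := exists_between ha
    have h3 : ∀ᶠ w : V × V in 𝓝 z, ∀ e ∈ Metric.sphere (0 : V) 1, ⟪w.2, e⟫ = 0 → Q w t e < 0 := by
      refine (isCompact_sphere (0 : V) 1).eventually_forall_of_forall_eventually fun e he => ?_
      by_cases h4 : ⟪z.2, e⟫ = 0
      · have h5 : ContinuousAt (fun p : (V × V) × V => Q p.1 t p.2) (z, e) :=
          (ca t e).comp_of_eq (f := fun p : (V × V) × V => (p.1, t, p.2)) (by fun_prop) rfl
        filter_upwards [h5.eventually_lt_const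
          (neg z hz t e h2 h4 fun e0 => by simp [e0] at he)] with p hp _ using hp
      · have h5 : ContinuousAt (fun p : (V × V) × V => ⟪p.1.2, p.2⟫) (z, e) := by fun_prop
        filter_upwards [h5.eventually_ne h4] with p hp h6 using absurd h6 hp
    filter_upwards [mem_nhdsWithin_of_mem_nhds h3, self_mem_nhdsWithin] with w h4 hw
    refine h1.trans_le (not_lt.1 fun h5 => ?_)
    obtain ⟨e, h6, h7⟩ := neg' w hw t h5
    have h8 := norm_ne_zero_iff.2 (n0 w t e h7)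
    have h9 := h4 (‖e‖⁻¹ • e) (by simp [norm_smul, h8]) (by rw [inner_smul_right, h6, mul_zero])
    rw [hom] at h9
    exact absurd h9 (not_lt.2 (by positivity))
  · obtain ⟨t, h1, h2⟩ := exists_between ha
    obtain ⟨e, h3, h4⟩ := neg' z hz t h1
    have h5 : ContinuousAt (fun w : V × V => Q w t (e - ⟪w.2, e⟫ • w.2)) z :=
      (ca t e).comp_of_eq (f := fun w : V × V => (w, t, e - ⟪w.2, e⟫ • w.2)) (by fun_prop)
        (by simp [h3])
    have h6 := h5.eventually_const_lt (u := 0) (by simpa [h3] using h4)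
    filter_upwards [mem_nhdsWithin_of_mem_nhds h6, self_mem_nhdsWithin] with w h7 hw
    have hw1 : ‖w.2‖ = 1 := hw
    refine (not_lt.1 fun h8 => ?_).trans_lt h2
    refine absurd (neg w hw t _ h8 ?_ (n0 w t _ h7)) (not_lt.2 h7.le)
    rw [inner_sub_right, inner_smul_right, real_inner_self_eq_norm_sq, hw1]
    ring

theorem inv {z z' : V × V} (hz : z ∈ U) (hz' : z' ∈ U) (O : V ≃ₗᵢ[ℝ] V) (hO : z'.2 = O z.2)
    (iq : ∀ t e, Q z' t (O e) = Q z t e)
    (hom : ∀ z t (r : ℝ) e, Q z t (r • e) = r ^ 2 * Q z t e)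
    (neg : ∀ z ∈ U, ∀ t e, t < τ z → ⟪z.2, e⟫ = 0 → e ≠ 0 → Q z t e < 0)
    (neg' : ∀ z ∈ U, ∀ t, τ z < t → ∃ e, ⟪z.2, e⟫ = 0 ∧ 0 < Q z t e) : τ z' ≤ τ z := by
  refine not_lt.1 fun h => ?_
  obtain ⟨t, h1, h2⟩ := exists_between h
  obtain ⟨e, h3, h4⟩ := neg' z hz t h1
  have h5 := neg z' hz' t (O e) h2 (by rw [hO, O.inner_map_map, h3]) fun e0 => by
    have h6 := hom z t 0 e
    rw [zero_smul, ← (O.map_eq_zero_iff).1 e0] at h6
    simp only [ne_eq, OfNat.ofNat_ne_zero, not_false_eq_true, zero_pow, zero_mul] at h6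
    exact h4.ne' h6
  rw [iq] at h5
  exact absurd h5 (not_lt.2 h4.le)

theorem inv2 {z z' : V × V} (hz : z ∈ U) (O : V ≃ₗᵢ[ℝ] V) (hO : z'.2 = O z.2)
    (iq : ∀ t e, Q z' t (O e) = Q z t e)
    (hom : ∀ z t (r : ℝ) e, Q z t (r • e) = r ^ 2 * Q z t e)
    (neg : ∀ z ∈ U, ∀ t e, t < τ z → ⟪z.2, e⟫ = 0 → e ≠ 0 → Q z t e < 0)
    (neg' : ∀ z ∈ U, ∀ t, τ z < t → ∃ e, ⟪z.2, e⟫ = 0 ∧ 0 < Q z t e) : τ z' = τ z := by
  have hz1 : ‖z.2‖ = 1 := hz
  have hz' : z' ∈ U := by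
    change ‖z'.2‖ = 1
    rw [hO, O.norm_map, hz1]
  exact le_antisymm (inv hz hz' O hO iq hom neg neg') (inv hz' hz O.symm (by simp [hO])
    (fun t e => by rw [← iq, O.apply_symm_apply]) hom neg neg')

end RSC0

open RSC0 in
theorem rCT : SCT := by
  intro m m' φ Γ _ _ O T τ σ F S
  have hom : ∀ z t (r : ℝ) e, qq m' φ z t (r • e) = r ^ 2 * qq m' φ z t e := fun z t r e => by
    simp only [qq, map_smul, inner_smul_left, inner_smul_right, conj_trivial]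
    ring
  have hom' : ∀ z t (r : ℝ) e, -qq m' φ z (-t) (r • e) = r ^ 2 * -qq m' φ z (-t) e :=
    fun z t r e => by rw [hom, mul_neg]
  have n1 : ∀ z ∈ U, ∀ t e, t < -σ z → ⟪z.2, e⟫ = 0 → e ≠ 0 → -qq m' φ z (-t) e < 0 :=
    fun z hz t e h1 h2 h3 => neg_lt_zero.2 (F.pos z hz _ e (by linarith) h2 h3)
  have n2 : ∀ z ∈ U, ∀ t, -σ z < t → ∃ e, ⟪z.2, e⟫ = 0 ∧ 0 < -qq m' φ z (-t) e :=
    fun z hz t h1 => (F.pos' z hz (-t) (by linarith)).imp fun e h => ⟨h.1, neg_pos.2 h.2⟩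
  have f : Continuous fun p : (V × V) × ℝ × V => (p.1, -p.2.1, p.2.2) := by fun_prop
  have c2 := cont (Q := fun z t e => -qq m' φ z (-t) e) (τ := fun z => -σ z)
    (S.cq.comp f.continuousOn fun _ hp => hp).neg hom' n1 n2
  refine ⟨cont S.cq hom F.neg F.neg', c2.neg.congr fun z _ => (neg_neg _).symm, fun γ z hz =>
    ⟨inv2 hz (O γ z.1) rfl (S.iq γ z hz) hom F.neg F.neg', neg_injective ?_⟩⟩
  exact inv2 (Q := fun z t e => -qq m' φ z (-t) e) (τ := fun z => -σ z) hz (O γ z.1) rfl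
    (fun t e => congrArg Neg.neg (S.iq γ z hz (-t) e)) hom' n1 n2

end Pool.Agent.MP_3ee8cb_gt.D3RK
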