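import Pool.Agent.MP_3ee8cb_gt.D3RK.Spec
import Pool.Agent.MP_3ee8cb_gt.D3LN.Al

/-! The conjugacy is a contact map, in rank one. -/

namespace Pool.Agent.MP_3ee8cb_gt.D3RK

open Set Filter Topology D3 D3.Dia
open D3.LN hiding bdd_fld fun_eq al_one sal
open scoped RealInnerProductSpace

noncomputable section

namespace RSY0

variable {m m' : MF} {φ : V × V → V × V}

/-- A bounded Jacobi field along a regular geodesic is a multiple of the velocity. -/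
theorem bdd_fld (h : m.OK) (hj : m.Jac) {K : ℝ} (hu : m.Up 0) {z η : V × V}
    (hz : Reg m z) (hb : ∀ t, ‖m.J z η t‖ ≤ K) :
    m.ver z η = 0 ∧ m.hor z η = ⟪z.2, m.hor z η⟫ • z.2 := by
  have k : ∀ t, ∃ d, HasDerivAt (fun t => ⟪m.J z η t, m.J' z η t⟫) d t ∧
      ‖m.J' z η t‖ ^ 2 ≤ d := fun t => by
    refine ⟨_, (hj.d1 z η t).inner ℝ (hj.d2 z η t), ?_⟩
    have h1 := hu (m.Z t z).1 (m.J z η t) (m.Z t z).2
    rw [inner_sub_right, inner_sub_left, inner_neg_right, real_inner_self_eq_norm_sq, MF.w, h.skew,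
      real_inner_comm (m.K _ _ _ _)]
    linarith
  choose d h1 h2 using k
  have n1 : ∀ t, HasDerivAt (fun t => ‖m.J z η t‖ ^ 2) (2 * ⟪m.J z η t, m.J' z η t⟫) t := by
    intro t
    refine (hj.d1 z η t).norm_sq.congr_deriv ?_
    rw [inner_sub_right, real_inner_comm (m.w z t _), MF.w, skew0 h, sub_zero]
  have mo : Monotone fun t => ⟪m.J z η t, m.J' z η t⟫ :=
    monotone_of_hasDerivAt_nonneg h1 fun t => le_trans (sq_nonneg _) (h2 t)
  have g0 := flat n1 (mo.const_mul zero_le_two) (fun t => sq_nonneg _)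
    fun t => pow_le_pow_left₀ (norm_nonneg _) (hb t) 2
  have d0 : ∀ t, m.J' z η t = 0 := fun t => by
    have := h1 t
    rw [show (fun t => ⟪m.J z η t, m.J' z η t⟫) = fun _ => (0 : ℝ) from
      funext fun t => by linarith [g0 t]] at this
    have h3 := h2 t
    rw [this.unique (hasDerivAt_const _ _)] at h3
    exact norm_eq_zero.1 (pow_eq_zero_iff two_ne_zero |>.1 (le_antisymm h3 (sq_nonneg _)))
  exact ⟨(J_zero h z η).2.symm.trans (d0 0), hz η d0⟩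

/-- A functional bounded along the whole orbit is a multiple of the derivative of the energy. -/
theorem fun_eq (h : m.OK) (hj : m.Jac) {K : ℝ} (hu : m.Up 0) {z : V × V}
    (hz : Reg m z) (l : V × V →L[ℝ] ℝ)
    (hb : ∀ t ζ, |l ζ| ≤ K * (‖m.J z ζ t‖ + ‖m.J' z ζ t‖)) :
    ∃ c, ∀ ζ, l ζ = c * ⟪z.2, m.ver z ζ⟫ := by
  obtain ⟨p, hp⟩ := (InnerProductSpace.toDual ℝ V).surjective
    ((l.comp (mk m z)).comp (.inr ℝ V V))
  obtain ⟨q, hq⟩ := (InnerProductSpace.toDual ℝ V).surjective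
    ((l.comp (mk m z)).comp (.inl ℝ V V))
  have e : ∀ ζ, l ζ = ⟪m.hor z (mk m z (p, -q)), m.ver z ζ⟫ -
      ⟪m.ver z (mk m z (p, -q)), m.hor z ζ⟫ := fun ζ => by
    have h1 : ⟪p, m.ver z ζ⟫ = l (mk m z (0, m.ver z ζ)) := DFunLike.congr_fun hp _
    have h2 : ⟪q, m.hor z ζ⟫ = l (mk m z (m.hor z ζ, 0)) := DFunLike.congr_fun hq _
    rw [hor_mk h, ver_mk, inner_neg_left, sub_neg_eq_add, h1, h2, ← map_add, ← map_add,
      Prod.mk_add_mk, zero_add, add_zero, mk_hv h]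
  generalize mk m z (p, -q) = η at e
  obtain ⟨h1, h2⟩ := bdd_fld h hj hu hz (η := η) (K := |K|) fun t => by
    obtain ⟨ζ, k1, k2⟩ := onto h z (0, m.J z η t) t
    have := hb t ζ
    rw [e, ← hj.symp z η ζ t, k1, k2, inner_zero_right, sub_zero, norm_zero, zero_add,
      real_inner_self_eq_norm_sq, abs_sq] at this
    by_contra hc
    nlinarith [not_le.1 hc, abs_nonneg K, le_abs_self K]
  exact ⟨_, fun ζ => by rw [e, h1, inner_zero_left, sub_zero, h2, real_inner_smul_left]⟩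

theorem al_one (h : m.OK) (hj : m.Jac) (h' : m'.OK) (hj' : m'.Jac) (hc : CF m m' φ)
    (hu : m'.Up 0) {z : V × V} (hz : ‖z.2‖ = 1) (hr : Reg m' (φ z)) (ξ : V × V) :
    ⟪(φ z).2, m'.hor (φ z) (fderiv ℝ φ z ξ)⟫ = ⟪z.2, m.hor z ξ⟫ := by
  obtain ⟨C, hC⟩ := hc.bdd
  have z0 : z.2 ≠ 0 := norm_ne_zero_iff.1 (hz ▸ one_ne_zero)
  have zt : ∀ t, ‖(m.Z t z).2‖ = 1 := fun t => (hj.norm t z).trans hz
  have w1 : ‖(φ z).2‖ = 1 := (hc.norm z z0).trans hz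
  have i : Function.Injective (fderiv ℝ φ z).toLinearMap :=
    (injective_iff_map_eq_zero _).2 fun η e => by
      have := (hC z η hz).2
      rw [show fderiv ℝ φ z η = 0 from e, map_zero, map_zero, norm_zero, add_zero, mul_zero] at this
      exact hv_inj h (norm_le_zero_iff.1 (by linarith [norm_nonneg (m.ver z η)]))
        (norm_le_zero_iff.1 (by linarith [norm_nonneg (m.hor z η)]))
  let E := (LinearEquiv.ofInjectiveEndo _ i).toContinuousLinearEquiv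
  have l0 : ∀ η, ((al m z).comp E.symm.toContinuousLinearMap - al m' (φ z)) (fderiv ℝ φ z η) =
      ⟪z.2, m.hor z η⟫ - ⟪(φ z).2, m'.hor (φ z) (fderiv ℝ φ z η)⟫ := fun η => by
    change ⟪z.2, m.hor z (E.symm (E η))⟫ - _ = _
    rw [E.symm_apply_apply]
    rfl
  obtain ⟨c, e⟩ := fun_eq h' hj' hu hr (K := C + 1)
    ((al m z).comp E.symm.toContinuousLinearMap - al m' (φ z)) fun t ζ => by
      obtain ⟨η, rfl⟩ : ∃ η, fderiv ℝ φ z η = ζ := E.surjective ζ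
      have k1 := (hC _ (fderiv ℝ (m.Z t) z η) (zt t)).2
      rw [← comm h hj h' hc z0, hc.flow t z z0] at k1
      have k2 := abs_real_inner_le_norm (m.Z t z).2 (m.J z η t)
      have k3 := abs_real_inner_le_norm (m'.Z t (φ z)).2 (m'.J (φ z) (fderiv ℝ φ z η) t)
      rw [zt, one_mul, tan h hj] at k2
      rw [hj'.norm, w1, one_mul, tan h' hj', d_norm h h' hc z0] at k3
      rw [l0, ← add_sub_add_right_eq_sub _ _ (t * ⟪z.2, m.ver z η⟫)]
      refine (abs_sub _ _).trans ?_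
      change ‖m.J z η t‖ + ‖m.J' z η t‖ ≤ C * (‖m'.J _ _ t‖ + ‖m'.J' _ _ t‖) at k1
      linarith [norm_nonneg (m.J' z η t), norm_nonneg (m'.J' (φ z) (fderiv ℝ φ z η) t)]
  have c0 := e (fderiv ℝ φ z (0, z.2))
  rw [l0, d_rad hc z0] at c0
  have c1 : c = 0 := by simpa [MF.hor, MF.ver, w1] using c0.symm
  have := e (fderiv ℝ φ z ξ)
  rw [l0, c1, zero_mul, sub_eq_zero] at this
  exact this.symm

theorem den (h : m.OK) (h' : m'.OK) (hc : CF m m' φ) {P : V × V → Prop} (hP : Den P) (ξ : V × V)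
    (e : ∀ z : V × V, ‖z.2‖ = 1 → P z →
      ⟪(φ z).2, m'.hor (φ z) (fderiv ℝ φ z ξ)⟫ = ⟪z.2, m.hor z ξ⟫) (z : V × V) (hz : ‖z.2‖ = 1) :
    ⟪(φ z).2, m'.hor (φ z) (fderiv ℝ φ z ξ)⟫ = ⟪z.2, m.hor z ξ⟫ := by
  have z0 : z.2 ≠ 0 := norm_ne_zero_iff.1 (hz ▸ one_ne_zero)
  have c0 : ContDiffAt ℝ 1 φ z := hc.c1.contDiffAt (ne_nhds z0)
  have c1 : ContinuousAt φ z := c0.continuousAt
  have c2 : ContinuousAt (fun w => fderiv ℝ φ w ξ) z :=
    (c0.continuousAt_fderiv one_ne_zero).clm_apply continuousAt_const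
  have c3 : ContinuousAt (fun w : V × V => ⟪(φ w).2, m'.S (φ w).1 (fderiv ℝ φ w ξ).1⟫ -
      ⟪w.2, m.S w.1 ξ.1⟫) z :=
    (c1.snd.inner (𝕜 := ℝ) ((h'.cS.continuous.continuousAt.comp c1.fst).clm_apply c2.fst)).sub
      (continuousAt_snd.inner (𝕜 := ℝ)
        ((h.cS.continuous.continuousAt.comp continuousAt_fst).clm_apply continuousAt_const))
  have k := c3.continuousWithinAt.mem_closure_image (hP z hz)
  have k2 : (fun w : V × V => ⟪(φ w).2, m'.S (φ w).1 (fderiv ℝ φ w ξ).1⟫ - ⟪w.2, m.S w.1 ξ.1⟫) ''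
      {w | w ∈ U ∧ P w} ⊆ {0} := by
    rintro _ ⟨w, hw, rfl⟩
    exact sub_eq_zero.2 (e w hw.1 hw.2)
  exact sub_eq_zero.1 (isClosed_singleton.closure_subset_iff.2 k2 k)

theorem sal (hc : CF m m' φ) (one : ∀ z : V × V, ‖z.2‖ = 1 → ∀ ξ,
    ⟪(φ z).2, m'.hor (φ z) (fderiv ℝ φ z ξ)⟫ = ⟪z.2, m.hor z ξ⟫) (z ξ : V × V) (hz : z.2 ≠ 0) :
    ⟪(φ z).2, m'.hor (φ z) (fderiv ℝ φ z ξ)⟫ = ⟪z.2, m.hor z ξ⟫ := by
  have n0 : ‖z.2‖ ≠ 0 := norm_ne_zero_iff.2 hz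
  let H : V × V →L[ℝ] V × V := (ContinuousLinearMap.fst ℝ V V).prod (‖z.2‖⁻¹ • .snd ℝ V V)
  have h1 : ‖(H z).2‖ = 1 := norm_smul_inv_norm (𝕜 := ℝ) hz
  have h0 : (H z).2 ≠ 0 := norm_ne_zero_iff.1 (h1 ▸ one_ne_zero)
  have e0 : ∀ w : V × V, w.2 ≠ 0 → φ (H w) = H (φ w) := fun w hw =>
    hc.hom _ w.1 w.2 (inv_ne_zero n0) hw
  have e1 := DFunLike.congr_fun (((dφ hc h0).hasFDerivAt.comp z H.hasFDerivAt).unique
    ((H.hasFDerivAt.comp z (dφ hc hz).hasFDerivAt).congr_of_eventuallyEq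
      (mem_of_superset (ne_nhds hz) e0))) ξ
  have k := one _ h1 (H ξ)
  rw [show fderiv ℝ φ (H z) (H ξ) = H (fderiv ℝ φ z ξ) from e1, e0 z hz] at k
  change ⟪‖z.2‖⁻¹ • (φ z).2, m'.hor (φ z) (fderiv ℝ φ z ξ)⟫ = ⟪‖z.2‖⁻¹ • z.2, m.hor z ξ⟫ at k
  rw [real_inner_smul_left, real_inner_smul_left] at k
  exact mul_left_cancel₀ (inv_ne_zero n0) k

end RSY0

theorem rSY0 : SSY0 := by
  intro m m' φ h hj h' hj' hc _ hu hD
  have al := RSY0.sal hc fun z hz ξ => RSY0.den h h' hc hD ξ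
    (fun w hw hr => RSY0.al_one h hj h' hj' hc hu hw hr ξ) z hz
  have k := om_of_al h h' hc.c1 al
  exact ⟨k, front_of hj hc k⟩

end

end Pool.Agent.MP_3ee8cb_gt.D3RK
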