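import Pool.Agent.MP_3ee8cb_gt.D3RK.RSpec

/-! Topological transitivity in rank one. -/

namespace Pool.Agent.MP_3ee8cb_gt.D3RK

open Set Filter Topology D3
open D3.SI (ac)
open CR (FdP)
open scoped RealInnerProductSpace

namespace RTR

theorem cl_inter {A B : Set (V × V)} {v : V × V} (h : v ∈ closure A) (hA : A ⊆ U)
    (hB : B ∈ 𝓝[U] v) : v ∈ closure (A ∩ B) := by
  rw [mem_closure_iff_frequently] at h ⊢
  have h2 : ∀ᶠ w in 𝓝 v, w ∈ U → w ∈ B := eventually_nhdsWithin_iff.1 hB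
  exact (h.and_eventually h2).mono fun w hw => ⟨hw.1, hw.2 (hA hw.1)⟩

theorem fibre {B : Set (V × V)} {x a b : V} (ha : ‖a‖ = 1) (hB : B ∈ 𝓝[U] (x, a)) :
    ∃ c : V, ‖c‖ = 1 ∧ c ≠ b ∧ (x, c) ∈ B := by
  by_cases hab : a = b
  · have hr : 1 < Module.rank ℝ V := by
      rw [← Module.finrank_eq_rank, finrank_euclideanSpace_fin]
      norm_num
    have hc := (isConnected_sphere hr (0 : V) (zero_le_one' ℝ)).isPreconnected
    have ha' : a ∈ Metric.sphere (0 : V) 1 := by simpa using ha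
    have hn : (Metric.sphere (0 : V) 1).Nontrivial := by
      refine ⟨a, ha', -a, by simpa using ha, fun h => ?_⟩
      have h2 : (2 : ℝ) • a = 0 := by
        rw [two_smul]
        nth_rewrite 2 [h]
        exact add_neg_cancel a
      have h3 : a = 0 := (smul_eq_zero.1 h2).resolve_left two_ne_zero
      rw [h3, norm_zero] at ha
      exact zero_ne_one ha
    have hf := accPt_iff_frequently.1 (hc.preperfect_of_nontrivial hn a ha')
    have h2 : ∀ᶠ w in 𝓝 (x, a), w ∈ U → w ∈ B := eventually_nhdsWithin_iff.1 hB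
    have ht : Tendsto (fun c : V => (x, c)) (𝓝 a) (𝓝 (x, a)) :=
      (Continuous.prodMk_right x).tendsto a
    obtain ⟨c, ⟨h3, h4⟩, h5⟩ := (hf.and_eventually (ht.eventually h2)).exists
    have h6 : ‖c‖ = 1 := by simpa using h4
    exact ⟨c, h6, hab ▸ h3, h5 h6⟩
  · exact ⟨a, ha, hab, mem_of_mem_nhdsWithin (show (x, a) ∈ U from ha) hB⟩

/-- The vectors asymptotic to a vector of `W`. -/
def Wp (E : V → V × V → V) (W : Set (V × V)) : Set (V × V) :=
  {v | v ∈ U ∧ ∃ y, (y, E y v) ∈ W}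

variable {m : MF} {lg : V × V → V} {Λ : Type} [Group Λ] [MulAction Λ V]
  {O : Λ → V → V ≃ₗᵢ[ℝ] V} {E : V → V × V → V} {W : Set (V × V)}

theorem wp_op (hE : Asy m lg E) (hW : Inv m O W) {v : V × V} (hv : v ∈ Wp E W) :
    Wp E W ∈ 𝓝[U] v := by
  obtain ⟨hU, y, hy⟩ := hv
  have h1 : ContinuousOn (fun w : V × V => E y w) U :=
    hE.cont.comp (f := fun w : V × V => (y, w)) (Continuous.prodMk_right y).continuousOn
      fun w hw => hw
  have h2 : ContinuousOn (fun w : V × V => (y, E y w)) U := continuousOn_const.prodMk h1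
  have h3 : Tendsto (fun w : V × V => (y, E y w)) (𝓝[U] v) (𝓝[U] (y, E y v)) :=
    (h2 v hU).tendsto_nhdsWithin fun w hw => hE.unit y w hw
  filter_upwards [h3 (hW.op _ hy), self_mem_nhdsWithin] with w h4 h5
  exact ⟨h5, y, h4⟩

theorem wp_gr (hQ : Aq m O E) (hW : Inv m O W) {v : V × V} (hv : v ∈ Wp E W) (γ : Λ) :
    ac O γ v ∈ Wp E W := by
  obtain ⟨hU, y, hy⟩ := hv
  refine ⟨?_, γ • y, ?_⟩
  · show ‖O γ v.1 v.2‖ = 1
    rw [LinearIsometryEquiv.norm_map]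
    exact hU
  · rw [hQ.gr γ y v hU]
    exact hW.gr γ _ hy

theorem wp_sat (hE : Asy m lg E) (hQ : Aq m O E) {v : V × V} (hv : v ∈ Wp E W) (x : V) :
    (x, E x v) ∈ Wp E W := by
  obtain ⟨hU, y, hy⟩ := hv
  refine ⟨hE.unit x v hU, y, ?_⟩
  rw [hQ.sat y x v hU]
  exact hy

theorem wp_self (hQ : Aq m O E) (hW : Inv m O W) {v : V × V} (hv : v ∈ W) : v ∈ Wp E W := by
  refine ⟨hW.unit hv, v.1, ?_⟩
  rw [hQ.self v (hW.unit hv)]
  exact hv

theorem wp_cl (hE : Asy m lg E) (hW : Inv m O W)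
    (hD : Den fun z => Rec m O atTop z ∧ Rec m O atBot z)
    (hL : ∀ v ∈ U, Rec m O atTop v → ∀ y, (y, E y v) ∈ W → v ∈ closure W) :
    Wp E W ⊆ closure W := by
  intro v hv
  have h1 := cl_inter (hD v hv.1) (fun w hw => hw.1) (wp_op hE hW hv)
  refine closure_minimal ?_ isClosed_closure h1
  rintro w ⟨⟨hU, hr, -⟩, -, y, hy⟩
  exact hL w hU hr y hy

theorem key (hE : Asy m lg E) (hQ : Aq m O E) (hW : Inv m O W) (hn : W.Nonempty)
    (hc : Wp E W ⊆ closure W) {u : V × V}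
    (hN : ∀ a, ‖a‖ = 1 → a ≠ -u.2 →
      ∃ γ : ℕ → Λ, Tendsto (fun n => E u.1 (ac O (γ n) (u.1, a))) atTop (𝓝 u.2)) :
    u ∈ closure W := by
  obtain ⟨w, hw⟩ := hn
  have h1 := wp_sat hE hQ (wp_self hQ hW hw) u.1
  obtain ⟨a, ha, hb, h2⟩ := fibre (b := -u.2) (hE.unit u.1 w (hW.unit hw)) (wp_op hE hW h1)
  obtain ⟨γ, hγ⟩ := hN a ha hb
  have h3 : Tendsto (fun n => (u.1, E u.1 (ac O (γ n) (u.1, a)))) atTop (𝓝 (u.1, u.2)) :=
    tendsto_const_nhds.prodMk_nhds hγ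
  exact isClosed_closure.mem_of_tendsto h3
    (Eventually.of_forall fun n => hc (wp_sat hE hQ (wp_gr hQ hW h2 (γ n)) u.1))

end RTR

open RTR in
theorem rTR : R_TR := by
  intro hSTR hASY hAQ hLA hNS hNW hBAI hRO m lg Λ _ _ O hd hact hF ⟨z, hzU, hz⟩
  obtain ⟨E, hE⟩ := hASY m lg hd
  have hQ := hAQ m lg Λ O hd hact E hE
  have hD := hBAI m lg Λ O hd hact (hNW m lg Λ O hd hact hF)
  have hR := hRO m lg Λ O hd hact
  have hK : ∀ W, Inv m O W → W.Nonempty → ∀ v, v ∈ U ∧ Reg m v → v ∈ closure W := by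
    intro W hW hn v hv
    have hc := wp_cl hE hW hD (hLA m lg Λ O hd hact E hE W hW)
    have h1 := cl_inter (hD v hv.1) (fun w hw => hw.1) (hR.op v hv)
    refine closure_minimal ?_ isClosed_closure h1
    rintro u ⟨⟨hU, hr, hr'⟩, -, hu⟩
    exact key hE hQ hW hn hc
      (hNS m lg Λ O hd hact E hE u hU (hSTR m lg hd u hU hu) hr hr')
  intro W W' hW hW' hn hn'
  obtain ⟨w, hw, hw'⟩ :=
    (closure_nonempty_iff.1 ⟨z, cl_inter (hK W hW hn z ⟨hzU, hz⟩) hW.unit (hR.op z ⟨hzU, hz⟩)⟩)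
  obtain ⟨v, hv, hv'⟩ :=
    (closure_nonempty_iff.1 ⟨w, cl_inter (hK W' hW' hn' w hw') hW'.unit (hW.op w hw)⟩)
  exact ⟨v, hv', hv⟩

end Pool.Agent.MP_3ee8cb_gt.D3RK
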