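import Pool.Agent.MP_3ee8cb_gt.D3RK.OSpec
import Pool.Agent.MP_3ee8cb_gt.D3NP.RBS

/-! Outside the focal interval the Jacobian is larger. -/

namespace Pool.Agent.MP_3ee8cb_gt.D3RK

open Matrix Set Filter Topology D3OD

namespace RYM

theorem ent {P : M} (hs : P 1 0 = P 0 1) (h : ∀ x : V, 0 ≤ x ⬝ᵥ P *ᵥ x) :
    0 ≤ P 0 0 ∧ 0 ≤ P 1 1 ∧ P 0 1 ^ 2 ≤ P 0 0 * P 1 1 := by
  have e (u v : ℝ) : ![u, v] ⬝ᵥ P *ᵥ ![u, v] =
      P 0 0 * (u * u) + 2 * P 0 1 * u * v + P 1 1 * (v * v) := by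
    simp only [dotProduct, mulVec, Fin.sum_univ_two, cons_val_zero, cons_val_one, hs]
    ring
  refine ⟨?_, ?_, ?_⟩
  · have := h ![1, 0]
    rw [e] at this
    linarith
  · have := h ![0, 1]
    rw [e] at this
    linarith
  · have := discrim_le_zero (a := P 0 0) (b := 2 * P 0 1) (c := P 1 1) fun u => by
      have := h ![u, 1]
      rw [e] at this
      linarith
    rw [discrim] at this
    linarith

theorem trp {κ P : M} (hκ : κ 1 0 = κ 0 1) (hP : P 1 0 = P 0 1)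
    (h1 : ∀ x : V, 0 ≤ x ⬝ᵥ κ *ᵥ x) (h2 : ∀ x : V, 0 ≤ x ⬝ᵥ P *ᵥ x) : 0 ≤ (κ * P).trace := by
  obtain ⟨a0, a1, a2⟩ := ent hκ h1
  obtain ⟨b0, b1, b2⟩ := ent hP h2
  have e : (κ * P).trace = κ 0 0 * P 0 0 + κ 1 1 * P 1 1 + 2 * (κ 0 1 * P 0 1) := by
    simp only [trace_fin_two, Matrix.mul_apply, Fin.sum_univ_two, hκ, hP]
    ring
  have h3 : κ 0 1 ^ 2 * P 0 1 ^ 2 ≤ κ 0 0 * κ 1 1 * (P 0 0 * P 1 1) :=
    mul_le_mul a2 b2 (sq_nonneg _) (mul_nonneg a0 a1)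
  have h4 : (2 * (κ 0 1 * P 0 1)) ^ 2 ≤ (κ 0 0 * P 0 0 + κ 1 1 * P 1 1) ^ 2 := by
    nlinarith [sq_nonneg (κ 0 0 * P 0 0 - κ 1 1 * P 1 1)]
  have h5 := (abs_le_of_sq_le_sq' h4 (add_nonneg (mul_nonneg a0 b0) (mul_nonneg a1 b1))).1
  rw [e]
  linarith

variable {T : ℝ} {kN : ℝ → M} {A A' D E : ℝ → ℝ → M}

theorem back {Y : M} (hd : Y.det ≠ 0) (x : V) : Y *ᵥ (Y⁻¹ *ᵥ x) = x := by
  rw [Matrix.mulVec_mulVec, Matrix.mul_nonsing_inv _ (isUnit_iff_ne_zero.2 hd), one_mulVec]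

theorem form {X Y : M} (hd : Y.det ≠ 0) (x : V) :
    x ⬝ᵥ Bm X Y *ᵥ x = qf X Y (Y⁻¹ *ᵥ x) := by
  rw [qf, back hd, Bm, ← Matrix.mulVec_mulVec, dotProduct_comm]

theorem sym (co : Co T kN A A' D E) (s t : ℝ) :
    Bm (A s t) (A' s t) 1 0 = Bm (A s t) (A' s t) 0 1 := by
  have h := co.pa.symp s t 0 ((A' s t)⁻¹ *ᵥ ![1, 0]) 0 ((A' s t)⁻¹ *ᵥ ![0, 1])
  simp only [mulVec_zero, zero_add, om, back (co.det s t), zero_dotProduct, dotProduct_zero,
    sub_zero] at h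
  simp only [Matrix.mulVec_mulVec] at h
  simp only [dotProduct, mulVec, Fin.sum_univ_two, cons_val_zero, cons_val_one, mul_zero, mul_one,
    add_zero, zero_add, zero_mul, one_mul] at h
  simp only [Bm]
  linarith

theorem der (co : Co T kN A A' D E) (s t : ℝ) :
    HasDerivAt (fun r => Real.log (A' s r).det) (kN t * Bm (A s t) (A' s t)).trace t := by
  refine (RBDER.d_log (D3NP.RBS.msol (co.sol s) t).2 (co.det s t)).congr_deriv ?_
  rw [Matrix.trace_mul_comm, Bm, Matrix.mul_assoc]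

theorem ks (co : Co T kN A A' D E) (t : ℝ) : kN t 1 0 = kN t 0 1 := by
  have := congrFun (congrFun (co.cur.symm t) 0) 1
  simpa using this

theorem kp (co : Co T kN A A' D E) (t : ℝ) (x : V) : 0 ≤ x ⬝ᵥ kN t *ᵥ x := by
  have := co.cur.low t x
  rwa [zero_mul] at this

theorem up (co : Co T kN A A' D E) {s t : ℝ} (h : ∀ e, e ≠ 0 → 0 < qf (A s t) (A' s t) e) :
    0 ≤ (kN t * Bm (A s t) (A' s t)).trace := by
  refine trp (ks co t) (sym co s t) (kp co t) fun x => ?_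
  rw [form (co.det s t)]
  by_cases he : (A' s t)⁻¹ *ᵥ x = 0
  · simp [he, qf]
  · exact (h _ he).le

theorem down (co : Co T kN A A' D E) {s t : ℝ} (h : ∀ e, e ≠ 0 → qf (A s t) (A' s t) e < 0) :
    (kN t * Bm (A s t) (A' s t)).trace ≤ 0 := by
  have := trp (P := -Bm (A s t) (A' s t)) (ks co t) (by simp [sym co s t]) (kp co t) fun x => by
    rw [neg_mulVec, dotProduct_neg, form (co.det s t)]
    by_cases he : (A' s t)⁻¹ *ᵥ x = 0
    · simp [he, qf]
    · exact (neg_pos.2 (h _ he)).le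
  rw [Matrix.mul_neg, trace_neg] at this
  linarith

theorem of_log {x y : ℝ} (hx : x ≠ 0) (hy : y ≠ 0) (h : Real.log x ≤ Real.log y) : |x| ≤ |y| := by
  rw [← Real.log_abs x, ← Real.log_abs y] at h
  exact (Real.log_le_log_iff (abs_pos.2 hx) (abs_pos.2 hy)).1 h

end RYM

open RYM

theorem rYM : S_YM := by
  intro T kN A A' D E a b co ft s t
  have hd : Differentiable ℝ fun r => Real.log (A' s r).det := fun r =>
    (der co s r).differentiableAt
  refine ⟨fun h => of_log (co.det _ _) (co.det _ _) ?_,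
    fun h => of_log (co.det _ _) (co.det _ _) ?_⟩
  · refine antitoneOn_of_deriv_nonpos (convex_Iic (a s)) hd.continuous.continuousOn
      hd.differentiableOn (fun r hr => ?_) h (le_refl (a s)) h
    rw [interior_Iic] at hr
    rw [(der co s r).deriv]
    exact down co fun e he => ft.neg s r e hr he
  · refine monotoneOn_of_deriv_nonneg (convex_Ici (b s)) hd.continuous.continuousOn
      hd.differentiableOn (fun r hr => ?_) (le_refl (b s)) h h
    rw [interior_Ici] at hr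
    rw [(der co s r).deriv]
    exact up co fun e he => ft.pos s r e hr he

end Pool.Agent.MP_3ee8cb_gt.D3RK
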