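import Pool.Agent.MP_3ee8cb_gt.D3RK.Top
import Pool.Agent.MP_3ee8cb_gt.D3RK.RAQ
import Pool.Agent.MP_3ee8cb_gt.D3RK.RASY
import Pool.Agent.MP_3ee8cb_gt.D3RK.RBAI
import Pool.Agent.MP_3ee8cb_gt.D3RK.RCN
import Pool.Agent.MP_3ee8cb_gt.D3RK.RCV
import Pool.Agent.MP_3ee8cb_gt.D3RK.RDI
import Pool.Agent.MP_3ee8cb_gt.D3RK.RDIN0
import Pool.Agent.MP_3ee8cb_gt.D3RK.REQ
import Pool.Agent.MP_3ee8cb_gt.D3RK.RFOC
import Pool.Agent.MP_3ee8cb_gt.D3RK.RFOC2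
import Pool.Agent.MP_3ee8cb_gt.D3RK.RFT
import Pool.Agent.MP_3ee8cb_gt.D3RK.RGEO
import Pool.Agent.MP_3ee8cb_gt.D3RK.RGRAM
import Pool.Agent.MP_3ee8cb_gt.D3RK.RINV0
import Pool.Agent.MP_3ee8cb_gt.D3RK.RLA
import Pool.Agent.MP_3ee8cb_gt.D3RK.RLK0
import Pool.Agent.MP_3ee8cb_gt.D3RK.RNS
import Pool.Agent.MP_3ee8cb_gt.D3RK.RNW
import Pool.Agent.MP_3ee8cb_gt.D3RK.RPA0
import Pool.Agent.MP_3ee8cb_gt.D3RK.RPAR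
import Pool.Agent.MP_3ee8cb_gt.D3RK.RPOS0
import Pool.Agent.MP_3ee8cb_gt.D3RK.RRK
import Pool.Agent.MP_3ee8cb_gt.D3RK.RRO
import Pool.Agent.MP_3ee8cb_gt.D3RK.RSC0
import Pool.Agent.MP_3ee8cb_gt.D3RK.RSTR
import Pool.Agent.MP_3ee8cb_gt.D3RK.RSY0
import Pool.Agent.MP_3ee8cb_gt.D3RK.RTR
import Pool.Agent.MP_3ee8cb_gt.D3RK.RYM
import Pool.Agent.MP_3ee8cb_gt.D3NP.RINT2
import Pool.Agent.MP_3ee8cb_gt.D3NP.RSC2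
import Pool.Agent.MP_3ee8cb_gt.D3NP.RFL2
import Pool.Agent.MP_3ee8cb_gt.D3OD.Fin0
import Pool.Agent.MP_3ee8cb_gt.D3JC.Out
import Pool.Agent.MP_3ee8cb_gt.D3FL.RFM
import Pool.Agent.MP_3ee8cb_gt.D3FL.RCN
import Pool.Agent.MP_3ee8cb_gt.D3FL.RCV
import Pool.Agent.MP_3ee8cb_gt.D3FL.RGL
import Pool.Agent.MP_3ee8cb_gt.D3FL.RFC
import Pool.Agent.MP_3ee8cb_gt.TB.RODE
import Pool.Agent.MP_3ee8cb_gt.D3AC.Act
import Pool.Agent.MP_3ee8cb_gt.D3SC.C1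
import Pool.Agent.MP_3ee8cb_gt.D3SC.Cf
import Pool.Agent.MP_3ee8cb_gt.D3WI.Wid
import Pool.Agent.MP_3ee8cb_gt.D3EN.End

/-! Rigidity in nonpositive curvature and rank one: all blocks together. -/

namespace Pool.Agent.MP_3ee8cb_gt.D3RK

open D3 D3OD

theorem sFRM : SFRM := D3FL.frm_of TB.gam TB.ode D3FL.fm D3FL.cn D3FL.cv D3FL.gl D3FL.fc

theorem sFRM3 : D3FL.SFRM3 := D3FL.frm3_of TB.ode D3FL.cn D3FL.cv D3FL.gl D3FL.fc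

theorem sSTR : SSTR := rSTR rCV rGEO rPAR

theorem sASY : SASY := rASY rCV

theorem sAQ : SAQ := rAQ rLGA

theorem sLA : SLA := rLA rLGA

theorem sNW : SNW := rNW D3NP.sINT2 rLGA

theorem sTR : STR := rTR sSTR sASY sAQ sLA (rNS rCV rGEO sAQ) sNW rBAI rRO

theorem sFOC : SFOC := rFOC2 (rPOS0 sEX rUQ rOM sGROW) (rINV0 sEX rUQ rOM sLAM)
  (rPA0 (rMEX sEX) rUQ rOM) (rFT rOM) (rFOC rEIG (rGRAM rOM sGROW) rYM rDI1 rDI2)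

theorem allR (fib : D3NP.SFIB0) : MainF fun m' => ∃ z ∈ U, Reg m' z :=
  mainR (sC1_of sFRM) sCF D3WI.swid sEND fib D3NP.sSC2 D3NP.sFL2 sSTR rRO sTR rCN rOPN rSY0
    (rLK0 rUQ) sFOC rSC0 rCT (rEQ D3NP.sINT2 rDIN0)

theorem allA0 (fib : D3NP.SFIB0) : MainA0 := mainP_of sJAC sFRM sFRM3 sACT (allR fib) rRK

/-- With the case of higher rank there is no assumption on the rank. -/
theorem allA1 (fib : D3NP.SFIB0) (hr : MainF fun m' => ¬∃ z ∈ U, Reg m' z) :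
    MainP fun _ _ _ => True :=
  mainP_of sJAC sFRM sFRM3 sACT (mainF_all (allR fib) hr) fun _ _ _ _ _ _ _ _ _ _ _ _ _ => trivial

end Pool.Agent.MP_3ee8cb_gt.D3RK
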