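import Pool.Agent.MP_3ee8cb_gt.D3OD.DiaG

/-! The diamond in nonpositive curvature. -/

namespace Pool.Agent.MP_3ee8cb_gt.D3.Dia

open Set
open scoped RealInnerProductSpace

namespace Sys

variable {a C : ℝ} {j j' J J' : ℝ → V × V →ₗ[ℝ] V} {τ τ' : V × V →ₗ[ℝ] ℝ} {p q : ℝ → V}
  (h : Sys a C j j' J J' τ τ' p q)
include h

theorem pos0 {s t : ℝ} {ξ : V × V} (hT : s + (1 + 2 * C ^ 2) ≤ t) (h0 : j s ξ = 0)
    (h1 : τ' ξ = 0) (hξ : ξ ≠ 0) : 0 < ⟪J t ξ, J' t ξ⟫ := by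
  refine not_le.1 fun k => hξ ?_
  have F := (h.fn ξ (h.tau h0 h1) h1).zero
  have c := h.C0
  have c2 := sq_nonneg C
  choose d d1 d2 using F.n2
  obtain ⟨r, ⟨r1, r2⟩, r3⟩ := exists_hasDerivAt_eq_slope (fun t => ⟪J t ξ, J' t ξ⟫) d
    (sub_one_lt t) (fun x _ => (d1 x).continuousAt.continuousWithinAt) fun x _ => d1 x
  have u := h.up s ξ
  rw [h0, norm_zero, zero_add] at u
  have k1 : ‖J' r ξ‖ ≤ C * ‖j' s ξ‖ := by
    refine le_of_sq_le_sq ?_ (by positivity)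
    have m1 : ⟪J s ξ, J' s ξ⟫ ≤ ⟪J (t - 1) ξ, J' (t - 1) ξ⟫ := F.mono (by linarith)
    have m2 := neg_le_of_abs_le (abs_real_inner_le_norm (J s ξ) (J' s ξ))
    have m3 := pow_le_pow_left₀ (by positivity) u 2
    have m4 := d2 r
    rw [sub_sub_cancel, div_one] at r3
    nlinarith [sq_nonneg ‖J s ξ‖, sq_nonneg ‖J' s ξ‖, mul_nonneg (norm_nonneg (J s ξ))
      (norm_nonneg (J' s ξ))]
  have k2 : ‖J r ξ‖ ≤ ‖J s ξ‖ := by
    refine le_of_sq_le_sq ?_ (norm_nonneg _)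
    refine antitoneOn_of_deriv_nonpos (convex_Iic t) (f := fun t => ‖J t ξ‖ ^ 2)
      (fun x _ => (F.n1 x).continuousAt.continuousWithinAt)
      (fun x _ => (F.n1 x).differentiableAt.differentiableWithinAt) (fun x hx => ?_)
      (show s ≤ t by linarith) r2.le (by linarith)
    have : ⟪J x ξ, J' x ξ⟫ ≤ ⟪J t ξ, J' t ξ⟫ := F.mono (mem_Iic.1 (interior_subset hx))
    rw [(F.n1 x).deriv]
    linarith
  have k3 := (h.fm ξ).grow h0 (show s ≤ r by linarith)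
  have k4 := h.dn r ξ
  have k5 : C * (‖J r ξ‖ + ‖J' r ξ‖) ≤ C * (2 * (C * ‖j' s ξ‖)) :=
    mul_le_mul_of_nonneg_left (by linarith [norm_nonneg (J' s ξ)]) c.le
  refine h.inj s ξ h0 (norm_le_zero_iff.1 (not_lt.1 fun k6 => ?_))
  nlinarith [mul_pos (show 0 < r - s - 2 * C ^ 2 by linarith) k6, norm_nonneg (j' r ξ)]

theorem neg0 {s t : ℝ} {ξ : V × V} (hT : t + (1 + 2 * C ^ 2) ≤ s) (h0 : j s ξ = 0)
    (h1 : τ' ξ = 0) (hξ : ξ ≠ 0) : ⟪J t ξ, J' t ξ⟫ < 0 := by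
  simpa using h.rev.pos0 (s := -s) (t := -t) (by linarith) (by simpa using h0)
    (by simpa using h1) hξ

/-- A field that vanishes at `s` is a sum of fields that vanish at earlier and later times. -/
theorem split {s s₁ s₂ : ℝ} {ξ : V × V} (a1 : s₁ ≤ s) (b1 : s ≤ s₂) (ab : s₁ < s₂)
    (h0 : j s ξ = 0) (h1 : τ' ξ = 0) : ∃ ξ₁ ξ₂, ξ = ξ₁ + ξ₂ ∧ j s₁ ξ₁ = 0 ∧ j s₂ ξ₂ = 0 ∧
      τ' ξ₁ = 0 ∧ τ' ξ₂ = 0 ∧ ∀ t, ⟪J' t ξ₁, J t ξ₂⟫ ≤ ⟪J t ξ₁, J' t ξ₂⟫ := by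
  obtain ⟨ι, hι⟩ := h.io s₁
  have i1 : Function.Injective (j s₂ ∘ₗ ι) := (injective_iff_map_eq_zero _).2 fun e he => by
    have := (h.fm (ι e)).grow (hι e).1 ab.le
    rw [(hι e).2, show j s₂ (ι e) = 0 from he, norm_zero] at this
    exact norm_le_zero_iff.1 (le_of_mul_le_mul_left (by rwa [mul_zero]) (sub_pos.2 ab))
  obtain ⟨e, he⟩ := LinearMap.surjective_of_injective i1 (j s₂ ξ)
  obtain ⟨ξ₁, ξ₂, c1, c2, rfl⟩ : ∃ ξ₁ ξ₂, j s₁ ξ₁ = 0 ∧ j s₂ ξ₂ = 0 ∧ ξ = ξ₁ + ξ₂ :=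
    ⟨ι e, ξ - ι e, (hι e).1, by rw [map_sub, ← he]; exact sub_self _, by abel⟩
  have t0 := h.tau h0 h1
  have t1 := h.tm s₁ ξ₁
  have t2 := h.tm s₂ ξ₂
  rw [map_add] at h0 h1 t0
  rw [c1, inner_zero_right] at t1
  rw [c2, inner_zero_right] at t2
  have t3 : τ' ξ₁ = 0 := (mul_eq_zero.1 (by
    linear_combination t1 + t2 + t0 + s₂ * h1 : (s₂ - s₁) * τ' ξ₁ = 0)).resolve_left
      (sub_pos.2 ab).ne'
  refine ⟨ξ₁, ξ₂, rfl, c1, c2, t3, by linarith, fun t => sub_nonneg.1 ?_⟩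
  have m1 := (h.fm ξ₁).mono a1
  have m2 := (h.fm ξ₂).mono b1
  simp only [c1, c2, inner_zero_left] at m1 m2
  rw [h.symp _ _ s, eq_neg_of_add_eq_zero_left h0, inner_neg_left, real_inner_comm (j s ξ₂)]
  rw [eq_neg_of_add_eq_zero_left h0, inner_neg_left] at m1
  linarith

theorem inv0 {s t : ℝ} {ξ : V × V} (h0 : j s ξ = 0) (z : J' t ξ = 0) : ξ = 0 := by
  have c2 := sq_nonneg C
  have m1 := min_le_right s (t - (1 + 2 * C ^ 2))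
  have m2 := le_max_right s (t + (1 + 2 * C ^ 2))
  obtain ⟨ξ₁, ξ₂, rfl, c1, c2, t1, t2, om⟩ := h.split (min_le_left s (t - (1 + 2 * C ^ 2)))
    (le_max_left s (t + (1 + 2 * C ^ 2))) (by linarith) h0 (by rw [← h.tn' t, z, inner_zero_right])
  have p1 := fun k => h.pos0 (t := t) (by linarith) c1 t1 k
  have p2 := fun k => h.neg0 (t := t) m2 c2 t2 k
  have o := om t
  rw [map_add] at z
  rw [eq_neg_of_add_eq_zero_left z, inner_neg_left, real_inner_comm] at o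
  rw [eq_neg_of_add_eq_zero_left z, inner_neg_right] at p1
  by_cases e1 : ξ₁ = 0
  · by_cases e2 : ξ₂ = 0
    · rw [e1, e2, add_zero]
    · rw [e1, map_zero, inner_zero_left] at o
      linarith [p2 e2]
  · by_cases e2 : ξ₂ = 0
    · simpa [e2] using p1 e1
    · linarith [p1 e1, p2 e2]

end Sys

variable {m m' : MF} {φ : V × V → V × V}

theorem sys0 (h : m.OK) (hj : m.Jac) (h' : m'.OK) (hj' : m'.Jac) (hc : CF m m' φ)
    (hu : m.Up 0) (hu' : m'.Up 0) (hs : Sy m m' φ) : ∃ C, ∀ z : V × V, ‖z.2‖ = 1 →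
    Sys 0 C (lJ m z (.id ℝ _)) (lJ' m z (.id ℝ _)) (lJ m' (φ z) (fderiv ℝ φ z))
      (lJ' m' (φ z) (fderiv ℝ φ z)) ((innerSL ℝ z.2).comp (m.hor z)).toLinearMap
      ((innerSL ℝ z.2).comp (m.ver z)).toLinearMap (fun t => (m.Z t z).2)
      fun t => (m'.Z t (φ z)).2 :=
  hc.bdd.imp fun _ hC => sys h hj h' hj' hc hu (by simpa using hu') hs hC

theorem good0 (h : m.OK) (hj : m.Jac) (h' : m'.OK) (hj' : m'.Jac) (hc : CF m m' φ)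
    (hu : m.Up 0) (hu' : m'.Up 0) (hs : Sy m m' φ) : ∃ T₀, 0 < T₀ ∧ ∀ x, m'.Good (fr φ x) T₀ ∧
      ∀ v e t, ‖v‖ = 1 → ⟪v, e⟫ = 0 → e ≠ 0 → t ≤ -T₀ →
        ⟪m'.J (fr φ x v) (fderiv ℝ (fr φ x) v e) t, m'.J' (fr φ x v) (fderiv ℝ (fr φ x) v e) t⟫ < 0 := by
  obtain ⟨C, S⟩ := sys0 h hj h' hj' hc hu hu' hs
  have v0 : ∀ {v : V}, ‖v‖ = 1 → v ≠ 0 := fun hv => norm_ne_zero_iff.1 (hv ▸ one_ne_zero)
  have j0 : ∀ (z : V × V) e, lJ m z (.id ℝ _) 0 (0, e) = 0 := fun z e =>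
    (J_zero h z (0, e)).1.trans (by simp [MF.hor])
  have t0 : ∀ x v e : V, ⟪v, e⟫ = 0 →
      ((innerSL ℝ v).comp (m.ver (x, v))).toLinearMap (0, e) = 0 := fun x v e he => by
    simpa [MF.ver] using he
  refine ⟨1 + 2 * C ^ 2, by positivity, fun x => ⟨⟨fun v e t hv _ h0 => ?_,
    fun v e e' t hv _ _ => ?_, fun v e t hv he e0 ht => ?_⟩, fun v e t hv he e0 ht => ?_⟩⟩
  · rw [d_fr hc x (v0 hv)] at h0
    exact congrArg Prod.snd ((S (x, v) hv).inv0 (j0 _ e) h0)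
  · rw [d_fr hc x (v0 hv), d_fr hc x (v0 hv)]
    exact (S (x, v) hv).lag (j0 _ e) (j0 _ e') t
  · rw [d_fr hc x (v0 hv)]
    exact (S (x, v) hv).pos0 (by rwa [zero_add]) (j0 _ e) (t0 x v e he)
      fun k => e0 (congrArg Prod.snd k)
  · rw [d_fr hc x (v0 hv)]
    exact (S (x, v) hv).neg0 (by linarith) (j0 _ e) (t0 x v e he)
      fun k => e0 (congrArg Prod.snd k)

end Pool.Agent.MP_3ee8cb_gt.D3.Dia
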