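import Pool.Agent.MP_3ee8cb_gt.D3RK.RSpec
import Pool.Agent.MP_3ee8cb_gt.D3FL.HFLP

/-! A time shift makes the conjugacy commute with the flip: the case of rank one. -/

namespace Pool.Agent.MP_3ee8cb_gt.D3RK

open Set Filter Topology D3 D3FL.HFLP
open D3.SI (ac)
open CR (Met UT dd ng tm MinP)
open LV (QP CJ)
open scoped RealInnerProductSpace

def SFLP0 : Prop := On2 fun g h _ C' _ Λ _ _ _ _ Φ Ψ ρ F => ∀ (m' : MF) (lg' : V × V → V) O',
  Hd m' lg' → Lk h C' Ψ m' → (∀ y z, ‖lg' (y, z)‖ = dd h y z) → Act m' Λ O' → MinP h Ψ →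
  Tr m' O' → Den (Str m' lg') → ∃ (c : ℝ) (F' : UT g ≃ₜ UT h), (∀ p, F' p = Ψ c (F p)) ∧
    CJ g h Φ Ψ ρ F' ∧ ∀ p, F' (ng p) = ng (F' p)

namespace Flp0

variable {h : Met 3} {C : TB.Chr 3} {Ψ : ℝ → UT h → UT h} {m : MF}

/-- Frame components. -/
def fz (m : MF) (p : UT h) : V × V := (p.1.1, m.S p.1.1 p.1.2)

/-- The unit vector with given frame components. -/
def un (k : Lk h C Ψ m) (z : U) : UT h := ⟨(z.1.1, m.R z.1.1 z.1.2), by
  change h z.1.1 (m.R z.1.1 z.1.2) (m.R z.1.1 z.1.2) = 1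
  rw [k.orth, real_inner_self_eq_norm_sq, show ‖z.1.2‖ = 1 from z.2, one_pow]⟩

theorem fz_mem (o : m.OK) (k : Lk h C Ψ m) (p : UT h) : fz m p ∈ U := by
  have := k.orth p.1.1 (m.S p.1.1 p.1.2) (m.S p.1.1 p.1.2)
  rw [o.RS, p.2, real_inner_self_eq_norm_sq] at this
  exact (pow_eq_one_iff_of_nonneg (norm_nonneg _) two_ne_zero).1 this.symm

theorem un_fz (o : m.OK) (k : Lk h C Ψ m) (p : UT h) : un k ⟨fz m p, fz_mem o k p⟩ = p :=
  Subtype.ext (Prod.ext rfl (o.RS _ _))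

theorem fz_un (o : m.OK) (k : Lk h C Ψ m) (z : U) : fz m (un k z) = z.1 :=
  Prod.ext rfl (o.SR _ _)

theorem fz_inj (o : m.OK) (k : Lk h C Ψ m) {p q : UT h} (e : fz m p = fz m q) : p = q := by
  rw [← un_fz o k p, ← un_fz o k q]
  exact congrArg (un k) (Subtype.ext e)

theorem un_cont (o : m.OK) (k : Lk h C Ψ m) : Continuous (un k) :=
  (continuous_subtype_val.fst.prodMk ((o.cR.continuous.comp continuous_subtype_val.fst).clm_apply
    continuous_subtype_val.snd)).subtype_mk _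

theorem fz_flow (k : Lk h C Ψ m) (t : ℝ) (p : UT h) : m.Z t (fz m p) = fz m (Ψ t p) := k.flow t p

end Flp0

open Flp0

theorem flp0 (cn : SCN) : SFLP0 := by
  intro g h _ C' Γ Λ _ _ _ _ Φ Ψ ρ F qg qh _ _ _ _ cj m lg O H k hd ac' mh tr den
  have o := H.ok
  have db := qh.rp.db
  have z0 := qh.rp.flow.zero
  have eh := LV.eqv 3 h Λ Ψ qh mh
  obtain ⟨D, hD⟩ := (LV.uq 3 g h Γ Λ Φ Ψ ρ F qg qh cj eh).bdd
  obtain ⟨G, cG, hG⟩ : ∃ G : UT g ≃ₜ UT h, CJ g h Φ Ψ ρ G ∧ ∀ p, G p = ng (F (ng p)) :=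
    ⟨_, cj_ng qg qh cj, fun _ => rfl⟩
  have sF := cj_symm qg.rp.deck cj
  obtain ⟨θ, hθ⟩ : ∃ θ : UT h → UT h, ∀ w, θ w = G (F.symm w) := ⟨_, fun _ => rfl⟩
  have cθ : Continuous θ := (G.continuous.comp F.symm.continuous).congr fun w => (hθ w).symm
  have fθ : ∀ t w, θ (Ψ t w) = Ψ t (θ w) := fun t w => by rw [hθ, hθ, sF.flow, cG.flow]
  have bd : ∀ w t, dd h (Ψ t w).1.1 (Ψ t (θ w)).1.1 ≤ D := fun w t => by
    rw [← fθ, hθ, hG]
    have := hD (F.symm (Ψ t w)) (ng (F.symm (Ψ t w))) rfl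
    rwa [F.apply_symm_apply] at this
  obtain ⟨c, hc⟩ : ∃ c : UT h → ℝ, ∀ w, c w = dd h (θ w).1.1 (Ψ (-D) w).1.1 - D :=
    ⟨_, fun _ => rfl⟩
  have ft : Continuous fun p : UT h => p.1.1 := continuous_subtype_val.fst
  have cc : Continuous c := ((db.cont.comp ((ft.comp cθ).prodMk (ft.comp
    (qh.jc.comp (continuous_const.prodMk continuous_id))))).sub continuous_const).congr
      fun w => (hc w).symm
  have val : ∀ w s, θ w = Ψ s w → c w = s := fun w s e => by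
    have a1 := bd w 0
    rw [z0 (θ w), e, mh, zero_sub, abs_neg] at a1
    rw [hc, e, mh, abs_of_nonneg (by linarith [(abs_le.1 a1).1])]
    ring
  have ex : ∀ w, θ w = Ψ (c w) w := fun w => by
    have cl : IsClosed {z : U | θ (un k z) = Ψ (c (un k z)) (un k z)} :=
      isClosed_eq (cθ.comp (un_cont o k))
        (qh.jc.comp ((cc.comp (un_cont o k)).prodMk (un_cont o k)))
    have h1 : (⟨fz m w, fz_mem o k w⟩ : U) ∈ closure {z : U | Str m lg z.1} := by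
      rw [closure_subtype]
      refine closure_mono ?_ (den _ (fz_mem o k w))
      exact fun z hz => ⟨⟨z, hz.1⟩, hz.2, rfl⟩
    have h2 : {z : U | Str m lg z.1} ⊆ {z : U | θ (un k z) = Ψ (c (un k z)) (un k z)} := by
      intro z hz
      obtain ⟨s, hs⟩ := hz _ (fz_mem o k (θ (un k z))) ⟨D, fun t => by
        unfold ds
        rw [← fz_un o k z, fz_flow k, fz_flow k, hd]
        exact bd _ t⟩
      rw [← fz_un o k z, fz_flow k] at hs
      have e := fz_inj o k hs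
      change θ (un k z) = Ψ (c (un k z)) (un k z)
      rw [val _ s e]
      exact e
    have h3 := closure_minimal h2 cl h1
    change θ (un k _) = Ψ (c (un k _)) (un k _) at h3
    rwa [un_fz o k] at h3
  have i1 : ∀ t w, c (Ψ t w) = c w := fun t w => val _ _ (by
    rw [fθ, ex w, ← qh.add, ← qh.add, add_comm])
  have i2 : ∀ (γ : Λ) (w w' : UT h), w'.1 = tm γ w.1 → c w' = c w := fun γ w w' e =>
    val _ _ (Subtype.ext (by
      have a1 := cG.equi _ _ _ (sF.equi γ w w' e)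
      rw [ρ.apply_symm_apply, ← hθ, ← hθ, ex w] at a1
      rw [a1, eh γ w w' e]))
  classical
  let c' : V × V → ℝ := fun z => if hz : z ∈ U then c (un k ⟨z, hz⟩) else 0
  have e' : ∀ w, c' (fz m w) = c w := fun w => by
    simp only [c', dif_pos (fz_mem o k w), un_fz o k]
  have key := (cn m Λ O o H.jac ac' tr).2 c' (by
      rw [continuousOn_iff_continuous_domRestrict]
      refine (cc.comp (un_cont o k)).congr fun z => ?_
      change c (un k z) = c' z.1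
      simp only [c', dif_pos z.2])
    fun z hz => by
      obtain ⟨w, rfl⟩ : ∃ w : UT h, fz m w = z := ⟨un k ⟨z, hz⟩, fz_un o k _⟩
      refine ⟨fun t => by rw [fz_flow k, e', e', i1], fun γ => ?_⟩
      have a1 : ac O γ (fz m w) = fz m (CR.uc_mv qh.rp.deck γ w) :=
        Prod.ext rfl (ac'.der γ w.1.1 w.1.2).symm
      rw [a1, e', e', i2 γ w _ rfl]
  obtain ⟨⟨w₀⟩, -, -⟩ := CR.lift_ut le_rfl qh.rp.riem
  have cst : ∀ w, c w = c w₀ := fun w => by
    rw [← e', ← e', key _ (fz_mem o k w) _ (fz_mem o k w₀)]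
  refine ⟨c w₀ / 2, F.trans (flH qh (c w₀ / 2)), fun _ => rfl, ⟨fun t p => ?_,
    fun γ p q e => eh (ρ γ) _ _ (cj.equi γ p q e) _⟩, fun p => ?_⟩
  · change Ψ _ (F (Φ t p)) = Ψ t (Ψ _ (F p))
    rw [cj.flow, ← qh.add, ← qh.add, add_comm]
  · change Ψ _ (F (ng p)) = ng (Ψ _ (F p))
    have a1 : F (ng p) = ng (Ψ (c w₀) (F p)) := by
      rw [← cst (F p), ← ex, hθ, F.symm_apply_apply, hG, ng_ng]
    rw [a1, qh.rp.fl.rev, ← qh.add, show -(c w₀ / 2) + c w₀ = c w₀ / 2 by ring]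

end Pool.Agent.MP_3ee8cb_gt.D3RK
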