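import Pool.Agent.MP_3ee8cb_gt.D3HB.Umb

/-! A continuous field of singular tangent maps on the two-sphere vanishes somewhere. -/

namespace Pool.Agent.MP_3ee8cb_gt.D3RK

open D3 (V)
open scoped RealInnerProductSpace

theorem hair : ∀ L : V → V →L[ℝ] V, ContinuousOn L {a | ‖a‖ = 1} →
    (∀ a, ‖a‖ = 1 → L a a = 0 ∧ ∃ e, ⟪a, e⟫ = 0 ∧ e ≠ 0 ∧ L a e = 0) →
    ∃ a, ‖a‖ = 1 ∧ L a = 0 := by
  intro L hL h
  have c : ContinuousOn (fun z : V × V × V => L z.1)
      {z | ‖z.1‖ = 1 ∧ ⟪z.1, z.2.1⟫ = 0 ∧ ⟪z.1, z.2.2⟫ = 0} :=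
    hL.comp continuous_fst.continuousOn fun z hz => hz.1
  obtain ⟨v, hv, β, hβ⟩ := D3HB.umbilic (fun v a b => ⟪L v a, L v b⟫)
    ((c.clm_apply (by fun_prop)).inner (c.clm_apply (by fun_prop)))
    (fun v _ => ⟨(ContinuousLinearMap.adjoint (L v)).comp (L v), fun a b _ _ => by
      rw [ContinuousLinearMap.comp_apply, ContinuousLinearMap.adjoint_inner_left]⟩)
    fun v a b _ _ _ => real_inner_comm _ _
  obtain ⟨h0, e, e1, e2, e3⟩ := h v hv
  have b0 : β = 0 := by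
    have := hβ e e e1 e1
    rw [e3, inner_zero_left] at this
    exact (mul_eq_zero.1 this.symm).resolve_right (inner_self_ne_zero.2 e2)
  refine ⟨v, hv, ContinuousLinearMap.ext fun x => ?_⟩
  have p : ⟪v, x - ⟪v, x⟫ • v⟫ = 0 := by
    rw [inner_sub_right, real_inner_smul_right, real_inner_self_eq_norm_sq, hv]
    ring
  have := hβ _ _ p p
  rw [b0, zero_mul, inner_self_eq_zero, map_sub, map_smul, h0, smul_zero, sub_zero] at this
  exact this

end Pool.Agent.MP_3ee8cb_gt.D3RK
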