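import Pool.Agent.MP_3ee8cb_gt.D3NP.OSpec

/-! Nonpositive curvature: focal times for the equation in the plane. -/

namespace Pool.Agent.MP_3ee8cb_gt.D3RK

open Matrix Set Filter Topology D3OD
open D3NP (Two lf)

/-- The form `⟨J, J'⟩`. -/
def qf (X Y : M) (e : V) : ℝ := (X *ᵥ e) ⬝ᵥ (Y *ᵥ e)

/-- The squared norm. -/
def nq (x : V) : ℝ := x ⬝ᵥ x

/-- The form is definite far from the diagonal. -/
structure Far (T : ℝ) (A A' : ℝ → ℝ → M) : Prop where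
  pos : ∀ s t e, e ≠ 0 → s + T ≤ t → 0 < qf (A s t) (A' s t) e
  neg : ∀ s t e, e ≠ 0 → t + T ≤ s → qf (A s t) (A' s t) e < 0

/-- Derivatives with respect to both times. -/
structure Pa (kN : ℝ → M) (A A' D E : ℝ → ℝ → M) : Prop where
  dA : ∀ s t i l, HasFDerivAt (fun p : ℝ × ℝ => A p.1 p.2 i l) (lf (-D s t i l) (A' s t i l)) (s, t)
  dA' : ∀ s t i l, HasFDerivAt (fun p : ℝ × ℝ => A' p.1 p.2 i l)
    (lf (-E s t i l) ((kN t * A s t) i l)) (s, t)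
  symp : ∀ s t x e x' e', om (D s t *ᵥ x + A s t *ᵥ e) (E s t *ᵥ x + A' s t *ᵥ e)
    (D s t *ᵥ x' + A s t *ᵥ e') (E s t *ᵥ x' + A' s t *ᵥ e') = om x e x' e'

/-- The facts used for the focal times. -/
structure Co (T : ℝ) (kN : ℝ → M) (A A' D E : ℝ → ℝ → M) : Prop where
  cur : Cur 0 kN
  sol : ∀ s, MSol kN (A s) (A' s)
  far : Far T A A'
  det : ∀ s t, (A' s t).det ≠ 0
  pa : Pa kN A A' D E

/-- The two focal times. -/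
structure Ft (T : ℝ) (A A' : ℝ → ℝ → M) (a b : ℝ → ℝ) : Prop where
  neg : ∀ s t e, t < a s → e ≠ 0 → qf (A s t) (A' s t) e < 0
  neg' : ∀ s t, a s < t → ∃ e, 0 < qf (A s t) (A' s t) e
  pos : ∀ s t e, b s < t → e ≠ 0 → 0 < qf (A s t) (A' s t) e
  pos' : ∀ s t, t < b s → ∃ e, qf (A s t) (A' s t) e < 0
  bd : ∀ s, s - T ≤ a s ∧ a s ≤ b s ∧ b s ≤ s + T
  ka : ∀ s, ∃ e, e ≠ 0 ∧ A s (a s) *ᵥ e = 0
  kb : ∀ s, ∃ e, e ≠ 0 ∧ A s (b s) *ᵥ e = 0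
  eq : ∀ s, a s = b s ↔ A s (a s) = 0

/-- A statement about one orbit. -/
def On0 (P : (ℝ → M) → (ℝ → ℝ → M) → (ℝ → ℝ → M) → Prop) : Prop :=
  ∀ (C : ℝ) (kM kN hh hv vh vv : ℝ → M) (A A' : ℝ → ℝ → M),
    OrbA 0 C kM kN hh hv vh vv → Two kN hv vv A A' → P kN A A'

/-- A statement about the focal times. -/
def OnT (P : (ℝ → ℝ → M) → (ℝ → ℝ → M) → (ℝ → ℝ) → (ℝ → ℝ) → Prop) : Prop :=
  ∀ T kN A A' D E a b, Co T kN A A' D E → Ft T A A' a b → P A A' a b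

def S_POS0 : Prop := ∀ C : ℝ, ∃ T : ℝ, 0 ≤ T ∧ ∀ (kM kN hh hv vh vv : ℝ → M)
  (A A' : ℝ → ℝ → M), OrbA 0 C kM kN hh hv vh vv → Two kN hv vv A A' → Far T A A'

def S_INV0 : Prop := On0 fun _ A A' => ∀ T, Far T A A' → ∀ s t, (A' s t).det ≠ 0

def S_PA0 : Prop := On0 fun kN A A' => ∃ D E, Pa kN A A' D E

def S_FT : Prop := ∀ T kN A A' D E, Co T kN A A' D E → ∃ a b, Ft T A A' a b

/-- The Gram inequality between two zeros. -/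
def S_GRAM : Prop := ∀ T kN A A' D E, Co T kN A A' D E → ∀ (s a b : ℝ) (u v : V), a < b →
  A s a *ᵥ u = 0 → A s b *ᵥ v = 0 → ∀ t ∈ Icc a b,
    nq (A' s a *ᵥ u) * nq (A' s b *ᵥ v) ≤ (A' s t).det ^ 2 * (nq u * nq v)

/-- Outside the focal interval the Jacobian is larger. -/
def S_YM : Prop := OnT fun _ A' a b => ∀ s t,
  (t ≤ a s → |(A' s (a s)).det| ≤ |(A' s t).det|) ∧
  (b s ≤ t → |(A' s (b s)).det| ≤ |(A' s t).det|)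

def S_DI1 : Prop := OnT fun A A' a _ => ∀ s c : ℝ,
  (∀ e, e ≠ 0 → A s (a s) *ᵥ e = 0 → c * nq (A' s (a s) *ᵥ e) < nq e) →
  ∀ᶠ r in 𝓝[>] (0 : ℝ), a s + c * r ≤ a (s + r)

def S_DI2 : Prop := OnT fun A A' _ b => ∀ (s c : ℝ) (e : V), A s (b s) *ᵥ e = 0 →
  c * nq (A' s (b s) *ᵥ e) < nq e → ∀ᶠ r in 𝓝[>] (0 : ℝ), b s + c * r ≤ b (s + r)

/-- The speeds of the focal times. -/
def S_FOC : Prop := OnT fun _ A' a b => ∀ s, ∃ p q : ℝ, 0 ≤ p ∧ 0 ≤ q ∧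
  (∀ t, 1 ≤ (A' s t).det ^ 2 * (p * q)) ∧ ∀ ε : ℝ, 0 < ε → ∀ᶠ r in 𝓝[>] (0 : ℝ),
    a s + (p - ε) * r ≤ a (s + r) ∧ b s + (q - ε) * r ≤ b (s + r)

/-- Integration of a lower bound for the lower right derivative. -/
def S_DIN0 : Prop := ∀ f k : ℝ → ℝ, Continuous f → Continuous k →
  (∀ s ε : ℝ, 0 < ε → ∀ᶠ r in 𝓝[>] (0 : ℝ), f s + (k s - ε) * r ≤ f (s + r)) →
  ∀ a b, a ≤ b → ∫ s in a..b, k s ≤ f b - f a

def R_POS0 : Prop := S_EX → S_UQ → S_OM → S_GROW → S_POS0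
def R_INV0 : Prop := S_EX → S_UQ → S_OM → S_LAM → S_INV0
def R_PA0 : Prop := S_MEX → S_UQ → S_OM → S_PA0
def R_FT : Prop := S_OM → S_FT
def R_GRAM : Prop := S_OM → S_GROW → S_GRAM
def R_FOC : Prop := S_EIG → S_GRAM → S_YM → S_DI1 → S_DI2 → S_FOC

end Pool.Agent.MP_3ee8cb_gt.D3RK
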