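import Pool.Agent.MP_3ee8cb_gt.D3RK.Spec
import Pool.Agent.MP_3ee8cb_gt.D3NP.RLK2

/-! The focal times as functions of the vector. -/

namespace Pool.Agent.MP_3ee8cb_gt.D3RK

open Set Filter Topology D3
open D3NP (At At2 Dt Two)
open D3OD (OB pv co OrbA co_pv pv_perp pv_co)
open scoped RealInnerProductSpace Matrix

namespace RFOC2

variable {m' : MF} {φ : V × V → V × V} {T : ℝ} {w : V × V}

/-- The properties of the focal times at one vector. -/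
structure P (m' : MF) (φ : V × V → V × V) (T : ℝ) (w : V × V) (α β : ℝ) : Prop where
  neg : ∀ t e, t < α → ⟪w.2, e⟫ = 0 → e ≠ 0 → qq m' φ w t e < 0
  neg' : ∀ t, α < t → ∃ e, ⟪w.2, e⟫ = 0 ∧ 0 < qq m' φ w t e
  pos : ∀ t e, β < t → ⟪w.2, e⟫ = 0 → e ≠ 0 → 0 < qq m' φ w t e
  pos' : ∀ t, t < β → ∃ e, ⟪w.2, e⟫ = 0 ∧ qq m' φ w t e < 0
  bd : -T ≤ α ∧ α ≤ β ∧ β ≤ T
  det : ∀ t, Dt m' (fr φ w.1) 0 t w.2 ≠ 0
  ker : ∃ e, ⟪w.2, e⟫ = 0 ∧ e ≠ 0 ∧ At m' (fr φ w.1) α w.2 e = 0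
  eq : α = β ↔ At m' (fr φ w.1) α w.2 = 0

theorem qq0 (t : ℝ) : qq m' φ w t 0 = 0 := by
  rw [qq, map_zero, inner_zero_left]

theorem le {α β α' β' : ℝ} (h : P m' φ T w α β) (h' : P m' φ T w α' β') : α' ≤ α ∧ β ≤ β' := by
  constructor
  · refine not_lt.1 fun hl => ?_
    obtain ⟨t, h1, h2⟩ := exists_between hl
    obtain ⟨e, he, hq⟩ := h.neg' t h1
    have h0 : e ≠ 0 := fun h0 => by
      rw [h0, qq0] at hq
      exact lt_irrefl _ hq
    exact lt_asymm hq (h'.neg t e h2 he h0)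
  · refine not_lt.1 fun hl => ?_
    obtain ⟨t, h1, h2⟩ := exists_between hl
    obtain ⟨e, he, hq⟩ := h.pos' t h2
    have h0 : e ≠ 0 := fun h0 => by
      rw [h0, qq0] at hq
      exact lt_irrefl _ hq
    exact lt_asymm hq (h'.pos t e h1 he h0)

theorem uniq {α β α' β' : ℝ} (h : P m' φ T w α β) (h' : P m' φ T w α' β') : α = α' ∧ β = β' :=
  ⟨le_antisymm (le h' h).1 (le h h').1, le_antisymm (le h h').2 (le h' h).2⟩

theorem pv0 (b : OB) : pv b 0 = 0 := by simp [pv]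

theorem pt {A A' : ℝ → ℝ → D3OD.M} {a c : ℝ → ℝ} (F : Ft T A A' a c)
    (hd : ∀ s t, (A' s t).det ≠ 0) (hw : ‖w.2‖ = 1) {s : ℝ} {b : OB} (hb : b 0 = w.2)
    (L : ∀ t, Dt m' (fr φ w.1) 0 (t - s) w.2 = |(A' s t).det| ∧
      ∀ x, qq m' φ w (t - s) (pv b x) = qf (A s t) (A' s t) x ∧
        (At m' (fr φ w.1) (t - s) w.2 (pv b x) = 0 ↔ A s t *ᵥ x = 0)) :
    P m' φ T w (a s - s) (c s - s) := by
  have q1 : ∀ t x, qq m' φ w t (pv b x) = qf (A s (t + s)) (A' s (t + s)) x := fun t x => by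
    have h := ((L (t + s)).2 x).1
    rwa [add_sub_cancel_right] at h
  have p1 : ∀ x, ⟪w.2, pv b x⟫ = 0 := fun x => by rw [← hb, pv_perp]
  have p2 : ∀ e, ⟪w.2, e⟫ = 0 → pv b (co b e) = e := fun e he => pv_co (by rw [hb, he])
  have p3 : ∀ e, ⟪w.2, e⟫ = 0 → e ≠ 0 → co b e ≠ 0 := fun e he h0 h => h0 (by
    rw [← p2 e he, h, pv0])
  refine ⟨fun t e ht he h0 => ?_, fun t ht => ?_, fun t e ht he h0 => ?_, fun t ht => ?_, ?_,
    fun t => ?_, ?_, ?_⟩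
  · rw [← p2 e he, q1]
    exact F.neg s _ _ (by linarith) (p3 e he h0)
  · obtain ⟨x, hx⟩ := F.neg' s (t + s) (by linarith)
    exact ⟨pv b x, p1 x, by rwa [q1]⟩
  · rw [← p2 e he, q1]
    exact F.pos s _ _ (by linarith) (p3 e he h0)
  · obtain ⟨x, hx⟩ := F.pos' s (t + s) (by linarith)
    exact ⟨pv b x, p1 x, by rwa [q1]⟩
  · obtain ⟨h1, h2, h3⟩ := F.bd s
    exact ⟨by linarith, by linarith, by linarith⟩
  · have h := (L (t + s)).1
    rw [add_sub_cancel_right] at h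
    rw [h]
    exact abs_ne_zero.2 (hd _ _)
  · obtain ⟨x, h0, hx⟩ := F.ka s
    refine ⟨pv b x, p1 x, fun h => h0 ?_, ((L (a s)).2 x).2.2 hx⟩
    rw [← co_pv b x, h, ← pv0 b, co_pv]
  · rw [sub_left_inj, F.eq s]
    constructor
    · intro h
      ext1 v
      have h1 : ⟪w.2, v - ⟪w.2, v⟫ • w.2⟫ = 0 := by
        rw [inner_sub_right, inner_smul_right, real_inner_self_eq_norm_sq, hw]
        ring
      have h2 := ((L (a s)).2 (co b (v - ⟪w.2, v⟫ • w.2))).2.2 (by rw [h, Matrix.zero_mulVec])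
      rw [p2 _ h1, map_sub, map_smul, D3NP.RLK2.at0 _ _ hw, smul_zero, sub_zero] at h2
      exact h2
    · intro h
      refine Matrix.toLin'.injective (LinearMap.ext fun x => ?_)
      rw [Matrix.toLin'_apply, Matrix.toLin'_apply, Matrix.zero_mulVec]
      exact ((L (a s)).2 x).2.1 (by rw [h]; rfl)

end RFOC2

open RFOC2 in
theorem rFOC2 : R_FOC2 := by
  intro hpos hinv hpa hft hfoc m m' φ ho hj ⟨C, hC⟩
  obtain ⟨T, hT, hfar⟩ := hpos C
  have key : ∀ z ∈ U, ∃ a c : ℝ → ℝ, (∀ s, P m' φ T (m.Z s z) (a s - s) (c s - s)) ∧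
      ∃ p q : ℝ, 0 ≤ p ∧ 0 ≤ q ∧ (∀ t, 1 ≤ Dt m' (fr φ z.1) 0 t z.2 ^ 2 * (p * q)) ∧
        ∀ ε : ℝ, 0 < ε → ∀ᶠ r in 𝓝[>] (0 : ℝ),
          a 0 + (p - ε) * r ≤ a r ∧ c 0 + (q - ε) * r ≤ c r := by
    intro z hz
    obtain ⟨kM, kN, hh, hv, vh, vv, A, A', o, tw, L⟩ := hC z hz
    have far := hfar kM kN hh hv vh vv A A' o tw
    have hd := hinv C kM kN hh hv vh vv A A' o tw T far
    obtain ⟨D, E, pa⟩ := hpa C kM kN hh hv vh vv A A' o tw
    have co : Co T kN A A' D E := ⟨by simpa using o.cN, tw.sol, far, hd, pa⟩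
    obtain ⟨a, c, F⟩ := hft T kN A A' D E co
    obtain ⟨p, q, hp, hq, h1, h2⟩ := hfoc T kN A A' D E a c co F 0
    refine ⟨a, c, fun s => ?_, p, q, hp, hq, fun t => ?_, fun ε hε => ?_⟩
    · obtain ⟨b, hb, Lb⟩ := L s
      exact pt F hd ((hj.norm s z).trans hz) hb Lb
    · obtain ⟨b, -, Lb⟩ := L 0
      have h := (Lb t).1
      rw [ho.zero, sub_zero] at h
      rw [h, sq_abs]
      exact h1 t
    · simpa only [zero_add] using h2 ε hε
  have ex : ∀ z, ∃ α β : ℝ, z ∈ U → P m' φ T z α β := fun z => by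
    by_cases hz : z ∈ U
    · obtain ⟨a, c, h, -⟩ := key z hz
      have h0 := h 0
      rw [ho.zero] at h0
      exact ⟨_, _, fun _ => h0⟩
    · exact ⟨0, 0, fun h => absurd h hz⟩
  choose τ σ h using ex
  refine ⟨T, τ, σ, hT, fun z hz => (h z hz).neg, fun z hz => (h z hz).neg',
    fun z hz => (h z hz).pos, fun z hz => (h z hz).pos', fun z hz => (h z hz).bd,
    fun z hz => (h z hz).det, fun z hz => (h z hz).ker, fun z hz => (h z hz).eq, fun z hz => ?_⟩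
  obtain ⟨a, c, hP, p, q, hp, hq, h1, h2⟩ := key z hz
  refine ⟨p, q, hp, hq, h1, fun ε hε => ?_⟩
  have e : ∀ s, τ (m.Z s z) = a s - s ∧ σ (m.Z s z) = c s - s := fun s =>
    uniq (h _ ((hj.norm s z).trans hz)) (hP s)
  have e0 := e 0
  rw [ho.zero, sub_zero, sub_zero] at e0
  filter_upwards [h2 ε hε] with r hr
  rw [e0.1, e0.2, (e r).1, (e r).2]
  exact ⟨by linarith [hr.1], by linarith [hr.2]⟩

end Pool.Agent.MP_3ee8cb_gt.D3RK
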