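import Pool.Agent.MP_3ee8cb_gt.D3NP.Spec
import Pool.Agent.MP_3ee8cb_gt.D3SI.Int

/-! Rank one dynamics in frames: definitions and statements. -/

namespace Pool.Agent.MP_3ee8cb_gt.D3RK

open Set Filter Topology D3
open D3.SI (ac)
open CR (FdP)
open scoped RealInnerProductSpace

noncomputable section

/-- The unit vectors. -/
def U : Set (V × V) := {z | ‖z.2‖ = 1}

/-- Every parallel Jacobi field along the geodesic of `z` is tangent. -/
def Reg (m : MF) (z : V × V) : Prop :=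
  ∀ η, (∀ t, m.J' z η t = 0) → m.hor z η = ⟪z.2, m.hor z η⟫ • z.2

/-- The distance between the geodesics of `z` and `w` at times `s` and `t`. -/
def ds (m : MF) (lg : V × V → V) (s : ℝ) (z : V × V) (t : ℝ) (w : V × V) : ℝ :=
  ‖lg ((m.Z s z).1, (m.Z t w).1)‖

/-- A Hadamard space in frames. -/
structure Hd (m : MF) (lg : V × V → V) : Prop where
  ok : m.OK
  jac : m.Jac
  up : m.Up 0
  had : m.Had lg

/-- Every unit vector is a limit of unit vectors with the property `P`. -/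
def Den (P : V × V → Prop) : Prop := ∀ z ∈ U, z ∈ closure {w | w ∈ U ∧ P w}

/-- A geodesic at bounded distance from that of `z` is the same. -/
def Str (m : MF) (lg : V × V → V) (z : V × V) : Prop :=
  ∀ w ∈ U, (∃ D, ∀ t, ds m lg t z t w ≤ D) → ∃ c, w = m.Z c z

/-- `E x w` is the direction from `x` to the end point of `w`. -/
structure Asy (m : MF) (lg : V × V → V) (E : V → V × V → V) : Prop where
  unit : ∀ x, ∀ w ∈ U, ‖E x w‖ = 1
  cont : ContinuousOn (fun p : V × V × V => E p.1 p.2) {p | p.2 ∈ U}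
  bdd : ∀ x, ∀ w ∈ U, ∀ t, 0 ≤ t → ds m lg t (x, E x w) t w ≤ ‖lg (x, w.1)‖
  uniq : ∀ x a, ‖a‖ = 1 → ∀ w ∈ U, (∃ D, ∀ t, 0 ≤ t → ds m lg t (x, a) t w ≤ D) → a = E x w
  lim : ∀ x, ∀ w ∈ U, Tendsto (fun T : ℝ => T⁻¹ • lg (x, (m.Z T w).1)) atTop (𝓝 (E x w))

section Group

variable (m : MF) {Λ : Type} [Group Λ] [MulAction Λ V] (O : Λ → V → V ≃ₗᵢ[ℝ] V)

/-- Recurrence along the filter `l`. -/
def Rec (l : Filter ℝ) (z : V × V) : Prop := ∃ (t : ℕ → ℝ) (γ : ℕ → Λ), Tendsto t atTop l ∧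
  Tendsto (fun n => ac O (γ n) (m.Z (t n) z)) atTop (𝓝 z)

/-- An invariant open set of unit vectors. -/
structure Inv (W : Set (V × V)) : Prop where
  unit : W ⊆ U
  op : ∀ z ∈ W, W ∈ 𝓝[U] z
  fl : ∀ t, ∀ z ∈ W, m.Z t z ∈ W
  gr : ∀ γ, ∀ z ∈ W, ac O γ z ∈ W

/-- Topological transitivity. -/
def Tr : Prop := ∀ W W', Inv m O W → Inv m O W' → W.Nonempty → W'.Nonempty → (W ∩ W').Nonempty

/-- Every unit vector is nonwandering. -/
def NW : Prop := ∀ z ∈ U, ∀ B ∈ 𝓝 z, ∀ k : ℝ, ∃ w ∈ B ∩ U, ∃ (t : ℝ) (γ : Λ), k < t ∧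
  ac O γ (m.Z t w) ∈ B

/-- The logarithm is equivariant. -/
def LgA (lg : V × V → V) : Prop := ∀ (γ : Λ) x y, lg (γ • x, γ • y) = O γ x (lg (x, y))

/-- Compatibility of the asymptote map. -/
structure Aq (E : V → V × V → V) : Prop where
  self : ∀ w ∈ U, E w.1 w = w.2
  fl : ∀ x t, ∀ w ∈ U, E x (m.Z t w) = E x w
  sat : ∀ x y, ∀ w ∈ U, E x (y, E y w) = E x w
  gr : ∀ (γ : Λ) x, ∀ w ∈ U, E (γ • x) (ac O γ w) = O γ x (E x w)
  mono : ∀ z ∈ U, ∀ w ∈ U, Antitone fun s => ⟪(m.Z s z).2, E (m.Z s z).1 w⟫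

end Group

/-- A statement about a Hadamard space. -/
def OnH (P : MF → (V × V → V) → Prop) : Prop := ∀ m lg, Hd m lg → P m lg

/-- A statement about a Hadamard space with a group. -/
def OnG (P : ∀ (_ : MF) (_ : V × V → V) (Λ : Type) [Group Λ] [MulAction Λ V]
    (_ : Λ → V → V ≃ₗᵢ[ℝ] V), Prop) : Prop :=
  ∀ m lg (Λ : Type) [Group Λ] [MulAction Λ V] O, Hd m lg → Act m Λ O → P m lg Λ O

def SLGA : Prop := OnG fun _ lg _ _ _ O => LgA O lg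

/-- Convexity of the distance. -/
def SCV : Prop := OnH fun m lg => ∀ z w, ConvexOn ℝ univ fun t => ds m lg t z t w

/-- A metric line is a geodesic; a point between two points is on the segment. -/
def SGEO : Prop := OnH fun m lg =>
  (∀ x : ℝ → V, (∀ s t, ‖lg (x s, x t)‖ = |s - t|) → ∃ u ∈ U, ∀ t, x t = (m.Z t u).1) ∧
  ∀ (x y p : V) (q : ℝ), 0 ≤ q → q ≤ 1 → ‖lg (x, p)‖ ≤ q * ‖lg (x, y)‖ →
    ‖lg (p, y)‖ ≤ (1 - q) * ‖lg (x, y)‖ → p = (m.Z q (x, lg (x, y))).1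

/-- Parallel geodesics that accumulate transversally give a parallel field. -/
def SPAR : Prop := OnH fun m lg => ∀ u ∈ U, ∀ (w : ℕ → V × V) (r : ℕ → ℝ) (θ : ℝ), θ < 1 →
  (∀ k, w k ∈ U ∧ 0 < r k ∧ (∀ t, ds m lg t u t (w k) = r k) ∧
    |⟪lg (u.1, (w k).1), u.2⟫| ≤ θ * r k) → Tendsto r atTop (𝓝 0) → ¬Reg m u

def SSTR : Prop := OnH fun m lg => ∀ u ∈ U, Reg m u → Str m lg u

def SASY : Prop := OnH fun m lg => ∃ E, Asy m lg E

def SAQ : Prop := OnG fun m lg _ _ _ O => ∀ E, Asy m lg E → Aq m O E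

/-- A recurrent vector is a limit of the orbit of every neighbourhood of an asymptote. -/
def SLA : Prop := OnG fun m lg _ _ _ O => ∀ E, Asy m lg E → ∀ W, Inv m O W → ∀ v ∈ U,
  Rec m O atTop v → ∀ y, (y, E y v) ∈ W → v ∈ closure W

/-- North south dynamics. -/
def SNS : Prop := OnG fun m lg Λ _ _ O => ∀ E, Asy m lg E → ∀ u ∈ U, Str m lg u →
  Rec m O atTop u → Rec m O atBot u → ∀ a, ‖a‖ = 1 → a ≠ -u.2 →
  ∃ γ : ℕ → Λ, Tendsto (fun n => E u.1 (ac O (γ n) (u.1, a))) atTop (𝓝 u.2)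

def SNW : Prop := OnG fun m _ Λ _ _ O => FdP 3 Λ → NW m O

def SBAI : Prop := OnG fun m _ _ _ _ O => NW m O →
  Den fun z => Rec m O atTop z ∧ Rec m O atBot z

def SRO : Prop := OnG fun m _ _ _ _ O => Inv m O {z | z ∈ U ∧ Reg m z}

def STR : Prop := OnG fun m _ Λ _ _ O => FdP 3 Λ → (∃ z ∈ U, Reg m z) → Tr m O

/-- Consequences of transitivity. -/
def SCN : Prop := ∀ (m : MF) (Λ : Type) [Group Λ] [MulAction Λ V] (O : Λ → V → V ≃ₗᵢ[ℝ] V),
  m.OK → m.Jac → Act m Λ O → Tr m O →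
  (∀ W, Inv m O W → W.Nonempty → Den fun z => z ∈ W) ∧
  ∀ c : V × V → ℝ, ContinuousOn c U →
    (∀ z ∈ U, (∀ t, c (m.Z t z) = c z) ∧ ∀ γ, c (ac O γ z) = c z) → ∀ z ∈ U, ∀ w ∈ U, c z = c w

/-- Transport by the conjugacy. -/
def SOPN : Prop := ∀ (m m' : MF) (φ : V × V → V × V) (Γ Λ : Type) [Group Γ] [Group Λ]
  [MulAction Γ V] [MulAction Λ V] (ρ : Γ ≃* Λ) O O', m.OK → m.Jac → m'.OK → CF m m' φ →
  Eqv ρ O O' φ → (Tr m' O' → Tr m O) ∧
    ∀ W, Inv m' O' W → W.Nonempty → Inv m O {z | z ∈ U ∧ φ z ∈ W} ∧ ∃ z ∈ U, φ z ∈ W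

def R_STR : Prop := SCV → SGEO → SPAR → SSTR
def R_ASY : Prop := SCV → SASY
def R_AQ : Prop := SLGA → SAQ
def R_LA : Prop := SLGA → SLA
def R_NS : Prop := SCV → SGEO → SAQ → SNS
def R_NW : Prop := D3NP.SINT2 → SLGA → SNW
def R_TR : Prop := SSTR → SASY → SAQ → SLA → SNS → SNW → SBAI → SRO → STR

end

end Pool.Agent.MP_3ee8cb_gt.D3RK
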