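import Pool.Agent.MP_3ee8cb_gt.D3RK.RSpec
import Pool.Agent.MP_3ee8cb_gt.D3RK.OSpec
import Pool.Agent.MP_3ee8cb_gt.D3OD.LinkA

/-! Rigidity in nonpositive curvature and rank one: statements in frames. -/

namespace Pool.Agent.MP_3ee8cb_gt.D3RK

open Set Filter Topology D3
open D3.SI (ac)
open D3NP (At At2 Dt Two Sc2 SINT2)
open D3OD (OB pv OrbA)
open CR (Met UT FdP)
open scoped RealInnerProductSpace Matrix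

noncomputable section

/-- Some geodesic has no parallel Jacobi field other than the multiples of its velocity. -/
def Rk1 (h : Met 3) (C : TB.Chr 3) (Ψ : ℝ → UT h → UT h) : Prop := ∃ p : UT h, ∀ X : ℝ → V,
  (∀ t, HasDerivAt X (-(C (Ψ t p).1.1 (Ψ t p).1.2 (X t))) t) →
  (∀ t, TB.Rm C (Ψ t p).1.1 (X t) (Ψ t p).1.2 (Ψ t p).1.2 = 0) → ∃ r : ℝ, X 0 = r • p.1.2

def SRK : Prop := On1 fun h C _ _ _ Ψ => ∀ m : MF, m.OK → m.Jac → Lk h C Ψ m → Rk1 h C Ψ →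
  ∃ z ∈ U, Reg m z

/-- A statement about a conjugacy in frames. -/
def OnC0 (P : MF → MF → (V × V → V × V) → Prop) : Prop :=
  ∀ (m m' : MF) (φ : V × V → V × V), m.OK → m.Jac → m'.OK → m'.Jac → CF m m' φ → m.Up 0 →
    m'.Up 0 → P m m' φ

def SSY0 : Prop := OnC0 fun m m' φ => (Den fun z => Reg m' (φ z)) →
  Sy m m' φ ∧ ∀ x, m'.Front (fr φ x)

/-- The form `⟨J, J'⟩` on the front through `z`. -/
def qq (m' : MF) (φ : V × V → V × V) (z : V × V) (t : ℝ) (e : V) : ℝ :=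
  ⟪At m' (fr φ z.1) t z.2 e, At2 m' (fr φ z.1) t z.2 e⟫

/-- The link with the equation in the plane. -/
def Lk0 (m m' : MF) (φ : V × V → V × V) : Prop := ∃ C : ℝ, ∀ z ∈ U,
  ∃ kM kN hh hv vh vv A A', OrbA 0 C kM kN hh hv vh vv ∧ Two kN hv vv A A' ∧ ∀ s, ∃ b : OB,
    b 0 = (m.Z s z).2 ∧ ∀ t, Dt m' (fr φ (m.Z s z).1) 0 (t - s) (m.Z s z).2 = |(A' s t).det| ∧
      ∀ x, qq m' φ (m.Z s z) (t - s) (pv b x) = qf (A s t) (A' s t) x ∧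
        (At m' (fr φ (m.Z s z).1) (t - s) (m.Z s z).2 (pv b x) = 0 ↔ A s t *ᵥ x = 0)

def SLK0 : Prop := OnC0 fun m m' φ => Sy m m' φ → Lk0 m m' φ

/-- The focal times as functions of the vector. -/
structure Foc (m m' : MF) (φ : V × V → V × V) (T : ℝ) (τ σ : V × V → ℝ) : Prop where
  T0 : 0 ≤ T
  neg : ∀ z ∈ U, ∀ t e, t < τ z → ⟪z.2, e⟫ = 0 → e ≠ 0 → qq m' φ z t e < 0
  neg' : ∀ z ∈ U, ∀ t, τ z < t → ∃ e, ⟪z.2, e⟫ = 0 ∧ 0 < qq m' φ z t e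
  pos : ∀ z ∈ U, ∀ t e, σ z < t → ⟪z.2, e⟫ = 0 → e ≠ 0 → 0 < qq m' φ z t e
  pos' : ∀ z ∈ U, ∀ t, t < σ z → ∃ e, ⟪z.2, e⟫ = 0 ∧ qq m' φ z t e < 0
  bd : ∀ z ∈ U, -T ≤ τ z ∧ τ z ≤ σ z ∧ σ z ≤ T
  det : ∀ z ∈ U, ∀ t, Dt m' (fr φ z.1) 0 t z.2 ≠ 0
  ker : ∀ z ∈ U, ∃ e, ⟪z.2, e⟫ = 0 ∧ e ≠ 0 ∧ At m' (fr φ z.1) (τ z) z.2 e = 0
  eq : ∀ z ∈ U, τ z = σ z ↔ At m' (fr φ z.1) (τ z) z.2 = 0
  dini : ∀ z ∈ U, ∃ p q : ℝ, 0 ≤ p ∧ 0 ≤ q ∧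
    (∀ t, 1 ≤ Dt m' (fr φ z.1) 0 t z.2 ^ 2 * (p * q)) ∧ ∀ ε : ℝ, 0 < ε → ∀ᶠ r in 𝓝[>] (0 : ℝ),
      τ z + (p - 1 - ε) * r ≤ τ (m.Z r z) ∧ σ z + (q - 1 - ε) * r ≤ σ (m.Z r z)

def SFOC : Prop := ∀ (m m' : MF) (φ : V × V → V × V), m.OK → m.Jac → Lk0 m m' φ →
  ∃ T τ σ, Foc m m' φ T τ σ

/-- Continuity and invariance of the form. -/
structure Sc0 (m' : MF) (φ : V × V → V × V) (Γ : Type) [Group Γ] [MulAction Γ V]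
    (O : Γ → V → V ≃ₗᵢ[ℝ] V) : Prop where
  cq : ContinuousOn (fun p : (V × V) × ℝ × V => qq m' φ p.1 p.2.1 p.2.2) {p | p.1.2 ≠ 0}
  iq : ∀ γ : Γ, ∀ z ∈ U, ∀ t e, qq m' φ (ac O γ z) t (O γ z.1 e) = qq m' φ z t e

def SSC0 : Prop := ∀ (m m' : MF) (φ : V × V → V × V) (Γ Λ : Type) [Group Γ] [Group Λ]
  [MulAction Γ V] [MulAction Λ V] (ρ : Γ ≃* Λ) O O', m.OK → m'.OK → CF m m' φ → Act m Γ O →
  Act m' Λ O' → Eqv ρ O O' φ → Sc0 m' φ Γ O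

/-- The focal times are continuous and invariant. -/
def SCT : Prop := ∀ (m m' : MF) (φ : V × V → V × V) (Γ : Type) [Group Γ] [MulAction Γ V] O T τ σ,
  Foc m m' φ T τ σ → Sc0 m' φ Γ O → ContinuousOn τ U ∧ ContinuousOn σ U ∧
    ∀ γ, ∀ z ∈ U, τ (ac O γ z) = τ z ∧ σ (ac O γ z) = σ z

/-- The focal times are invariant under the flow. -/
def SEQ : Prop := ∀ (m m' : MF) (φ : V × V → V × V) (Γ : Type) [Group Γ] [MulAction Γ V] O T τ σ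
  (L : ℝ), 0 ≤ L → m.OK → m.Jac → Act m Γ O → FdP 3 Γ → Foc m m' φ T τ σ →
  Sc2 m' φ Γ O → ContinuousOn τ U → ContinuousOn σ U →
  (∀ γ, ∀ z ∈ U, τ (ac O γ z) = τ z ∧ σ (ac O γ z) = σ z) →
  (∀ x (g : V → ℝ), ContinuousOn g {b | ‖b‖ = 1} →
    (∀ b t, ‖b‖ = 1 → |t| ≤ L → g b ≤ |(At2 m' (fr φ x) t b).det|) →
    sph g ≤ sph fun _ => 1) →
  ∀ z ∈ U, ∀ s, τ (m.Z s z) = τ z ∧ σ (m.Z s z) = σ z

def R_FOC2 : Prop := S_POS0 → S_INV0 → S_PA0 → S_FT → S_FOC → SFOC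
def R_EQ : Prop := SINT2 → S_DIN0 → SEQ

/-- Rigidity under a conjugacy of class `C¹`, in nonpositive curvature and rank one. -/
def MainA0 : Prop := On2 fun g h _ C' _ _ _ _ _ _ _ Ψ ρ F => ContDiff ℝ 3 h → TB.CurvLe g 0 →
  (∀ x u v, h x (TB.Rm C' x u v v) u ≤ 0) → Rk1 h C' Ψ → C1L F → C1L F.symm → Iso g h ρ

end

end Pool.Agent.MP_3ee8cb_gt.D3RK
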