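import Pool.Agent.MP_3ee8cb_gt.D3RK.Spec
import Pool.Agent.MP_3ee8cb_gt.D3RK.Flp0
import Pool.Agent.MP_3ee8cb_gt.D3RK.Dia0
import Pool.Agent.MP_3ee8cb_gt.D3RK.Hair
import Pool.Agent.MP_3ee8cb_gt.D3H0.Had
import Pool.Agent.MP_3ee8cb_gt.D3NP.GSpec
import Pool.Agent.MP_3ee8cb_gt.D3.Top

/-! Rigidity in nonpositive curvature and rank one, from the blocks. -/

namespace Pool.Agent.MP_3ee8cb_gt.D3RK

open Set Filter Topology D3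
open D3NP (At SSC2 SFL2 SFIB0)
open D3FL (Sm3 SFRM3)
open CR (Met UT dd MinP)
open scoped RealInnerProductSpace

/-- Rigidity in frames under the assumption `P` on the target. -/
def MainF (P : MF → Prop) : Prop := On2 fun g h C C' Γ Λ _ _ _ _ Φ Ψ ρ F =>
  ∀ (m m' : MF) O O' lg lg', Hd m lg → Hd m' lg' → Lk g C Φ m → Lk h C' Ψ m' → Act m Γ O →
    Act m' Λ O' → (∀ y z, ‖lg (y, z)‖ = dd g y z) → (∀ y z, ‖lg' (y, z)‖ = dd h y z) →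
    MinP g Φ → MinP h Ψ → Sm3 m' → C1L F → C1L F.symm → P m' → Iso g h ρ

theorem den_mono {P Q : V × V → Prop} (h : Den P) (i : ∀ z ∈ U, P z → Q z) : Den Q :=
  fun z hz => closure_mono (fun w hw => And.intro hw.1 (i w hw.1 hw.2)) (h z hz)

theorem mainR (sc1 : SC1) (scf : SCF) (wid : SWID) (fin : SEND) (fib : SFIB0) (sc2 : SSC2)
    (fl2 : SFL2) (str : SSTR) (ro : SRO) (tr : STR) (cn : SCN) (opn : SOPN) (sy0 : SSY0)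
    (lk0 : SLK0) (foc : SFOC) (sc0 : SSC0) (ct : SCT) (seq : SEQ) :
    MainF fun m' => ∃ z ∈ U, Reg m' z := by
  intro g h C C' Γ Λ _ _ _ _ Φ Ψ ρ F qg qh cg ch dΓ dΛ cj m m' O O' lg lg' H H' l l' aO aO' _ hd
    mg mh s3 f1 f2 rk
  have o := H.ok
  have j := H.jac
  have o' := H'.ok
  have j' := H'.jac
  have T' := tr m' lg' Λ O' H' aO' (CR.fd 3 h Λ qh.rp.deck) rk
  have I' := ro m' lg' Λ O' H' aO'
  have ne : {z | z ∈ U ∧ Reg m' z}.Nonempty := rk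
  obtain ⟨s, F', e, cj', fl⟩ := flp0 cn g h C C' Γ Λ Φ Ψ ρ F qg qh cg ch dΓ dΛ cj m' lg' O' H' l'
    hd aO' mh T' (den_mono ((cn m' Λ O' o' j' aO' T').1 _ I' ne) fun z hz k =>
      str m' lg' H' z hz k.2)
  obtain ⟨g1, g2⟩ := sc1 g h C C' Γ Λ Φ Ψ ρ F qg qh cg ch dΓ dΛ cj s F' e f1 f2
  obtain ⟨φ, cf, eq⟩ := scf g h C C' Γ Λ Φ Ψ ρ F' qg qh cg ch dΓ dΛ cj' m m' O O' o j o' j' l l'
    aO aO' mg fl g1 g2
  obtain ⟨p1, p2⟩ := opn m m' φ Γ Λ ρ O O' o j o' cf eq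
  obtain ⟨c1, c2⟩ := cn m Γ O o j aO (p1 T')
  obtain ⟨sy, ft⟩ := sy0 m m' φ o j o' j' cf H.up H'.up
    (den_mono (c1 _ (p2 _ I' ne).1 (p2 _ I' ne).2) fun z _ k => k.2.2)
  obtain ⟨L, L0, gd⟩ := Dia.good0 o j o' j' cf H.up H'.up sy
  obtain ⟨T, τ, σ, fc⟩ := foc m m' φ o j (lk0 m m' φ o j o' j' cf H.up H'.up sy)
  have sc := sc2 m m' φ Γ Λ ρ O O' o o' cf aO aO' eq
  obtain ⟨cτ, cσ, iv⟩ := ct m m' φ Γ O T τ σ fc (sc0 m m' φ Γ Λ ρ O O' o o' cf aO aO' eq)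
  have fw := seq m m' φ Γ O T τ σ L L0.le o j aO (CR.fd 3 g Γ qg.rp.deck) fc sc cτ cσ iv fun x =>
    fib m' lg' _ _ o' j' H'.up H'.had (ft x) (gd x).1 L0 s3
      (wid m' lg' _ _ o' j' H'.up H'.had (ft x) (gd x).1 L0)
  have kτ := c2 τ cτ fun z hz => ⟨fun t => (fw z hz t).1, fun γ => (iv γ z hz).1⟩
  have kσ := c2 σ cσ fun z hz => ⟨fun t => (fw z hz t).2, fun γ => (iv γ z hz).2⟩
  obtain ⟨w, hw, -⟩ := (p2 _ I' ne).2
  obtain ⟨a, ha, a0⟩ := hair (fun a => At m' (fr φ w.1) (τ w) a)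
    (sc.cA.comp (f := fun a : V => ((w.1, a), τ w)) (by fun_prop) fun a (h1 : ‖a‖ = 1) e => by
      simp [show a = 0 from e] at h1)
    fun a ha => ⟨by
      rw [D3NP.At_apply, real_inner_self_eq_norm_sq, ha, one_pow, one_smul, sub_self, map_zero,
        MF.J, map_zero, map_zero], by
      rw [kτ w hw (w.1, a) ha]
      exact fc.ker (w.1, a) ha⟩
  rw [kτ w hw (w.1, a) ha] at a0
  have es : ∀ z ∈ U, τ z = σ z := fun z hz => by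
    rw [kτ z hz (w.1, a) ha, kσ z hz (w.1, a) ha]
    exact (fc.eq (w.1, a) ha).2 a0
  have z0 : ∀ z ∈ U, At m' (fr φ z.1) (τ z) z.2 = 0 := fun z hz => (fc.eq z hz).1 (es z hz)
  have t0 : ∀ z ∈ U, τ z = 0 := fun z hz => by
    have n : (z.1, -z.2) ∈ U := (norm_neg z.2).trans hz
    have h1 := (fl2 m' _ o' j' (ft z.1) _ n).1 _ (z0 _ n)
    rw [neg_neg, kτ _ n z hz] at h1
    obtain ⟨e, e1, e2, -⟩ := fc.ker z hz
    have q0 : qq m' φ z (-τ z) e = 0 := by simp [qq, h1]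
    have a1 : ¬-τ z < τ z := fun k => (fc.neg z hz _ e k e1 e2).ne q0
    have a2 : ¬σ z < -τ z := fun k => (fc.pos z hz _ e k e1 e2).ne' q0
    rw [← es z hz] at a2
    linarith [not_lt.1 a1, not_lt.1 a2]
  exact fin g h C C' Γ Λ Φ Ψ ρ F' qg qh cg ch dΓ dΛ cj' m m' O O' φ lg' o j o' j' l l' aO aO'
    H'.had cf eq fun x b hb => (fl2 m' _ o' j' (ft x) b hb).2 (t0 (x, b) hb ▸ z0 (x, b) hb)

/-- Rigidity under the assumption `P` on the target. -/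
def MainP (P : ∀ (h : Met 3) (_ : TB.Chr 3) (_ : ℝ → UT h → UT h), Prop) : Prop :=
  On2 fun g h _ C' _ _ _ _ _ _ _ Ψ ρ F => ContDiff ℝ 3 h → TB.CurvLe g 0 →
    (∀ x u v, h x (TB.Rm C' x u v v) u ≤ 0) → P h C' Ψ → C1L F → C1L F.symm → Iso g h ρ

theorem mainP_of {P : ∀ (h : Met 3) (_ : TB.Chr 3) (_ : ℝ → UT h → UT h), Prop} {Q : MF → Prop}
    (jac : SJAC) (frm : SFRM) (frm3 : SFRM3) (act : SACT) (A : MainF Q)
    (pq : On1 fun h C _ _ _ Ψ => ∀ m : MF, m.OK → m.Jac → Lk h C Ψ m → P h C Ψ → Q m) :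
    MainP P := by
  intro g h _ C' Γ Λ _ _ _ _ Φ Ψ ρ F qg qh _ ch dΓ dΛ cj h3 ⟨C, cg, kg⟩ kh hP f1 f2
  obtain ⟨m, o, l⟩ := frm g C Γ Φ qg cg
  obtain ⟨m', o', l', s3⟩ := frm3 h C' Λ Ψ qh ch h3
  have j := jac m o
  have j' := jac m' o'
  obtain ⟨O, aO⟩ := act g C Γ Φ qg cg m o l dΓ
  obtain ⟨O', aO'⟩ := act h C' Λ Ψ qh ch m' o' l' dΛ
  have u := D3H0.up0 o l kg
  have u' := D3H0.up0 o' l' fun x a b => by simpa using kh x a b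
  obtain ⟨mg, lg, hl, hd⟩ := D3H0.shad0 g C Γ Φ qg cg m o j l u
  obtain ⟨mh, lg', hl', hd'⟩ := D3H0.shad0 h C' Λ Ψ qh ch m' o' j' l' u'
  exact A g h C C' Γ Λ Φ Ψ ρ F qg qh cg ch dΓ dΛ cj m m' O O' lg lg' ⟨o, j, u, hl⟩
    ⟨o', j', u', hl'⟩ l l' aO aO' hd hd' mg mh s3 f1 f2 (pq h C' Λ Ψ qh ch m' o' j' l' hP)

theorem mainF_all {Q : MF → Prop} (A : MainF Q) (B : MainF fun m => ¬Q m) :
    MainF fun _ => True := by
  intro g h C C' Γ Λ _ _ _ _ Φ Ψ ρ F qg qh cg ch dΓ dΛ cj m m' O O' lg lg' H H' l l' aO aO' d d'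
    mg mh s3 f1 f2 _
  by_cases k : Q m'
  · exact A g h C C' Γ Λ Φ Ψ ρ F qg qh cg ch dΓ dΛ cj m m' O O' lg lg' H H' l l' aO aO' d d' mg mh
      s3 f1 f2 k
  · exact B g h C C' Γ Λ Φ Ψ ρ F qg qh cg ch dΓ dΛ cj m m' O O' lg lg' H H' l l' aO aO' d d' mg mh
      s3 f1 f2 k

end Pool.Agent.MP_3ee8cb_gt.D3RK
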